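import Mathlib

namespace Pool.Agent.Work.MP_1c7b0d_gt

/-- The intersection of the half-spaces `⟪u i, x⟫ ≤ 1`. For unit vectors `u i` these half-spaces
contain the unit ball and touch it at `u i`. -/
def circ {n d : ℕ} (u : Fin n → EuclideanSpace ℝ (Fin d)) : Set (EuclideanSpace ℝ (Fin d)) :=
  {x | ∀ i, inner ℝ (u i) x ≤ 1}

/-- The number `√(k^k (k+1)^(k+1)) / k!`, the volume of the regular `k`-simplex of inradius one. -/
noncomputable def sv (k : ℕ) : ℝ :=
  Real.sqrt ((k:ℝ) ^ k * ((k:ℝ) + 1) ^ (k + 1)) / (k.factorial : ℝ)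

end Pool.Agent.Work.MP_1c7b0d_gt
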