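import Pool.Agent.Work.MP_1c7b0d_gt.Pattern

open MeasureTheory Set Filter Topology

namespace Pool.Agent.Work.MP_1c7b0d_gt

/-- the function `g'' + g` for `g = T τ4 (T τ3 k)` -/
noncomputable def FF (τ4 τ3 : ℝ) (k : ℝ → ℝ) (y : ℝ) : ℝ :=
  (((k y - T τ3 k y) / τ3) - ((T τ3 k y - T τ4 (T τ3 k) y) / τ4)) / τ4 + T τ4 (T τ3 k) y

lemma FF_eq (τ4 τ3 : ℝ) (k : ℝ → ℝ) :
    FF τ4 τ3 k = fun y => (1 / (τ3 * τ4)) * k y +
      ((-(1 / (τ3 * τ4)) - 1 / τ4 ^ 2) * T τ3 k y + (1 / τ4 ^ 2 + 1) * T τ4 (T τ3 k) y) := by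
  funext y
  unfold FF
  ring_nf

lemma FF_adm (τ4 τ3 : ℝ) {k : ℝ → ℝ} (hk : Adm k) : Adm (FF τ4 τ3 k) := by
  rw [FF_eq]
  exact (hk.const_mul _).add (((hk.T τ3).const_mul _).add (((hk.T τ3).T τ4).const_mul _))

lemma FF_bdd (τ4 τ3 : ℝ) {k : ℝ → ℝ} (hk : BC k) : ∃ C, ∀ y, |FF τ4 τ3 k y| ≤ C := by
  obtain ⟨C1, h1⟩ := hk.bound
  obtain ⟨C2, h2⟩ := (hk.T τ3).bound
  obtain ⟨C3, h3⟩ := ((hk.T τ3).T τ4).bound
  refine ⟨|1 / (τ3 * τ4)| * C1 + (|(-(1 / (τ3 * τ4)) - 1 / τ4 ^ 2)| * C2 + |1 / τ4 ^ 2 + 1| * C3), fun y => ?_⟩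
  rw [FF_eq]
  refine (abs_add_le _ _).trans (add_le_add ?_ ((abs_add_le _ _).trans (add_le_add ?_ ?_)))
  · rw [abs_mul]; exact mul_le_mul_of_nonneg_left (h1 y) (abs_nonneg _)
  · rw [abs_mul]; exact mul_le_mul_of_nonneg_left (h2 y) (abs_nonneg _)
  · rw [abs_mul]; exact mul_le_mul_of_nonneg_left (h3 y) (abs_nonneg _)

lemma FF_T (τ4 τ3 τ : ℝ) {k : ℝ → ℝ} (hk : Adm k) : FF τ4 τ3 (T τ k) = T τ (FF τ4 τ3 k) := by
  rw [FF_eq, FF_eq]
  rw [T_add (hk.const_mul _) (((hk.T τ3).const_mul _).add (((hk.T τ3).T τ4).const_mul _)),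
    T_add ((hk.T τ3).const_mul _) (((hk.T τ3).T τ4).const_mul _),
    T_const_mul, T_const_mul, T_const_mul, T_comm hk τ3 τ, T_comm (hk.T τ3) τ4 τ]

lemma T_FF_zero {τ4 τ3 τ : ℝ} (h4 : τ4 ≠ 0) (h3 : τ3 ≠ 0) (hτ : τ ≠ 0) {k : ℝ → ℝ} (hk : Adm k)
    (hz : T τ3 k 0 = T τ4 (T τ3 k) 0)
    (hcrit : T τ (T τ4 (T τ3 k)) 0 = T τ4 (T τ3 k) 0 / (1 + τ ^ 2)) :
    T τ (FF τ4 τ3 k) 0 = 0 := by
  rw [← FF_T _ _ _ hk]
  unfold FF
  rw [T_comm hk τ3 τ, T_comm (hk.T τ3) τ4 τ, hcrit]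
  -- resolvent identities
  have e1 : (T τ k 0 - T τ (T τ3 k) 0) / τ3 = (T τ3 k 0 - T τ (T τ3 k) 0) / τ := by
    have d1 := T_hasDerivAt (hk.T τ) h3 0
    rw [T_comm hk τ3 τ] at d1
    exact d1.unique (T_hasDerivAt (hk.T τ3) hτ 0)
  have e2 : (T τ (T τ3 k) 0 - T τ (T τ4 (T τ3 k)) 0) / τ4
      = (T τ4 (T τ3 k) 0 - T τ (T τ4 (T τ3 k)) 0) / τ := by
    have d1 := T_hasDerivAt ((hk.T τ3).T τ) h4 0
    rw [T_comm (hk.T τ3) τ4 τ] at d1
    exact d1.unique (T_hasDerivAt ((hk.T τ3).T τ4) hτ 0)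
  rw [hcrit] at e2
  rw [e1, e2, hz]
  set A := T τ4 (T τ3 k) 0
  set B := T τ (T τ3 k) 0
  have hpos : (1 + τ ^ 2) ≠ 0 := by positivity
  have hB : B = A / (1 + τ ^ 2) + τ4 * ((A - A / (1 + τ ^ 2)) / τ) := by
    field_simp at e2 ⊢
    linarith
  rw [hB]
  field_simp
  ring

lemma hasDerivAt_phi_pos {a b y : ℝ} (ha : 0 < a) (hb : 0 < b) (hy : 0 < y) :
    HasDerivAt (phi a b) (-(phi a b y) / a) y := by
  have h1 : HasDerivAt (fun y => (1 / (a + b)) * Real.exp (-y / a))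
      ((1 / (a + b)) * (Real.exp (-y / a) * (-1 / a))) y :=
    ((((hasDerivAt_id y).neg).div_const a).exp).const_mul _
  have h2 : HasDerivAt (phi a b) ((1 / (a + b)) * (Real.exp (-y / a) * (-1 / a))) y := by
    refine h1.congr_of_eventuallyEq ?_
    filter_upwards [lt_mem_nhds hy] with z hz
    exact phi_of_nonneg ha hb hz.le
  refine h2.congr_deriv ?_
  rw [phi_of_nonneg ha hb hy.le]
  ring

lemma hasDerivAt_phi_neg {a b y : ℝ} (ha : 0 < a) (hb : 0 < b) (hy : y < 0) :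
    HasDerivAt (phi a b) (phi a b y / b) y := by
  have h1 : HasDerivAt (fun y => (1 / (a + b)) * Real.exp (y / b))
      ((1 / (a + b)) * (Real.exp (y / b) * (1 / b))) y :=
    (((hasDerivAt_id y).div_const b).exp).const_mul _
  have h2 : HasDerivAt (phi a b) ((1 / (a + b)) * (Real.exp (y / b) * (1 / b))) y := by
    refine h1.congr_of_eventuallyEq ?_
    filter_upwards [gt_mem_nhds hy] with z hz
    exact phi_of_nonpos ha hb hz.le
  refine h2.congr_deriv ?_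
  rw [phi_of_nonpos ha hb hy.le]
  ring

section base

variable {a b τ3 τ4 : ℝ}

/-- the function `g3'' + g3` off the origin with prescribed `D = phi'` -/
noncomputable def f3 (a b τ3 D y : ℝ) : ℝ :=
  (D - (phi a b y - T τ3 (phi a b) y) / τ3) / τ3 + T τ3 (phi a b) y

lemma hasDerivAt_FF_base (ha : 0 < a) (hb : 0 < b) (h3 : τ3 ≠ 0) (h4 : τ4 ≠ 0) {D y : ℝ}
    (hD : HasDerivAt (phi a b) D y) :
    HasDerivAt (FF τ4 τ3 (phi a b)) ((f3 a b τ3 D y - FF τ4 τ3 (phi a b) y) / τ4) y := by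
  have hk := (phi_bc ha hb).adm
  have d3 := T_hasDerivAt hk h3 y
  have d4 := T_hasDerivAt (hk.T τ3) h4 y
  have h := ((((hD.sub d3).div_const τ3).sub ((d3.sub d4).div_const τ4)).div_const τ4).add d4
  refine h.congr_deriv ?_
  unfold f3 FF
  ring

lemma f3_neg (ha : 0 < a) (hb : 0 < b) (h3 : 0 < τ3) {y : ℝ} (hy : y < 0) :
    0 < f3 a b τ3 (phi a b y / b) y := by
  unfold f3
  rw [T_phi_of_nonpos ha hb h3 hy.le]
  have hp := phi_pos ha hb y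
  have : (phi a b y / b - (phi a b y - phi a b y * (b / (b + τ3))) / τ3) / τ3 + phi a b y * (b / (b + τ3))
      = phi a b y * ((1 + b ^ 2) / (b * (b + τ3))) := by
    field_simp
    ring
  rw [this]
  positivity

lemma f3_mono (ha : 0 < a) (hb : 0 < b) (h3 : 0 < τ3) :
    StrictMonoOn (fun y => Real.exp (y / τ3) * f3 a b τ3 (-(phi a b y) / a) y) (Ioi 0) := by
  have hk := (phi_bc ha hb).adm
  have hder : ∀ y ∈ Ioi (0:ℝ), HasDerivAt (fun y => Real.exp (y / τ3) * f3 a b τ3 (-(phi a b y) / a) y)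
      (Real.exp (y / τ3) * ((1 / τ3) * (1 + 1 / a ^ 2) * phi a b y)) y := by
    intro y hy
    have dφ := hasDerivAt_phi_pos ha hb hy
    have d3 := T_hasDerivAt hk h3.ne' y
    have h := ((((dφ.neg.div_const a).sub ((dφ.sub d3).div_const τ3)).div_const τ3).add d3)
    have he : HasDerivAt (fun y => Real.exp (y / τ3)) (Real.exp (y / τ3) * (1 / τ3)) y :=
      ((hasDerivAt_id y).div_const τ3).exp
    refine (he.mul h).congr_deriv ?_
    field_simp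
    simp only [Pi.neg_apply, Pi.sub_apply, Pi.add_apply]
    field_simp
    ring
  refine strictMonoOn_of_deriv_pos (convex_Ioi 0) ?_ ?_
  · intro y hy
    exact (hder y hy).continuousAt.continuousWithinAt
  · intro y hy
    rw [interior_Ioi] at hy
    rw [(hder y hy).deriv]
    have := phi_pos ha hb y
    positivity

end base

end Pool.Agent.Work.MP_1c7b0d_gt
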