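import Pool.Agent.Work.MP_1c7b0d_gt.Base

open MeasureTheory Set Filter Topology

namespace Pool.Agent.Work.MP_1c7b0d_gt

section base

variable {a b τ3 τ4 : ℝ}

/-- derivative of `exp (y/τ4) * FF` -/
lemma hasDerivAt_Q (ha : 0 < a) (hb : 0 < b) (h3 : τ3 ≠ 0) (h4 : τ4 ≠ 0) {D y : ℝ}
    (hD : HasDerivAt (phi a b) D y) :
    HasDerivAt (fun y => Real.exp (y / τ4) * FF τ4 τ3 (phi a b) y)
      (Real.exp (y / τ4) * (f3 a b τ3 D y / τ4)) y := by
  have h := hasDerivAt_FF_base ha hb h3 h4 hD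
  have he : HasDerivAt (fun y => Real.exp (y / τ4)) (Real.exp (y / τ4) * (1 / τ4)) y :=
    ((hasDerivAt_id y).div_const τ4).exp
  refine (he.mul h).congr_deriv ?_
  ring

lemma Q_mono_neg (ha : 0 < a) (hb : 0 < b) (h3 : 0 < τ3) (h4 : 0 < τ4) :
    MonotoneOn (fun y => Real.exp (y / τ4) * FF τ4 τ3 (phi a b) y) (Iic 0) := by
  have hc : Continuous (fun y => Real.exp (y / τ4) * FF τ4 τ3 (phi a b) y) := by
    have := (FF_adm τ4 τ3 (phi_bc ha hb).adm).cont
    fun_prop
  refine monotoneOn_of_deriv_nonneg (convex_Iic 0) hc.continuousOn ?_ ?_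
  · intro y hy
    rw [interior_Iic] at hy
    exact (hasDerivAt_Q ha hb h3.ne' h4.ne' (hasDerivAt_phi_neg ha hb hy)).differentiableAt.differentiableWithinAt
  · intro y hy
    rw [interior_Iic] at hy
    rw [(hasDerivAt_Q ha hb h3.ne' h4.ne' (hasDerivAt_phi_neg ha hb hy)).deriv]
    have := f3_neg ha hb h3 hy
    positivity

lemma Q_anti_neg (ha : 0 < a) (hb : 0 < b) (h3 : 0 < τ3) (h4 : τ4 < 0) :
    AntitoneOn (fun y => Real.exp (y / τ4) * FF τ4 τ3 (phi a b) y) (Iic 0) := by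
  have hc : Continuous (fun y => Real.exp (y / τ4) * FF τ4 τ3 (phi a b) y) := by
    have := (FF_adm τ4 τ3 (phi_bc ha hb).adm).cont
    fun_prop
  refine antitoneOn_of_deriv_nonpos (convex_Iic 0) hc.continuousOn ?_ ?_
  · intro y hy
    rw [interior_Iic] at hy
    exact (hasDerivAt_Q ha hb h3.ne' h4.ne (hasDerivAt_phi_neg ha hb hy)).differentiableAt.differentiableWithinAt
  · intro y hy
    rw [interior_Iic] at hy
    rw [(hasDerivAt_Q ha hb h3.ne' h4.ne (hasDerivAt_phi_neg ha hb hy)).deriv]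
    have := f3_neg ha hb h3 hy
    exact mul_nonpos_of_nonneg_of_nonpos (Real.exp_pos _).le (div_nonpos_of_nonneg_of_nonpos this.le h4.le)

/-- mean value point for Q on the positive axis -/
lemma Q_mvt (ha : 0 < a) (hb : 0 < b) (h3 : τ3 ≠ 0) (h4 : τ4 ≠ 0) {s t : ℝ} (hs : 0 ≤ s) (hst : s < t) :
    ∃ x ∈ Ioo s t, Real.exp (x / τ4) * (f3 a b τ3 (-(phi a b x) / a) x / τ4)
      = (Real.exp (t / τ4) * FF τ4 τ3 (phi a b) t - Real.exp (s / τ4) * FF τ4 τ3 (phi a b) s) / (t - s) := by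
  have hc : Continuous (fun y => Real.exp (y / τ4) * FF τ4 τ3 (phi a b) y) := by
    have := (FF_adm τ4 τ3 (phi_bc ha hb).adm).cont
    fun_prop
  exact exists_hasDerivAt_eq_slope (fun y => Real.exp (y / τ4) * FF τ4 τ3 (phi a b) y)
    (fun x => Real.exp (x / τ4) * (f3 a b τ3 (-(phi a b x) / a) x / τ4)) hst hc.continuousOn
    (fun x hx => hasDerivAt_Q ha hb h3 h4 (hasDerivAt_phi_pos ha hb (by linarith [hx.1])))

lemma f3_sign (ha : 0 < a) (hb : 0 < b) (h3 : 0 < τ3) {s t : ℝ} (hs : 0 < s) (hst : s < t)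
    (h1 : 0 < f3 a b τ3 (-(phi a b s) / a) s) (h2 : f3 a b τ3 (-(phi a b t) / a) t < 0) : False := by
  have := f3_mono ha hb h3 (mem_Ioi.2 hs) (mem_Ioi.2 (hs.trans hst)) hst
  simp only at this
  have e1 : 0 < Real.exp (s / τ3) * f3 a b τ3 (-(phi a b s) / a) s := mul_pos (Real.exp_pos _) h1
  have e2 : Real.exp (t / τ3) * f3 a b τ3 (-(phi a b t) / a) t < 0 :=
    mul_neg_of_pos_of_neg (Real.exp_pos _) h2
  linarith

lemma Pat_base (ha : 0 < a) (hb : 0 < b) (h3 : 0 < τ3) (h4 : τ4 ≠ 0) :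
    Pat (FF τ4 τ3 (phi a b)) := by
  intro s t r hst htr hs ht hr
  obtain ⟨C, hC⟩ := FF_bdd τ4 τ3 (phi_bc ha hb)
  have hC0 : 0 ≤ C := (abs_nonneg _).trans (hC 0)
  rcases lt_or_gt_of_ne h4 with h4n | h4p
  · -- τ4 < 0
    have ht0 : 0 < t := by
      by_contra hcon
      push Not at hcon
      have := Q_anti_neg ha hb h3 h4n (mem_Iic.2 (hst.le.trans hcon)) (mem_Iic.2 hcon) hst.le
      simp only at this
      have e1 : Real.exp (s / τ4) * FF τ4 τ3 (phi a b) s < 0 := mul_neg_of_pos_of_neg (Real.exp_pos _) hs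
      have e2 : 0 < Real.exp (t / τ4) * FF τ4 τ3 (phi a b) t := mul_pos (Real.exp_pos _) ht
      linarith
    obtain ⟨x, hx, hxe⟩ := Q_mvt ha hb h3.ne' h4 ht0.le htr
    have e1 : 0 < Real.exp (t / τ4) * FF τ4 τ3 (phi a b) t := mul_pos (Real.exp_pos _) ht
    have e2 : Real.exp (r / τ4) * FF τ4 τ3 (phi a b) r < 0 := mul_neg_of_pos_of_neg (Real.exp_pos _) hr
    have e3 : Real.exp (x / τ4) * (f3 a b τ3 (-(phi a b x) / a) x / τ4) < 0 := by
      rw [hxe]; exact div_neg_of_neg_of_pos (by linarith) (by linarith)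
    have e4 : 0 < f3 a b τ3 (-(phi a b x) / a) x := by
      by_contra hcon
      push Not at hcon
      have : 0 ≤ f3 a b τ3 (-(phi a b x) / a) x / τ4 := div_nonneg_of_nonpos hcon h4n.le
      have := mul_nonneg (Real.exp_pos (x / τ4)).le this
      linarith
    -- far away point
    have htend : Tendsto (fun y => -(C * Real.exp (y / τ4))) atTop (𝓝 0) := by
      have h5 : Tendsto (fun y : ℝ => y / τ4) atTop atBot :=
        tendsto_id.atTop_div_const_of_neg h4n
      have h6 := (Real.tendsto_exp_atBot.comp h5).const_mul C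
      simpa using h6.neg
    have hev : ∀ᶠ y in atTop, Real.exp (r / τ4) * FF τ4 τ3 (phi a b) r < -(C * Real.exp (y / τ4)) :=
      htend.eventually (lt_mem_nhds e2)
    obtain ⟨M, hM1, hM2⟩ := (hev.and (eventually_gt_atTop r)).exists
    obtain ⟨x', hx', hxe'⟩ := Q_mvt (τ4 := τ4) ha hb h3.ne' h4 (ht0.le.trans htr.le) hM2
    have e5 : -(C * Real.exp (M / τ4)) ≤ Real.exp (M / τ4) * FF τ4 τ3 (phi a b) M := by
      have := neg_le_of_abs_le (hC M)
      nlinarith [Real.exp_pos (M / τ4)]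
    have e6 : 0 < Real.exp (x' / τ4) * (f3 a b τ3 (-(phi a b x') / a) x' / τ4) := by
      rw [hxe']; exact div_pos (by linarith) (by linarith)
    have e7 : f3 a b τ3 (-(phi a b x') / a) x' < 0 := by
      by_contra hcon
      push Not at hcon
      have : f3 a b τ3 (-(phi a b x') / a) x' / τ4 ≤ 0 := div_nonpos_of_nonneg_of_nonpos hcon h4n.le
      have := mul_nonpos_of_nonneg_of_nonpos (Real.exp_pos (x' / τ4)).le this
      linarith
    exact f3_sign ha hb h3 (ht0.trans hx.1) (hx.2.trans hx'.1) e4 e7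
  · -- τ4 > 0
    have e1 : Real.exp (s / τ4) * FF τ4 τ3 (phi a b) s < 0 := mul_neg_of_pos_of_neg (Real.exp_pos _) hs
    have hs0 : 0 < s := by
      by_contra hcon
      push Not at hcon
      have htend : Tendsto (fun y => -(C * Real.exp (y / τ4))) atBot (𝓝 0) := by
        have h5 : Tendsto (fun y : ℝ => y / τ4) atBot atBot :=
          tendsto_id.atBot_div_const h4p
        have h6 := (Real.tendsto_exp_atBot.comp h5).const_mul C
        simpa using h6.neg
      have hev : ∀ᶠ y in atBot, Real.exp (s / τ4) * FF τ4 τ3 (phi a b) s < -(C * Real.exp (y / τ4)) :=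
        htend.eventually (lt_mem_nhds e1)
      obtain ⟨M, hM1, hM2⟩ := (hev.and (eventually_lt_atBot s)).exists
      have := Q_mono_neg ha hb h3 h4p (mem_Iic.2 (hM2.le.trans hcon)) (mem_Iic.2 hcon) hM2.le
      simp only at this
      have e5 : -(C * Real.exp (M / τ4)) ≤ Real.exp (M / τ4) * FF τ4 τ3 (phi a b) M := by
        have := neg_le_of_abs_le (hC M)
        nlinarith [Real.exp_pos (M / τ4)]
      linarith
    have e2 : 0 < Real.exp (t / τ4) * FF τ4 τ3 (phi a b) t := mul_pos (Real.exp_pos _) ht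
    have e3 : Real.exp (r / τ4) * FF τ4 τ3 (phi a b) r < 0 := mul_neg_of_pos_of_neg (Real.exp_pos _) hr
    obtain ⟨x, hx, hxe⟩ := Q_mvt (τ4 := τ4) ha hb h3.ne' h4 hs0.le hst
    obtain ⟨x', hx', hxe'⟩ := Q_mvt (τ4 := τ4) ha hb h3.ne' h4 (hs0.le.trans hst.le) htr
    have e4 : 0 < Real.exp (x / τ4) * (f3 a b τ3 (-(phi a b x) / a) x / τ4) := by
      rw [hxe]; exact div_pos (by linarith) (by linarith)
    have e5 : Real.exp (x' / τ4) * (f3 a b τ3 (-(phi a b x') / a) x' / τ4) < 0 := by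
      rw [hxe']; exact div_neg_of_neg_of_pos (by linarith) (by linarith)
    have e6 : 0 < f3 a b τ3 (-(phi a b x) / a) x := by
      by_contra hcon
      push Not at hcon
      have : f3 a b τ3 (-(phi a b x) / a) x / τ4 ≤ 0 := div_nonpos_of_nonpos_of_nonneg hcon h4p.le
      have := mul_nonpos_of_nonneg_of_nonpos (Real.exp_pos (x / τ4)).le this
      linarith
    have e7 : f3 a b τ3 (-(phi a b x') / a) x' < 0 := by
      by_contra hcon
      push Not at hcon
      have : 0 ≤ f3 a b τ3 (-(phi a b x') / a) x' / τ4 := div_nonneg hcon h4p.le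
      have := mul_nonneg (Real.exp_pos (x' / τ4)).le this
      linarith
    exact f3_sign ha hb h3 (hs0.trans hx.1) (hx.2.trans hx'.1) e6 e7

lemma NZ_base (ha : 0 < a) (hb : 0 < b) (h3 : 0 < τ3) (h4 : τ4 ≠ 0) :
    NZ (FF τ4 τ3 (phi a b)) := by
  constructor
  · by_contra hcon
    push Not at hcon
    have hy : (-1:ℝ) < 0 := by norm_num
    have h := hasDerivAt_FF_base ha hb h3.ne' h4 (hasDerivAt_phi_neg ha hb hy)
    have h2 : HasDerivAt (FF τ4 τ3 (phi a b)) 0 (-1) := by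
      refine (hasDerivAt_const (-1:ℝ) (0:ℝ)).congr_of_eventuallyEq ?_
      filter_upwards [gt_mem_nhds hy] with z hz
      exact hcon z hz
    have h5 := h.unique h2
    rw [hcon _ hy, sub_zero, div_eq_zero_iff] at h5
    rcases h5 with h5 | h5
    · exact absurd h5 (f3_neg ha hb h3 hy).ne'
    · exact h4 h5
  · by_contra hcon
    push Not at hcon
    have key : ∀ y : ℝ, 0 < y → f3 a b τ3 (-(phi a b y) / a) y = 0 := by
      intro y hy
      have h := hasDerivAt_FF_base ha hb h3.ne' h4 (hasDerivAt_phi_pos ha hb hy)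
      have h2 : HasDerivAt (FF τ4 τ3 (phi a b)) 0 y := by
        refine (hasDerivAt_const y (0:ℝ)).congr_of_eventuallyEq ?_
        filter_upwards [lt_mem_nhds hy] with z hz
        exact hcon z hz
      have h5 := h.unique h2
      rw [hcon _ hy, sub_zero, div_eq_zero_iff] at h5
      rcases h5 with h5 | h5
      · exact h5
      · exact absurd h5 h4
    have := f3_mono ha hb h3 (mem_Ioi.2 one_pos) (mem_Ioi.2 two_pos) one_lt_two
    simp only [key 1 one_pos, key 2 two_pos, mul_zero, lt_irrefl] at this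

end base

end Pool.Agent.Work.MP_1c7b0d_gt
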