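import Pool.Agent.Work.MP_1c7b0d_gt.Base2

open MeasureTheory Set Filter Topology

namespace Pool.Agent.Work.MP_1c7b0d_gt

lemma T_zero_eq {f : ℝ → ℝ} {σ : ℝ} (hσ : 0 < σ) :
    T σ f 0 = σ⁻¹ * ∫ s in Ioi (0:ℝ), Real.exp (-(s / σ)) * f (-s) := by
  have h := integral_comp_mul_left_Ioi (fun s => Real.exp (-(s / σ)) * f (-s)) 0 hσ
  rw [mul_zero, smul_eq_mul] at h
  rw [← h]
  unfold T
  refine integral_congr_ae (ae_of_all _ (fun x => ?_))
  simp only
  rw [mul_div_cancel_left₀ _ hσ.ne', zero_sub]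

lemma integrableOn_exp_div {f : ℝ → ℝ} (hf : Adm f) {σ : ℝ} (hσ : 0 < σ) :
    IntegrableOn (fun s => Real.exp (-(s / σ)) * f (-s)) (Ioi 0) := by
  have h := hf.integrableOn σ 0
  have h2 := (integrableOn_Ioi_comp_mul_left_iff (fun s => Real.exp (-(s / σ)) * f (-s)) 0 hσ).1
  rw [mul_zero] at h2
  apply h2
  refine h.congr_fun (fun x _ => ?_) measurableSet_Ioi
  simp only
  rw [mul_div_cancel_left₀ _ hσ.ne', zero_sub]

lemma exists_pos_neg {f : ℝ → ℝ} (hf : Adm f) {σ : ℝ} (hσ : 0 < σ) (h0 : T σ f 0 = 0)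
    (hn : ∃ y, y < 0 ∧ f y ≠ 0) : (∃ y, y < 0 ∧ f y < 0) ∧ (∃ y, y < 0 ∧ 0 < f y) := by
  have hc := hf.cont
  have key : ∀ F : ℝ → ℝ, Continuous F → (∀ s ∈ Ioi (0:ℝ), 0 ≤ F s) → IntegrableOn F (Ioi 0) →
      ∫ s in Ioi (0:ℝ), F s = 0 → ∀ s ∈ Ioi (0:ℝ), F s = 0 := by
    intro F hF hnn hint hz
    have h1 := (setIntegral_eq_zero_iff_of_nonneg_ae
      ((ae_restrict_iff' measurableSet_Ioi).2 (ae_of_all _ hnn)) hint).1 hz
    exact Measure.eqOn_open_of_ae_eq h1 isOpen_Ioi hF.continuousOn continuousOn_const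
  rw [T_zero_eq hσ] at h0
  have h0' : ∫ s in Ioi (0:ℝ), Real.exp (-(s / σ)) * f (-s) = 0 := by
    rcases mul_eq_zero.1 h0 with h | h
    · exact absurd h (inv_ne_zero hσ.ne')
    · exact h
  obtain ⟨y, hy, hfy⟩ := hn
  have hint := integrableOn_exp_div hf hσ
  constructor
  · by_contra hcon
    push Not at hcon
    have := key (fun s => Real.exp (-(s / σ)) * f (-s)) (by fun_prop)
      (fun s hs => mul_nonneg (Real.exp_pos _).le (hcon _ (by simpa using hs))) hint h0' (-y) (by simpa using hy)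
    simp only [neg_neg, mul_eq_zero] at this
    rcases this with h | h
    · exact (Real.exp_pos _).ne' h
    · exact hfy h
  · by_contra hcon
    push Not at hcon
    have := key (fun s => -(Real.exp (-(s / σ)) * f (-s))) (by fun_prop)
      (fun s hs => neg_nonneg.2 (mul_nonpos_of_nonneg_of_nonpos (Real.exp_pos _).le (hcon _ (by simpa using hs))))
      hint.neg (by rw [integral_neg, h0', neg_zero]) (-y) (by simpa using hy)
    simp only [neg_neg, neg_eq_zero, mul_eq_zero] at this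
    rcases this with h | h
    · exact (Real.exp_pos _).ne' h
    · exact hfy h

lemma uniq_aux {f : ℝ → ℝ} (hf : Adm f) (hp : Pat f) (hn : ∃ y, y < 0 ∧ f y ≠ 0)
    (hr : ∃ y, 0 < y ∧ f y < 0) {σ1 σ2 : ℝ} (h1 : 0 < σ1) (h12 : σ1 < σ2)
    (hT1 : T σ1 f 0 = 0) (hT2 : T σ2 f 0 = 0) : False := by
  have h2 : 0 < σ2 := h1.trans h12
  have hc := hf.cont
  obtain ⟨y4, hy4, hf4⟩ := hr
  obtain ⟨⟨ym, hym, hfm⟩, ⟨yp, hyp, hfp⟩⟩ := exists_pos_neg hf h1 hT1 hn
  set A : Set ℝ := {s | 0 < s ∧ 0 < f (-s)} with hA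
  have hAne : A.Nonempty := ⟨-yp, by simp only [hA, mem_ofPred_eq, neg_neg]; exact ⟨by linarith, hfp⟩⟩
  have hAbdd : BddBelow A := ⟨0, fun s hs => hs.1.le⟩
  set s0 := sInf A with hs0
  have hs0nn : 0 ≤ s0 := le_csInf hAne (fun s hs => hs.1.le)
  have hlow : ∀ s, 0 < s → s < s0 → f (-s) ≤ 0 := by
    intro s hs hss
    by_contra hcon
    push Not at hcon
    have := csInf_le hAbdd (show s ∈ A from ⟨hs, hcon⟩)
    linarith
  have hhigh : ∀ s, s0 < s → 0 ≤ f (-s) := by
    intro s hss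
    by_contra hcon
    push Not at hcon
    obtain ⟨s', hs', hs's⟩ := exists_lt_of_csInf_lt hAne hss
    exact hp (-s) (-s') y4 (by linarith) (by linarith [hs'.1]) hcon hs'.2 hf4
  -- the two integrals
  have hI1 : ∫ s in Ioi (0:ℝ), Real.exp (-(s / σ1)) * f (-s) = 0 := by
    rw [T_zero_eq h1] at hT1
    rcases mul_eq_zero.1 hT1 with h | h
    · exact absurd h (inv_ne_zero h1.ne')
    · exact h
  have hI2 : ∫ s in Ioi (0:ℝ), Real.exp (-(s / σ2)) * f (-s) = 0 := by
    rw [T_zero_eq h2] at hT2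
    rcases mul_eq_zero.1 hT2 with h | h
    · exact absurd h (inv_ne_zero h2.ne')
    · exact h
  set κ := 1 / σ1 - 1 / σ2 with hκ
  have hκpos : 0 < κ := by
    rw [hκ]
    have := one_div_lt_one_div_of_lt h1 h12
    linarith
  have hint1 := integrableOn_exp_div hf h1
  have hint2 := integrableOn_exp_div hf h2
  set F : ℝ → ℝ := fun s => Real.exp (-(s / σ2)) * f (-s) - Real.exp (κ * s0) * (Real.exp (-(s / σ1)) * f (-s)) with hF
  have hFint : IntegrableOn F (Ioi 0) := hint2.sub (hint1.const_mul _)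
  have hFz : ∫ s in Ioi (0:ℝ), F s = 0 := by
    rw [hF, integral_sub hint2 (hint1.const_mul _), integral_const_mul, hI1, hI2]
    simp
  have hFeq : ∀ s, F s = Real.exp (-(s / σ1)) * ((Real.exp (κ * s) - Real.exp (κ * s0)) * f (-s)) := by
    intro s
    have : Real.exp (-(s / σ2)) = Real.exp (-(s / σ1)) * Real.exp (κ * s) := by
      rw [← Real.exp_add]
      congr 1
      rw [hκ]
      ring
    simp only [hF]
    rw [this]
    ring
  have hFnn : ∀ s ∈ Ioi (0:ℝ), 0 ≤ F s := by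
    intro s hs
    rw [hFeq]
    refine mul_nonneg (Real.exp_pos _).le ?_
    rcases lt_trichotomy s s0 with h | h | h
    · refine mul_nonneg_of_nonpos_of_nonpos ?_ (hlow s hs h)
      have : Real.exp (κ * s) ≤ Real.exp (κ * s0) := Real.exp_le_exp.2 (by nlinarith)
      linarith
    · rw [h]; simp
    · refine mul_nonneg ?_ (hhigh s h)
      have : Real.exp (κ * s0) ≤ Real.exp (κ * s) := Real.exp_le_exp.2 (by nlinarith)
      linarith
  have hFc : Continuous F := by rw [hF]; fun_prop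
  have hF0 : ∀ s ∈ Ioi (0:ℝ), F s = 0 := by
    have h5 := (setIntegral_eq_zero_iff_of_nonneg_ae
      ((ae_restrict_iff' measurableSet_Ioi).2 (ae_of_all _ hFnn)) hFint).1 hFz
    exact Measure.eqOn_open_of_ae_eq h5 isOpen_Ioi hFc.continuousOn continuousOn_const
  have hs0f : ∀ s, 0 < s → s ≠ s0 → f (-s) = 0 := by
    intro s hs hne
    have h5 := hF0 s hs
    rw [hFeq, mul_eq_zero, mul_eq_zero] at h5
    rcases h5 with h | h | h
    · exact absurd h (Real.exp_pos _).ne'
    · exfalso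
      apply hne
      have := Real.exp_injective (sub_eq_zero.1 h)
      exact mul_left_cancel₀ hκpos.ne' this
    · exact h
  -- contradiction from fm and fp
  have e1 : -ym = s0 := by
    by_contra hne
    have := hs0f (-ym) (by linarith) hne
    rw [neg_neg] at this
    linarith
  have e2 : -yp = s0 := by
    by_contra hne
    have := hs0f (-yp) (by linarith) hne
    rw [neg_neg] at this
    linarith
  have : ym = yp := by linarith
  rw [this] at hfm
  linarith

lemma Pat.reflect {f : ℝ → ℝ} (hp : Pat f) : Pat (fun y => f (-y)) := by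
  intro s t r hst htr hs ht hr
  exact hp (-r) (-t) (-s) (by linarith) (by linarith) hr ht hs

lemma Adm.reflect {f : ℝ → ℝ} (hf : Adm f) : Adm (fun y => f (-y)) := by
  obtain ⟨C, hC, hb⟩ := hf.bound
  exact ⟨hf.cont.comp continuous_neg, C, hC, fun y => by simpa using hb (-y)⟩

lemma T_zero_reflect (f : ℝ → ℝ) (τ : ℝ) : T τ (fun y => f (-y)) 0 = T (-τ) f 0 := by
  rw [T_neg_reflect, neg_zero]

/-- Uniqueness of the positive and of the negative parameters. -/
lemma uniq {f : ℝ → ℝ} (hf : Adm f) (hp : Pat f) (hn : NZ f) {a b : ℝ} (ha : 0 < a) (hb : 0 < b)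
    (hTa : T a f 0 = 0) (hTb : T (-b) f 0 = 0) {σ : ℝ} (hσ : T σ f 0 = 0) :
    (0 < σ → σ = a) ∧ (σ < 0 → σ = -b) := by
  have hfr := hf.reflect
  have hTbr : T b (fun y => f (-y)) 0 = 0 := by rw [T_zero_reflect]; exact hTb
  have hneg : ∃ y, 0 < y ∧ f y < 0 := by
    obtain ⟨y, hy, hy0⟩ := hn.2
    obtain ⟨⟨z, hz, hz0⟩, _⟩ := exists_pos_neg hfr hb hTbr ⟨-y, by linarith, by simpa using hy0⟩
    exact ⟨-z, by linarith, hz0⟩
  have hneg' : ∃ y, y < 0 ∧ f y < 0 := (exists_pos_neg hf ha hTa hn.1).1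
  constructor
  · intro h
    rcases lt_trichotomy σ a with h1 | h1 | h1
    · exact (uniq_aux hf hp hn.1 hneg h h1 hσ hTa).elim
    · exact h1
    · exact (uniq_aux hf hp hn.1 hneg ha h1 hTa hσ).elim
  · intro h
    have hσr : T (-σ) (fun y => f (-y)) 0 = 0 := by rw [T_zero_reflect, neg_neg]; exact hσ
    have hnr : ∃ y, y < 0 ∧ (fun y => f (-y)) y ≠ 0 := by
      obtain ⟨y, hy, hy0⟩ := hn.2
      exact ⟨-y, by linarith, by simpa using hy0⟩
    have hnegr : ∃ y, 0 < y ∧ (fun y => f (-y)) y < 0 := by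
      obtain ⟨y, hy, hy0⟩ := hneg'
      exact ⟨-y, by linarith, by simpa using hy0⟩
    rcases lt_trichotomy (-σ) b with h1 | h1 | h1
    · exact (uniq_aux hfr hp.reflect hnr hnegr (by linarith) h1 hσr hTbr).elim
    · linarith
    · exact (uniq_aux hfr hp.reflect hnr hnegr hb h1 hTbr hσr).elim

lemma FF_gL_pat {a b τ3 τ4 : ℝ} (ha : 0 < a) (hb : 0 < b) (h3 : 0 < τ3) (h4 : τ4 ≠ 0)
    (L : List ℝ) (hL : ∀ x ∈ L, x ≠ 0) :
    Adm (FF τ4 τ3 (gL a b L)) ∧ Pat (FF τ4 τ3 (gL a b L)) ∧ NZ (FF τ4 τ3 (gL a b L)) := by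
  induction L with
  | nil => exact ⟨FF_adm _ _ (phi_bc ha hb).adm, Pat_base ha hb h3 h4, NZ_base ha hb h3 h4⟩
  | cons τ L ih =>
    obtain ⟨i1, i2, i3⟩ := ih (fun x hx => hL x (List.mem_cons_of_mem _ hx))
    have hτ := hL τ List.mem_cons_self
    simp only [gL]
    rw [FF_T _ _ _ (gL_bc ha hb L).adm]
    exact ⟨i1.T τ, i2.T i1 hτ, i3.T i1 hτ⟩

/-- criticality hypothesis -/
def Crit (a b : ℝ) (L : List ℝ) : Prop :=
  ∀ σ ∈ (a :: -b :: L), T σ (gL a b L) 0 = gL a b L 0 / (1 + σ ^ 2)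

lemma Crit.perm {a b : ℝ} (ha : 0 < a) (hb : 0 < b) {L L' : List ℝ} (h : L.Perm L')
    (hc : Crit a b L) : Crit a b L' := by
  intro σ hσ
  rw [← gL_perm ha hb h]
  apply hc
  simp only [List.mem_cons] at hσ ⊢
  rcases hσ with h1 | h1 | h1
  · exact Or.inl h1
  · exact Or.inr (Or.inl h1)
  · exact Or.inr (Or.inr (h.mem_iff.2 h1))

lemma Crit.neg {a b : ℝ} {L : List ℝ} (hc : Crit a b L) : Crit b a (L.map (fun x => -x)) := by
  intro σ hσ
  have h0 : gL b a (L.map (fun x => -x)) 0 = gL a b L 0 := by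
    rw [← gL_neg, neg_zero]
  have h1 : T σ (gL b a (L.map (fun x => -x))) 0 = T (-σ) (gL a b L) 0 := by
    rw [← T_zero_reflect]
    congr 1
    funext y
    rw [gL_neg]
  rw [h0, h1]
  have : 1 + σ ^ 2 = 1 + (-σ) ^ 2 := by ring
  rw [this]
  apply hc
  simp only [List.mem_cons, List.mem_map] at hσ ⊢
  rcases hσ with h1 | h1 | ⟨x, hx, h1⟩
  · exact Or.inr (Or.inl (by rw [h1]))
  · exact Or.inl (by rw [h1, neg_neg])
  · exact Or.inr (Or.inr (by rw [← h1, neg_neg]; exact hx))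

lemma class_pos {a b : ℝ} (ha : 0 < a) (hb : 0 < b) {L : List ℝ} (hL : ∀ x ∈ L, x ≠ 0)
    (hlen : 2 ≤ L.length) (hc : Crit a b L) (hpos : ∃ x ∈ L, 0 < x) :
    ∀ σ ∈ (a :: -b :: L), (0 < σ → σ = a) ∧ (σ < 0 → σ = -b) := by
  obtain ⟨τ3, h3m, h3⟩ := hpos
  -- reorder
  obtain ⟨τ4, L'', hperm⟩ : ∃ τ4 L'', L.Perm (τ4 :: τ3 :: L'') := by
    have h1 := List.perm_cons_erase h3m
    have h2 : (L.erase τ3).length = L.length - 1 := List.length_erase_of_mem h3m
    obtain ⟨τ4, L'', h5⟩ := List.exists_cons_of_length_pos (l := L.erase τ3) (by omega)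
    refine ⟨τ4, L'', ?_⟩
    rw [h5] at h1
    exact h1.trans (List.Perm.swap _ _ _)
  have hL2 : ∀ x ∈ (τ4 :: τ3 :: L''), x ≠ 0 := fun x hx => hL x (hperm.mem_iff.2 hx)
  have h4 : τ4 ≠ 0 := hL2 τ4 List.mem_cons_self
  have hL'' : ∀ x ∈ L'', x ≠ 0 := fun x hx => hL2 x (by simp [hx])
  have hc2 : Crit a b (τ4 :: τ3 :: L'') := hc.perm ha hb hperm
  obtain ⟨i1, i2, i3⟩ := FF_gL_pat ha hb h3 h4 L'' hL''
  have hz : T τ3 (gL a b L'') 0 = T τ4 (T τ3 (gL a b L'')) 0 :=
    S3_zero ha hb (τ3 :: L'') h4 (fun x hx => hL2 x (List.mem_cons_of_mem _ hx)) hc2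
  have hall : ∀ σ ∈ (a :: -b :: (τ4 :: τ3 :: L'')), T σ (FF τ4 τ3 (gL a b L'')) 0 = 0 := by
    intro σ hσ
    have hσ0 : σ ≠ 0 := by
      rw [List.mem_cons, List.mem_cons] at hσ
      rcases hσ with h | h | h
      · rw [h]; exact ha.ne'
      · rw [h]; exact (neg_neg_of_pos hb).ne
      · exact hL2 σ h
    exact T_FF_zero h4 h3.ne' hσ0 (gL_bc ha hb L'').adm hz (hc2 σ hσ)
  intro σ hσ
  have hσ' : σ ∈ (a :: -b :: (τ4 :: τ3 :: L'')) := by
    rw [List.mem_cons, List.mem_cons] at hσ ⊢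
    rcases hσ with h | h | h
    · exact Or.inl h
    · exact Or.inr (Or.inl h)
    · exact Or.inr (Or.inr (hperm.mem_iff.1 h))
  exact uniq i1 i2 i3 ha hb (hall a (by simp)) (hall (-b) (by simp)) (hall σ hσ')

/-- Classification of the critical parameters. -/
theorem classification {a b : ℝ} (ha : 0 < a) (hb : 0 < b) {L : List ℝ} (hL : ∀ x ∈ L, x ≠ 0)
    (hc : Crit a b L) :
    L = [] ∨ (2 ≤ L.length ∧ ∀ σ ∈ (a :: -b :: L), (0 < σ → σ = a) ∧ (σ < 0 → σ = -b)) := by
  rcases Nat.lt_or_ge L.length 2 with h | h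
  · left
    rcases L with _ | ⟨τ, _ | ⟨τ', L'⟩⟩
    · rfl
    · exfalso
      have h1 := S3_zero ha hb [] (hL τ (by simp)) (by simp) hc
      have h2 : T τ (phi a b) 0 < phi a b 0 := by
        have h3 : phi a b 0 = ∫ x in Ioi (0:ℝ), Real.exp (-x) * phi a b 0 := by
          rw [integral_mul_const, integral_exp_neg, one_mul]
        have hτ := hL τ (by simp)
        rw [h3]
        unfold T
        rw [← sub_pos, ← integral_sub (integrableOn_exp_neg.mul_const _) ((phi_bc ha hb).adm.integrableOn τ 0),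
          setIntegral_pos_iff_support_of_nonneg_ae]
        · have h4 : Ioi (0:ℝ) ⊆ Function.support (fun x => Real.exp (-x) * phi a b 0 - Real.exp (-x) * phi a b (0 - τ * x)) := by
            intro x hx
            rw [Function.mem_support, ← mul_sub]
            have : phi a b (0 - τ * x) < phi a b 0 := by
              rw [phi_zero]
              exact phi_lt ha hb (by simp only [zero_sub, ne_eq, neg_eq_zero, mul_eq_zero, not_or]; exact ⟨hτ, (mem_Ioi.1 hx).ne'⟩)
            exact (mul_pos (Real.exp_pos _) (by linarith)).ne'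
          rw [inter_eq_self_of_subset_right h4]
          simp
        · refine ae_of_all _ (fun x => ?_)
          simp only [Pi.zero_apply]
          rw [← mul_sub]
          have := phi_le ha hb (0 - τ * x)
          rw [← phi_zero] at this
          exact mul_nonneg (Real.exp_pos _).le (by linarith)
        · exact (integrableOn_exp_neg.mul_const _).sub ((phi_bc ha hb).adm.integrableOn τ 0)
      have h3 : phi a b 0 = T τ (phi a b) 0 := h1
      linarith
    · simp only [List.length_cons] at h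
      omega
  · right
    refine ⟨h, ?_⟩
    by_cases hpos : ∃ x ∈ L, 0 < x
    · exact class_pos ha hb hL h hc hpos
    · -- all negative
      push Not at hpos
      have hL' : ∀ x ∈ L.map (fun x => -x), x ≠ 0 := by
        intro x hx
        obtain ⟨y, hy, rfl⟩ := List.mem_map.1 hx
        exact neg_ne_zero.2 (hL y hy)
      have hpos' : ∃ x ∈ L.map (fun x => -x), 0 < x := by
        obtain ⟨y, L'', h5⟩ := List.exists_cons_of_length_pos (l := L) (by omega)
        have hy : y ∈ L := by rw [h5]; simp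
        exact ⟨-y, List.mem_map.2 ⟨y, hy, rfl⟩, by
          have h6 := hpos y hy
          have h7 := hL y hy
          rcases lt_or_eq_of_le h6 with h8 | h8
          · linarith
          · exact absurd h8 h7⟩
      have hcl := class_pos hb ha hL' (by simpa using h) hc.neg hpos'
      intro σ hσ
      have hσ' : -σ ∈ (b :: -a :: L.map (fun x => -x)) := by
        rw [List.mem_cons, List.mem_cons] at hσ ⊢
        rcases hσ with h | h | h
        · right; left; rw [h]
        · left; rw [h, neg_neg]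
        · right; right; exact List.mem_map.2 ⟨σ, h, rfl⟩
      obtain ⟨c1, c2⟩ := hcl (-σ) hσ'
      constructor
      · intro h5
        have := c2 (by linarith)
        linarith
      · intro h5
        have := c1 (by linarith)
        linarith

end Pool.Agent.Work.MP_1c7b0d_gt
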