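import Pool.Agent.Work.MP_1c7b0d_gt.Classify

open MeasureTheory Set Filter Topology

namespace Pool.Agent.Work.MP_1c7b0d_gt

/-- the list with `k` copies of `a` and `j` copies of `-b` -/
noncomputable def KJ (a b : ℝ) (k j : ℕ) : List ℝ := List.replicate k a ++ List.replicate j (-b)

lemma KJ_rec {a b : ℝ} (ha : 0 < a) (hb : 0 < b) (k j : ℕ) :
    T a (gL a b (KJ a b k j)) 0 = ((k + j + 1 : ℝ) / (k + 1)) * (b / (a + b)) * gL a b (KJ a b k j) 0 ∧
    T (-b) (gL a b (KJ a b k j)) 0 = ((k + j + 1 : ℝ) / (j + 1)) * (a / (a + b)) * gL a b (KJ a b k j) 0 := by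
  have h1 := S_gL_zero ha hb (KJ a b k j)
  have h2 := S2_zero ha hb (KJ a b k j)
  simp only [S, KJ, List.map_cons, List.map_append, List.map_replicate, List.sum_cons,
    List.sum_append, List.sum_replicate, nsmul_eq_mul] at h1 h2
  change _ * T a (gL a b (KJ a b k j)) 0 + (_ * T (-b) (gL a b (KJ a b k j)) 0 +
    (_ * (_ * T a (gL a b (KJ a b k j)) 0) + _ * (_ * T (-b) (gL a b (KJ a b k j)) 0))) = 0 at h1
  change gL a b (KJ a b k j) 0 = (gL a b (KJ a b k j) 0 - T a (gL a b (KJ a b k j)) 0) +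
    ((gL a b (KJ a b k j) 0 - T (-b) (gL a b (KJ a b k j)) 0) +
    (_ * (gL a b (KJ a b k j) 0 - T a (gL a b (KJ a b k j)) 0) +
    _ * (gL a b (KJ a b k j) 0 - T (-b) (gL a b (KJ a b k j)) 0))) at h2
  set G := gL a b (KJ a b k j) 0
  set A := T a (gL a b (KJ a b k j)) 0
  set B := T (-b) (gL a b (KJ a b k j)) 0
  have hk : (0:ℝ) < k + 1 := by positivity
  have hj : (0:ℝ) < j + 1 := by positivity
  have hab : 0 < a + b := by positivity
  have e1 : (k + 1) * (a * A) = (j + 1) * (b * B) := by linarith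
  have e2 : (k + 1) * A + (j + 1) * B = (k + j + 1) * G := by linarith
  constructor
  · have : (k + 1) * A * (a + b) = (k + j + 1) * G * b := by
      linear_combination e1 + b * e2
    field_simp
    linarith
  · have : (j + 1) * B * (a + b) = (k + j + 1) * G * a := by
      linear_combination -e1 + a * e2
    field_simp
    linarith

lemma KJ_value {a b : ℝ} (ha : 0 < a) (hb : 0 < b) (k j : ℕ) :
    gL a b (KJ a b k j) 0 = ((k + j).choose k : ℝ) * b ^ k * a ^ j / (a + b) ^ (k + j + 1) := by
  have hab : 0 < a + b := by positivity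
  induction k with
  | zero =>
    induction j with
    | zero => simp [KJ, gL, phi_zero]
    | succ j ih =>
      have hr := (KJ_rec ha hb 0 j).2
      have e : KJ a b 0 (j + 1) = -b :: KJ a b 0 j := by simp [KJ, List.replicate_succ]
      rw [e]
      simp only [gL]
      rw [hr, ih]
      simp only [zero_add, Nat.choose_zero_right, Nat.cast_one, Nat.cast_zero, pow_zero]
      have hj : (0:ℝ) < j + 1 := by positivity
      field_simp
      ring
  | succ k ih =>
    have hr := (KJ_rec ha hb k j).1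
    have e : KJ a b (k + 1) j = a :: KJ a b k j := by simp [KJ, List.replicate_succ]
    rw [e]
    simp only [gL]
    rw [hr, ih]
    have hk : (0:ℝ) < k + 1 := by positivity
    have hch : ((k + 1 + j).choose (k + 1) : ℝ) * (k + 1) = (k + j + 1) * ((k + j).choose k : ℝ) := by
      have h := Nat.add_one_mul_choose_eq (k + j) k
      have h2 : (k + j + 1).choose (k + 1) = (k + 1 + j).choose (k + 1) := by
        congr 1; ring
      rw [h2] at h
      have h3 : (((k + j + 1) * (k + j).choose k : ℕ) : ℝ) = (((k + 1 + j).choose (k + 1) * (k + 1) : ℕ) : ℝ) := by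
        rw [← h]
      push_cast at h3
      linarith
    have e1 : k + 1 + j + 1 = (k + j + 1) + 1 := by ring
    rw [e1, pow_succ, pow_succ]
    field_simp
    linear_combination (-(a + b) ^ (k + j + 2)) * hch

/-- square of the volume of the regular `k`-simplex of inradius one -/
noncomputable def vsq (k : ℕ) : ℝ := (k:ℝ) ^ k * ((k:ℝ) + 1) ^ (k + 1) / (k.factorial : ℝ) ^ 2

lemma vsq_pos (k : ℕ) : 0 < vsq k := by
  unfold vsq
  have h1 : 0 < (k:ℝ) ^ k := by
    rcases Nat.eq_zero_or_pos k with h | h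
    · subst h; simp
    · have : (0:ℝ) < k := Nat.cast_pos.2 h
      positivity
  have h2 : (0:ℝ) < k.factorial := Nat.cast_pos.2 (Nat.factorial_pos k)
  positivity

/-- algebraic evaluation -/
lemma N_value {a b : ℝ} (ha : 0 < a) (hb : 0 < b) {k j : ℕ} (hk : 1 ≤ k) (hj : 1 ≤ j)
    (h1 : (j:ℝ) * b = k * a) (h2 : ((k:ℝ) + j + 1) * (a * b) = 1) :
    (gL a b (KJ a b k j) 0) ^ 2 * ((1 + a ^ 2) ^ (k + 1) * (1 + b ^ 2) ^ (j + 1))
      = vsq k * vsq j / vsq (k + j) := by
  have hkp : (0:ℝ) < k := Nat.cast_pos.2 hk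
  have hjp : (0:ℝ) < j := Nat.cast_pos.2 hj
  have hbe : b = k * a / j := by field_simp; linarith
  have ha2 : a ^ 2 = j / (k * (k + j + 1)) := by
    rw [hbe] at h2
    field_simp at h2 ⊢
    linarith
  have hb2 : b ^ 2 = k / (j * (k + j + 1)) := by
    rw [hbe, div_pow, mul_pow, ha2]
    field_simp
  have hab2 : (a + b) ^ 2 = (k + j) ^ 2 / (k * j * (k + j + 1)) := by
    have : a * b = 1 / (k + j + 1) := by
      field_simp
      linarith
    have e : (a + b) ^ 2 = a ^ 2 + 2 * (a * b) + b ^ 2 := by ring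
    rw [e, ha2, hb2, this]
    field_simp
    ring
  rw [KJ_value ha hb]
  have e1 : (((k + j).choose k : ℝ) * b ^ k * a ^ j / (a + b) ^ (k + j + 1)) ^ 2
      = ((k + j).choose k : ℝ) ^ 2 * (b ^ 2) ^ k * (a ^ 2) ^ j / ((a + b) ^ 2) ^ (k + j + 1) := by
    rw [div_pow, mul_pow, mul_pow, ← pow_mul, ← pow_mul, ← pow_mul, ← pow_mul, ← pow_mul, ← pow_mul,
      mul_comm k 2, mul_comm j 2, mul_comm (k + j + 1) 2]
  rw [e1, ha2, hb2, hab2]
  have hch : ((k + j).choose k : ℝ) = ((k + j).factorial : ℝ) / (k.factorial * j.factorial) := by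
    have h := Nat.add_choose_mul_factorial_mul_factorial k j
    rw [← Nat.choose_symm_add] at h
    have h3 : (((k + j).choose k * k.factorial * j.factorial : ℕ) : ℝ) = ((k + j).factorial : ℝ) := by
      rw [← h]
    push_cast at h3
    have h4 : (0:ℝ) < k.factorial := Nat.cast_pos.2 (Nat.factorial_pos k)
    have h5 : (0:ℝ) < j.factorial := Nat.cast_pos.2 (Nat.factorial_pos j)
    field_simp
    linarith
  have e2 : 1 + (j:ℝ) / (k * (k + j + 1)) = (k + j) * (k + 1) / (k * (k + j + 1)) := by
    field_simp; ring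
  have e3 : 1 + (k:ℝ) / (j * (k + j + 1)) = (k + j) * (j + 1) / (j * (k + j + 1)) := by
    field_simp; ring
  rw [hch, e2, e3]
  unfold vsq
  push_cast
  have h4 : (0:ℝ) < k.factorial := Nat.cast_pos.2 (Nat.factorial_pos k)
  have h5 : (0:ℝ) < j.factorial := Nat.cast_pos.2 (Nat.factorial_pos j)
  have h6 : (0:ℝ) < (k + j).factorial := Nat.cast_pos.2 (Nat.factorial_pos _)
  have h7 : (0:ℝ) < (k:ℝ) + j + 1 := by positivity
  have h8 : (0:ℝ) < (k:ℝ) + j := by positivity
  generalize (k:ℝ) + j = M at *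
  simp only [div_pow, mul_pow, pow_add, pow_one]
  field_simp
  ring

lemma exists_KJ {a b : ℝ} (L : List ℝ) (h : ∀ σ ∈ L, σ = a ∨ σ = -b) :
    ∃ k j, k + j = L.length ∧ L.Perm (KJ a b k j) := by
  induction L with
  | nil => exact ⟨0, 0, rfl, by simp [KJ]⟩
  | cons x L ih =>
    obtain ⟨k, j, hkj, hp⟩ := ih (fun σ hσ => h σ (List.mem_cons_of_mem _ hσ))
    rcases h x List.mem_cons_self with hx | hx
    · refine ⟨k + 1, j, by simp only [List.length_cons]; omega, ?_⟩
      have e : KJ a b (k + 1) j = a :: KJ a b k j := by simp [KJ, List.replicate_succ]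
      rw [e, hx]
      exact hp.cons _
    · refine ⟨k, j + 1, by simp only [List.length_cons]; omega, ?_⟩
      have e : (KJ a b k (j + 1)).Perm (-b :: KJ a b k j) := by
        simp only [KJ, List.replicate_succ]
        exact List.perm_middle
      rw [hx]
      exact (hp.cons _).trans e.symm

lemma Crit_KJ {a b : ℝ} (ha : 0 < a) (hb : 0 < b) {k j : ℕ} (hc : Crit a b (KJ a b k j)) :
    (j:ℝ) * b = k * a ∧ ((k:ℝ) + j + 1) * (a * b) = 1 := by
  obtain ⟨r1, r2⟩ := KJ_rec ha hb k j
  have c1 := hc a (by simp)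
  have c2 := hc (-b) (by simp)
  have hG := gL_pos ha hb (KJ a b k j) 0
  rw [r1] at c1
  rw [r2] at c2
  set G := gL a b (KJ a b k j) 0
  have hab : 0 < a + b := by positivity
  have hk : (0:ℝ) < k + 1 := by positivity
  have hj : (0:ℝ) < j + 1 := by positivity
  have E1 : ((k:ℝ) + j + 1) * b * (1 + a ^ 2) = (k + 1) * (a + b) := by
    have h1 : (1 + a ^ 2) ≠ 0 := by positivity
    field_simp at c1
    linarith
  have E2 : ((k:ℝ) + j + 1) * a * (1 + b ^ 2) = (j + 1) * (a + b) := by
    have h1 : (1 + b ^ 2) ≠ 0 := by positivity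
    rw [neg_sq] at c2
    field_simp at c2
    linarith
  have e3 : (j:ℝ) * b = k * a := by
    have : ((j:ℝ) * b - k * a) * (a + b) = 0 := by
      linear_combination b * E1 - a * E2
    rcases mul_eq_zero.1 this with h | h
    · linarith
    · exact absurd h hab.ne'
  refine ⟨e3, ?_⟩
  have : (((k:ℝ) + j + 1) * (a * b) - 1) * a = 0 := by
    linear_combination E1 - e3
  rcases mul_eq_zero.1 this with h | h
  · linarith
  · exact absurd h ha.ne'

lemma vsq_zero : vsq 0 = 1 := by simp [vsq]

/-- The full one-dimensional statement. -/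
theorem oneD {a b : ℝ} (ha : 0 < a) (hb : 0 < b) {L : List ℝ} (hc : Crit a b L) :
    ∃ k j : ℕ, k + j ≤ L.length ∧ (k + j = L.length → L.Perm (KJ a b k j)) ∧
      ((k = 0 ∧ j = 0) ∨ (1 ≤ k ∧ 1 ≤ j)) ∧
      (j:ℝ) * b = k * a ∧ ((k:ℝ) + j + 1) * (a * b) = 1 ∧
      (gL a b L 0) ^ 2 * ((a :: -b :: L).map (fun σ => 1 + σ ^ 2)).prod
        = vsq k * vsq j / vsq (k + j) := by
  set L0 := L.filter (fun x => x ≠ 0) with hL0
  have hg0 : gL a b L0 = gL a b L := gL_filter a b L
  have hL0n : ∀ x ∈ L0, x ≠ 0 := by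
    intro x hx
    have := (List.mem_filter.1 hx).2
    simpa using this
  have hc0 : Crit a b L0 := by
    intro σ hσ
    rw [hg0]
    apply hc
    rw [List.mem_cons, List.mem_cons] at hσ ⊢
    rcases hσ with h | h | h
    · exact Or.inl h
    · exact Or.inr (Or.inl h)
    · exact Or.inr (Or.inr (List.mem_filter.1 h).1)
  have hprod : ∀ M : List ℝ, ((M.filter (fun x => x ≠ 0)).map (fun σ => 1 + σ ^ 2)).prod
      = (M.map (fun σ => 1 + σ ^ 2)).prod := by
    intro M
    induction M with
    | nil => rfl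
    | cons x M ih =>
      by_cases h : x = 0
      · subst h
        simp only [List.filter_cons, ne_eq, not_true_eq_false, decide_false, Bool.false_eq_true,
          if_false, List.map_cons, List.prod_cons]
        rw [← ih]
        simp
      · simp only [List.filter_cons, ne_eq, h, not_false_eq_true, decide_true, if_true,
          List.map_cons, List.prod_cons]
        congr 1
  have hlen : L0.length ≤ L.length := List.length_filter_le _ _
  have hmem : ∀ σ ∈ L0, σ = a ∨ σ = -b := by
    intro σ hσ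
    rcases classification ha hb hL0n hc0 with h | ⟨_, h⟩
    · rw [h] at hσ; simp at hσ
    · obtain ⟨h1, h2⟩ := h σ (by simp [hσ])
      rcases lt_or_gt_of_ne (hL0n σ hσ) with h3 | h3
      · exact Or.inr (h2 h3)
      · exact Or.inl (h1 h3)
  obtain ⟨k, j, hkj, hp⟩ := exists_KJ L0 hmem
  obtain ⟨c1, c2⟩ := Crit_KJ ha hb (hc0.perm ha hb hp)
  have hcase : (k = 0 ∧ j = 0) ∨ (1 ≤ k ∧ 1 ≤ j) := by
    rcases Nat.eq_zero_or_pos k with h | h
    · left
      refine ⟨h, ?_⟩
      rw [h, Nat.cast_zero, zero_mul] at c1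
      rcases mul_eq_zero.1 c1 with h2 | h2
      · exact_mod_cast h2
      · exact absurd h2 hb.ne'
    · rcases Nat.eq_zero_or_pos j with h' | h'
      · exfalso
        rw [h', Nat.cast_zero, zero_mul] at c1
        have : (0:ℝ) < k := Nat.cast_pos.2 h
        have := mul_pos this ha
        linarith
      · exact Or.inr ⟨h, h'⟩
  refine ⟨k, j, by omega, ?_, hcase, c1, c2, ?_⟩
  · intro h
    have h1 : L0.length = L.length := by omega
    have h2 : L0 = L := by
      rw [hL0]
      rw [List.filter_eq_self]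
      intro x hx
      have := List.length_filter_eq_length_iff.1 (hL0 ▸ h1) x hx
      exact this
    rwa [h2] at hp
  · rw [← hg0]
    have e1 : ((a :: -b :: L).map (fun σ => 1 + σ ^ 2)).prod
        = (1 + a ^ 2) ^ (k + 1) * (1 + b ^ 2) ^ (j + 1) := by
      simp only [List.map_cons, List.prod_cons]
      rw [← hprod L, ← hL0, (hp.map _).prod_eq]
      simp only [KJ, List.map_append, List.map_replicate, List.prod_append, List.prod_replicate]
      rw [neg_sq]
      ring
    rw [e1, gL_perm ha hb hp]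
    rcases hcase with ⟨h1, h2⟩ | ⟨h1, h2⟩
    · subst h1; subst h2
      simp only [Nat.cast_zero, zero_add, one_mul] at c2
      simp only [KJ, List.replicate_zero, List.append_nil, gL, phi_zero, add_zero, vsq_zero]
      have hab : 0 < a + b := by positivity
      field_simp
      linear_combination (a * b - 1) * c2
    · exact N_value ha hb h1 h2 c1 c2

end Pool.Agent.Work.MP_1c7b0d_gt
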