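import Pool.Agent.Work.MP_1c7b0d_gt.Geom12
import Pool.Agent.Work.MP_1c7b0d_gt.Defs

open MeasureTheory Set Filter Topology
open scoped ENNReal

namespace Pool.Agent.Work.MP_1c7b0d_gt

variable {d : ℕ}

lemma inner_eq_dot (x y : EuclideanSpace ℝ (Fin d)) : inner ℝ x y = x.ofLp ⬝ᵥ y.ofLp := by
  rw [PiLp.inner_apply, dotProduct]
  exact Finset.sum_congr rfl (fun i _ => by simp [mul_comm])

lemma norm_one_iff (x : EuclideanSpace ℝ (Fin d)) : ‖x‖ = 1 ↔ x.ofLp ⬝ᵥ x.ofLp = 1 := by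
  rw [← inner_eq_dot, real_inner_self_eq_norm_sq]
  constructor
  · intro h; rw [h]; norm_num
  · intro h
    have := norm_nonneg x
    nlinarith [sq_nonneg (‖x‖ - 1)]

lemma vol_euclid {n : ℕ} (u : Fin n → EuclideanSpace ℝ (Fin d)) :
    volume {x : EuclideanSpace ℝ (Fin d) | ∀ i, inner ℝ (u i) x ≤ 1} = volume (PP (fun i => (u i).ofLp) 1) := by
  have h := PiLp.volume_preserving_ofLp (Fin d)
  rw [← h.measure_preimage (PP_meas _ _).nullMeasurableSet]
  congr 1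
  ext x
  simp only [Set.mem_ofPred_eq, mem_preimage, PP, inner_eq_dot]

lemma cc_eq {k l : ℕ} (hkl : k ≤ l) (hlk : l ≤ k + 1) :
    cc (k + l) = Real.sqrt ((k:ℝ) ^ k * ((k:ℝ) + 1) ^ (k + 1)) / (k.factorial : ℝ) *
      (Real.sqrt ((l:ℝ) ^ l * ((l:ℝ) + 1) ^ (l + 1)) / (l.factorial : ℝ)) := by
  have h1 : (k + l) / 2 = k := by omega
  have h2 : (k + l) - (k + l) / 2 = l := by omega
  unfold cc
  rw [h2, h1, Real.sqrt_mul (vsq_pos k).le]
  unfold vsq
  rw [Real.sqrt_div' _ (by positivity), Real.sqrt_div' _ (by positivity), Real.sqrt_sq (by positivity),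
    Real.sqrt_sq (by positivity)]

lemma gram_iff {n : ℕ} (u : Fin n → Fin d → ℝ) (A : Finset (Fin n)) (k j : ℕ) :
    Gram u A k j ↔ (∀ i ∈ A, ∀ j ∈ A, i ≠ j → u i ⬝ᵥ u j = -1 / (k:ℝ)) ∧
      (∀ i, i ∉ A → ∀ l, l ∉ A → i ≠ l → u i ⬝ᵥ u l = -1 / (j:ℝ)) ∧
      (∀ i ∈ A, ∀ j, j ∉ A → u i ⬝ᵥ u j = 0) := by
  constructor
  · intro h
    refine ⟨?_, ?_, ?_⟩
    · intro i hi l hl hil
      rw [h i l hil, if_pos ⟨hi, hl⟩]
    · intro i hi l hl hil
      rw [h i l hil, if_neg (fun h => hi h.1), if_pos ⟨hi, hl⟩]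
    · intro i hi l hl
      have hil : i ≠ l := fun h => hl (h ▸ hi)
      rw [h i l hil, if_neg (fun h => hl h.2), if_neg (fun h => h.1 hi)]
  · rintro ⟨h1, h2, h3⟩ i l hil
    by_cases hi : i ∈ A <;> by_cases hl : l ∈ A
    · rw [if_pos ⟨hi, hl⟩]; exact h1 i hi l hl hil
    · rw [if_neg (fun h => hl h.2), if_neg (fun h => h.1 hi)]; exact h3 i hi l hl
    · rw [if_neg (fun h => hi h.1), if_neg (fun h => h.2 hl), dotProduct_comm]; exact h3 l hl i hi
    · rw [if_neg (fun h => hi h.1), if_pos ⟨hi, hl⟩]; exact h2 i hi l hl hil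

/-- configurations in John position with the same Gram matrix give congruent polytopes -/
lemma congr_of_inner {n : ℕ} {u u' : Fin n → EuclideanSpace ℝ (Fin d)} {w : Fin n → ℝ} (hd : 0 < d)
    (hJ : Jn (fun i => (u i).ofLp) w)
    (hG : ∀ i j, inner ℝ (u i) (u j) = inner ℝ (u' i) (u' j)) :
    ∃ φ : EuclideanSpace ℝ (Fin d) ≃ₗᵢ[ℝ] EuclideanSpace ℝ (Fin d),
      φ '' {x | ∀ i, inner ℝ (u i) x ≤ 1} = {x | ∀ i, inner ℝ (u' i) x ≤ 1} := by
  have hd' : (0:ℝ) < d := by exact_mod_cast hd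
  have hfr : ∀ x y : EuclideanSpace ℝ (Fin d),
      ∑ i, d * w i * (inner ℝ (u i) x * inner ℝ (u i) y) = inner ℝ x y := by
    intro x y
    have h := hJ.dot_dot x.ofLp y.ofLp
    simp only [← inner_eq_dot] at h
    simp only [mul_assoc, ← Finset.mul_sum]
    rw [h]
    field_simp
  set f : EuclideanSpace ℝ (Fin d) →ₗ[ℝ] EuclideanSpace ℝ (Fin d) :=
    { toFun := fun x => ∑ i, (d * w i * inner ℝ (u i) x) • u' i
      map_add' := fun x y => by
        rw [← Finset.sum_add_distrib]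
        refine Finset.sum_congr rfl (fun i _ => ?_)
        rw [inner_add_right, mul_add, add_smul]
      map_smul' := fun c x => by
        rw [RingHom.id_apply, Finset.smul_sum]
        refine Finset.sum_congr rfl (fun i _ => ?_)
        rw [inner_smul_right, smul_smul]
        congr 1
        ring } with hf
  have hfx : ∀ x, f x = ∑ i, (d * w i * inner ℝ (u i) x) • u' i := fun x => rfl
  have h1 : ∀ j x, inner ℝ (u' j) (f x) = inner ℝ (u j) x := by
    intro j x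
    rw [hfx, inner_sum]
    have : ∀ i, inner ℝ (u' j) ((d * w i * inner ℝ (u i) x) • u' i)
        = d * w i * (inner ℝ (u i) x * inner ℝ (u i) (u j)) := by
      intro i
      rw [inner_smul_right, real_inner_comm (u' i) (u' j), ← hG i j]
      ring
    simp only [this]
    rw [hfr, real_inner_comm]
  have h2 : ∀ x y, inner ℝ (f x) (f y) = inner ℝ x y := by
    intro x y
    nth_rewrite 1 [hfx x]
    rw [sum_inner, ← hfr x y]
    refine Finset.sum_congr rfl (fun i _ => ?_)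
    rw [inner_smul_left, h1]
    simp only [conj_trivial]
    ring
  set φ := (f.isometryOfInner h2).toLinearIsometryEquiv rfl with hφ
  have hφx : ∀ x, φ x = f x := fun x => rfl
  refine ⟨φ, ?_⟩
  ext y
  simp only [Set.mem_image, Set.mem_ofPred_eq]
  constructor
  · rintro ⟨x, hx, rfl⟩ i
    rw [hφx, h1]; exact hx i
  · intro hy
    refine ⟨φ.symm y, fun i => ?_, φ.apply_symm_apply y⟩
    rw [← h1 i, ← hφx, φ.apply_symm_apply]
    exact hy i

/-- uniqueness up to congruence -/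
lemma congr_of_gram {k l : ℕ} (hk : 1 ≤ k) (hl : 1 ≤ l) (hkl : k + l = d)
    {u u' : Fin (d+2) → EuclideanSpace ℝ (Fin d)}
    (hu : ∀ i, ‖u i‖ = 1) (hu' : ∀ i, ‖u' i‖ = 1) {A A' : Finset (Fin (d+2))} (hA : A.card = k + 1)
    (hA' : A'.card = k + 1)
    (hG : Gram (fun i => (u i).ofLp) A k l) (hG' : Gram (fun i => (u' i).ofLp) A' k l) :
    ∃ φ : EuclideanSpace ℝ (Fin d) ≃ₗᵢ[ℝ] EuclideanSpace ℝ (Fin d),
      φ '' {x | ∀ i, inner ℝ (u i) x ≤ 1} = {x | ∀ i, inner ℝ (u' i) x ≤ 1} := by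
  classical
  have hd : 0 < d := by omega
  have hu1 : ∀ i, (u i).ofLp ⬝ᵥ (u i).ofLp = 1 := fun i => (norm_one_iff _).1 (hu i)
  have hu1' : ∀ i, (u' i).ofLp ⬝ᵥ (u' i).ofLp = 1 := fun i => (norm_one_iff _).1 (hu' i)
  obtain ⟨hJ, -⟩ := rows_to_J (u := fun i => (u i).ofLp) (w := wA d k l A) (z := zA d k l A) hd hu1
    (fun i => (wA_pos hd hk hl i).le)
    (fun i j => row_gram hd hk hl hkl ((u i).ofLp ⬝ᵥ (u j).ofLp) (fun h => hG i j h) (fun h => by rw [h]; exact hu1 j))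
  set σ : Equiv.Perm (Fin (d+2)) := (Finset.equivOfCardEq (hA.trans hA'.symm) :
    {x // x ∈ A} ≃ {x // x ∈ A'}).extendSubtype with hσ
  have hσ1 : ∀ i, i ∈ A → σ i ∈ A' := fun i hi => Equiv.extendSubtype_mem _ i hi
  have hσ2 : ∀ i, i ∉ A → σ i ∉ A' := fun i hi => Equiv.extendSubtype_not_mem _ i hi
  have hGG : ∀ i j, inner ℝ (u i) (u j) = inner ℝ ((u' ∘ σ) i) ((u' ∘ σ) j) := by
    intro i j
    rw [inner_eq_dot, inner_eq_dot]
    by_cases hij : i = j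
    · subst hij
      rw [hu1]
      exact (hu1' (σ i)).symm
    · have e1 := hG i j hij
      have e2 := hG' (σ i) (σ j) (fun h => hij (σ.injective h))
      simp only [Function.comp]
      rw [e1, e2]
      by_cases hi : i ∈ A <;> by_cases hj : j ∈ A
      · rw [if_pos ⟨hi, hj⟩, if_pos ⟨hσ1 i hi, hσ1 j hj⟩]
      · rw [if_neg (fun h => hj h.2), if_neg (fun h => h.1 hi), if_neg (fun h => hσ2 j hj h.2),
          if_neg (fun h => h.1 (hσ1 i hi))]
      · rw [if_neg (fun h => hi h.1), if_neg (fun h => h.2 hj), if_neg (fun h => hσ2 i hi h.1),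
          if_neg (fun h => h.2 (hσ1 j hj))]
      · rw [if_neg (fun h => hi h.1), if_pos ⟨hi, hj⟩, if_neg (fun h => hσ2 i hi h.1),
          if_pos ⟨hσ2 i hi, hσ2 j hj⟩]
  obtain ⟨φ, hφ⟩ := congr_of_inner hd hJ hGG
  refine ⟨φ, hφ.trans ?_⟩
  ext x
  constructor
  · intro h i
    have := h (σ.symm i)
    simpa using this
  · intro h i
    exact h (σ i)

theorem final (k l : ℕ) (hk : 1 ≤ k) (hkl : k ≤ l) (hlk : l ≤ k + 1) :
    (∀ u : Fin (k + l + 2) → EuclideanSpace ℝ (Fin (k + l)), (∀ i, ‖u i‖ = 1) →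
      ENNReal.ofReal (sv k * sv l) ≤ volume (circ u) ∧
      (volume (circ u) = ENNReal.ofReal (sv k * sv l) ↔
        ∃ A : Finset (Fin (k + l + 2)), A.card = k + 1 ∧
          (∀ i ∈ A, ∀ j ∈ A, i ≠ j → inner ℝ (u i) (u j) = -1 / (k:ℝ)) ∧
          (∀ i, i ∉ A → ∀ j, j ∉ A → i ≠ j → inner ℝ (u i) (u j) = -1 / (l:ℝ)) ∧
          (∀ i ∈ A, ∀ j, j ∉ A → inner ℝ (u i) (u j) = 0))) ∧
    (∃ u : Fin (k + l + 2) → EuclideanSpace ℝ (Fin (k + l)), (∀ i, ‖u i‖ = 1) ∧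
      volume (circ u) = ENNReal.ofReal (sv k * sv l)) ∧
    (∀ u u' : Fin (k + l + 2) → EuclideanSpace ℝ (Fin (k + l)), (∀ i, ‖u i‖ = 1) → (∀ i, ‖u' i‖ = 1) →
      volume (circ u) = ENNReal.ofReal (sv k * sv l) → volume (circ u') = ENNReal.ofReal (sv k * sv l) →
      ∃ φ : EuclideanSpace ℝ (Fin (k + l)) ≃ₗᵢ[ℝ] EuclideanSpace ℝ (Fin (k + l)),
        φ '' circ u = circ u') := by
  unfold circ sv
  obtain ⟨h1, u0, A0, hu0, hA0, hG0⟩ := main_pi (d := k + l) (by omega)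
  have e1 : (k + l) / 2 = k := by omega
  have e2 : (k + l) - (k + l) / 2 = l := by omega
  rw [cc_eq hkl hlk] at h1
  refine ⟨?_, ?_, ?_⟩
  · intro u hu
    have hu' : ∀ i, (u i).ofLp ⬝ᵥ (u i).ofLp = 1 := fun i => (norm_one_iff _).1 (hu i)
    obtain ⟨h2, h3⟩ := h1 (fun i => (u i).ofLp) hu'
    rw [e2, e1] at h3
    refine ⟨by rw [vol_euclid]; exact h2, ?_⟩
    rw [vol_euclid, h3]
    refine exists_congr (fun A => and_congr_right (fun _ => ?_))
    rw [gram_iff]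
    simp only [inner_eq_dot]
  · refine ⟨fun i => WithLp.toLp 2 (u0 i), fun i => (norm_one_iff _).2 (hu0 i), ?_⟩
    rw [vol_euclid]
    exact (h1 u0 hu0).2.2 ⟨A0, hA0, hG0⟩
  · intro u u' hu hu' hv hv'
    rw [vol_euclid] at hv hv'
    obtain ⟨A, hA, hG⟩ := (h1 (fun i => (u i).ofLp) (fun i => (norm_one_iff _).1 (hu i))).2.1 hv
    obtain ⟨A', hA', hG'⟩ := (h1 (fun i => (u' i).ofLp) (fun i => (norm_one_iff _).1 (hu' i))).2.1 hv'
    rw [e2, e1] at hG hG'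
    rw [e1] at hA hA'
    exact congr_of_gram hk (by omega) rfl hu hu' hA hA' hG hG'

end Pool.Agent.Work.MP_1c7b0d_gt
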