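import Mathlib

open MeasureTheory Set Filter Topology
open scoped ENNReal Pointwise

namespace Pool.Agent.Work.MP_1c7b0d_gt

variable {n d : ℕ}

/-- the polyhedron `{x | ∀ i, u i ⬝ᵥ x ≤ t}` -/
def PP (u : Fin n → Fin d → ℝ) (t : ℝ) : Set (Fin d → ℝ) := {x | ∀ i, u i ⬝ᵥ x ≤ t}

/-- the cone `{(t, x) | ∀ i, u i ⬝ᵥ x ≤ t}` -/
def KK (u : Fin n → Fin d → ℝ) : Set (ℝ × (Fin d → ℝ)) := {p | ∀ i, u i ⬝ᵥ p.2 ≤ p.1}

/-- unit vectors in John position with weights `w` -/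
structure Jn (u : Fin n → Fin d → ℝ) (w : Fin n → ℝ) : Prop where
  unit : ∀ i, u i ⬝ᵥ u i = 1
  nonneg : ∀ i, 0 ≤ w i
  sum : ∑ i, w i = 1
  bary : ∀ j, ∑ i, w i * u i j = 0
  frame : ∀ j k, ∑ i, w i * (u i j * u i k) = if j = k then (1:ℝ) / d else 0

lemma continuous_dot (v : Fin d → ℝ) : Continuous (fun x : Fin d → ℝ => v ⬝ᵥ x) := by
  unfold dotProduct
  fun_prop

lemma PP_closed (u : Fin n → Fin d → ℝ) (t : ℝ) : IsClosed (PP u t) := by
  have : PP u t = ⋂ i, {x | u i ⬝ᵥ x ≤ t} := by ext x; simp [PP]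
  rw [this]
  exact isClosed_iInter (fun i => isClosed_le (continuous_dot _) continuous_const)

lemma KK_closed (u : Fin n → Fin d → ℝ) : IsClosed (KK u) := by
  have : KK u = ⋂ i, {p | u i ⬝ᵥ p.2 ≤ p.1} := by ext x; simp [KK]
  rw [this]
  exact isClosed_iInter (fun i => isClosed_le ((continuous_dot _).comp continuous_snd) continuous_fst)

lemma PP_meas (u : Fin n → Fin d → ℝ) (t : ℝ) : MeasurableSet (PP u t) := (PP_closed u t).measurableSet

lemma KK_meas (u : Fin n → Fin d → ℝ) : MeasurableSet (KK u) := (KK_closed u).measurableSet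

lemma PP_mono (u : Fin n → Fin d → ℝ) {s t : ℝ} (h : s ≤ t) : PP u s ⊆ PP u t :=
  fun _ hx i => (hx i).trans h

lemma mem_KK {u : Fin n → Fin d → ℝ} {t : ℝ} {x : Fin d → ℝ} : (t, x) ∈ KK u ↔ x ∈ PP u t := Iff.rfl

lemma PP_scale (u : Fin n → Fin d → ℝ) {t : ℝ} (ht : 0 < t) : PP u t = t • PP u 1 := by
  ext x
  rw [Set.mem_smul_set_iff_inv_smul_mem₀ ht.ne']
  simp only [PP, Set.mem_ofPred_eq, dotProduct_smul, smul_eq_mul]
  refine forall_congr' (fun i => ?_)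
  rw [inv_mul_le_iff₀ ht, mul_one]

lemma vol_PP (u : Fin n → Fin d → ℝ) {t : ℝ} (ht : 0 < t) :
    volume (PP u t) = ENNReal.ofReal (t ^ d) * volume (PP u 1) := by
  rw [PP_scale u ht, Measure.addHaar_smul]
  congr 2
  rw [Module.finrank_fin_fun, abs_of_pos (pow_pos ht d)]

/-- layer formula, inequality for all configurations -/
lemma layer_le (u : Fin n → Fin d → ℝ) {ψ : ℝ → ℝ≥0∞} (hψ : Measurable ψ) :
    (∫⁻ t in Ioi (0:ℝ), ψ t * ENNReal.ofReal (t ^ d)) * volume (PP u 1) ≤ ∫⁻ p in KK u, ψ p.1 := by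
  rw [← lintegral_indicator (KK_meas u), Measure.volume_eq_prod, lintegral_prod]
  · rw [← lintegral_mul_const]
    · rw [← lintegral_indicator measurableSet_Ioi]
      refine lintegral_mono (fun t => ?_)
      by_cases ht : t ∈ Ioi (0:ℝ)
      · rw [indicator_of_mem ht]
        have : (fun y => (KK u).indicator (fun p => ψ p.1) (t, y)) = (PP u t).indicator (fun _ => ψ t) := by
          funext y; rfl
        rw [this, lintegral_indicator (PP_meas u t), setLIntegral_const, vol_PP u ht, mul_assoc]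
      · rw [indicator_of_notMem ht]; exact bot_le
    · exact hψ.mul (by fun_prop)
  · exact ((hψ.comp measurable_fst).indicator (KK_meas u)).aemeasurable

/-- layer formula -/
lemma layer_eq (u : Fin n → Fin d → ℝ) (hu : ∀ p ∈ KK u, 0 ≤ p.1) {ψ : ℝ → ℝ≥0∞} (hψ : Measurable ψ) :
    ∫⁻ p in KK u, ψ p.1 = (∫⁻ t in Ioi (0:ℝ), ψ t * ENNReal.ofReal (t ^ d)) * volume (PP u 1) := by
  rw [← lintegral_indicator (KK_meas u), Measure.volume_eq_prod, lintegral_prod]
  · rw [← lintegral_mul_const]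
    · rw [restrict_Ioi_eq_restrict_Ici, ← lintegral_indicator measurableSet_Ici]
      refine lintegral_congr_ae ?_
      have h0 : ∀ᵐ t : ℝ, t ≠ 0 := by
        have : volume ({0} : Set ℝ) = 0 := by simp
        exact compl_mem_ae_iff.2 this
      filter_upwards [h0] with t ht0
      have : (fun y => (KK u).indicator (fun p => ψ p.1) (t, y)) = (PP u t).indicator (fun _ => ψ t) := by
        funext y; rfl
      rw [this, lintegral_indicator (PP_meas u t), setLIntegral_const]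
      by_cases ht : t ∈ Ici (0:ℝ)
      · rw [indicator_of_mem ht, vol_PP u (lt_of_le_of_ne ht (Ne.symm ht0)), mul_assoc]
      · rw [indicator_of_notMem ht]
        have : PP u t = ∅ := by
          rw [Set.eq_empty_iff_forall_notMem]
          intro x hx
          exact ht (hu (t, x) hx)
        rw [this]; simp
    · exact hψ.mul (by fun_prop)
  · exact ((hψ.comp measurable_fst).indicator (KK_meas u)).aemeasurable

/-- tilted version -/
lemma tilt (u : Fin n → Fin d → ℝ) (v : Fin d → ℝ) {ψ : ℝ → ℝ≥0∞} (hψ : Measurable ψ) :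
    ∫⁻ p in KK (fun i => u i + v), ψ p.1 = ∫⁻ p in KK u, ψ (p.1 + v ⬝ᵥ p.2) := by
  have hm : Measurable (fun p : ℝ × (Fin d → ℝ) => p.1 + v ⬝ᵥ p.2) :=
    (continuous_fst.add ((continuous_dot v).comp continuous_snd)).measurable
  rw [← lintegral_indicator (KK_meas _), ← lintegral_indicator (KK_meas _), Measure.volume_eq_prod,
    lintegral_prod_symm, lintegral_prod_symm]
  · refine lintegral_congr (fun x => ?_)
    rw [← lintegral_add_right_eq_self _ (v ⬝ᵥ x)]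
    refine lintegral_congr (fun t => ?_)
    have : ((t + v ⬝ᵥ x, x) ∈ KK (fun i => u i + v)) = ((t, x) ∈ KK u) := by
      simp only [KK, Set.mem_ofPred_eq, add_dotProduct, eq_iff_iff]
      refine forall_congr' (fun i => ?_)
      constructor <;> intro h <;> linarith
    by_cases hm : (t, x) ∈ KK u
    · rw [indicator_of_mem hm, indicator_of_mem (this ▸ hm)]
    · rw [indicator_of_notMem hm, indicator_of_notMem (this ▸ hm)]
  · exact ((hψ.comp hm).indicator (KK_meas _)).aemeasurable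
  · exact ((hψ.comp measurable_fst).indicator (KK_meas _)).aemeasurable

lemma Jn.dot_sum {u : Fin n → Fin d → ℝ} {w : Fin n → ℝ} (h : Jn u w) (x : Fin d → ℝ) :
    ∑ i, w i * (u i ⬝ᵥ x) = 0 := by
  have : ∀ i, w i * (u i ⬝ᵥ x) = ∑ j, (w i * u i j) * x j := by
    intro i
    rw [dotProduct, Finset.mul_sum]
    exact Finset.sum_congr rfl (fun j _ => by ring)
  simp only [this]
  rw [Finset.sum_comm]
  refine Finset.sum_eq_zero (fun j _ => ?_)
  rw [← Finset.sum_mul, h.bary j, zero_mul]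

lemma Jn.sq_sum {u : Fin n → Fin d → ℝ} {w : Fin n → ℝ} (h : Jn u w) (x : Fin d → ℝ) :
    ∑ i, w i * (u i ⬝ᵥ x) ^ 2 = (x ⬝ᵥ x) / d := by
  have : ∀ i, w i * (u i ⬝ᵥ x) ^ 2 = ∑ j, ∑ k, (w i * (u i j * u i k)) * (x j * x k) := by
    intro i
    rw [sq, dotProduct, Finset.sum_mul_sum, Finset.mul_sum]
    refine Finset.sum_congr rfl (fun j _ => ?_)
    rw [Finset.mul_sum]
    exact Finset.sum_congr rfl (fun k _ => by ring)
  simp only [this]
  rw [Finset.sum_comm]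
  have h2 : ∀ j, ∑ i, ∑ k, (w i * (u i j * u i k)) * (x j * x k) = x j * x j / d := by
    intro j
    rw [Finset.sum_comm]
    have h3 : ∀ k, ∑ i, (w i * (u i j * u i k)) * (x j * x k) = if j = k then (1:ℝ) / d * (x j * x k) else 0 := by
      intro k
      rw [← Finset.sum_mul, h.frame j k]
      split_ifs <;> simp
    simp only [h3, Finset.sum_ite_eq, Finset.mem_univ, if_true]
    ring
  simp only [h2, dotProduct, Finset.sum_div]

lemma Jn.t_nonneg {u : Fin n → Fin d → ℝ} {w : Fin n → ℝ} (h : Jn u w) :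
    ∀ p ∈ KK u, 0 ≤ p.1 := by
  intro p hp
  have h1 : ∑ i, w i * (u i ⬝ᵥ p.2) ≤ ∑ i, w i * p.1 :=
    Finset.sum_le_sum (fun i _ => mul_le_mul_of_nonneg_left (hp i) (h.nonneg i))
  rw [h.dot_sum, ← Finset.sum_mul, h.sum, one_mul] at h1
  exact h1

lemma Jn.bound {u : Fin n → Fin d → ℝ} {w : Fin n → ℝ} (h : Jn u w) :
    ∃ C, 0 ≤ C ∧ ∀ p ∈ KK u, ∀ j, |p.2 j| ≤ C * p.1 := by
  refine ⟨Real.sqrt (d * ∑ i, (w i)⁻¹), Real.sqrt_nonneg _, ?_⟩
  intro p hp j
  obtain ⟨t, x⟩ := p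
  have ht : 0 ≤ t := h.t_nonneg _ hp
  have hd : (0:ℝ) < d := by
    have : 0 < d := Nat.pos_of_ne_zero (fun h0 => by subst h0; exact j.elim0)
    exact_mod_cast this
  have hs : ∀ i, 0 ≤ t - u i ⬝ᵥ x := fun i => sub_nonneg.2 (hp i)
  have h1 : ∑ i, w i * (t - u i ⬝ᵥ x) = t := by
    simp only [mul_sub, Finset.sum_sub_distrib, h.dot_sum, ← Finset.sum_mul, h.sum]
    ring
  have h2 : ∑ i, w i * (t - u i ⬝ᵥ x) ^ 2 = t ^ 2 + (x ⬝ᵥ x) / d := by
    have : ∀ i, w i * (t - u i ⬝ᵥ x) ^ 2 = w i * t ^ 2 - 2 * t * (w i * (u i ⬝ᵥ x)) + w i * (u i ⬝ᵥ x) ^ 2 := by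
      intro i; ring
    simp only [this, Finset.sum_add_distrib, Finset.sum_sub_distrib, ← Finset.mul_sum, h.dot_sum,
      h.sq_sum, ← Finset.sum_mul, h.sum]
    ring
  have h3 : ∀ i, w i * (t - u i ⬝ᵥ x) ^ 2 ≤ (w i)⁻¹ * t ^ 2 := by
    intro i
    rcases (h.nonneg i).eq_or_lt with h0 | h0
    · rw [← h0]; simp
    · have h4 : w i * (t - u i ⬝ᵥ x) ≤ t := by
        have h7 := Finset.single_le_sum (f := fun i => w i * (t - u i ⬝ᵥ x))
          (fun i _ => mul_nonneg (h.nonneg i) (hs i)) (Finset.mem_univ i)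
        rw [h1] at h7
        exact h7
      have h5 : 0 ≤ w i * (t - u i ⬝ᵥ x) := mul_nonneg h0.le (hs i)
      have h6 : (w i * (t - u i ⬝ᵥ x)) ^ 2 ≤ t ^ 2 := pow_le_pow_left₀ h5 h4 2
      calc w i * (t - u i ⬝ᵥ x) ^ 2 = (w i)⁻¹ * (w i * (t - u i ⬝ᵥ x)) ^ 2 := by
            field_simp
        _ ≤ (w i)⁻¹ * t ^ 2 := mul_le_mul_of_nonneg_left h6 (inv_nonneg.2 h0.le)
  have h4 : t ^ 2 + (x ⬝ᵥ x) / d ≤ (∑ i, (w i)⁻¹) * t ^ 2 := by
    rw [← h2, Finset.sum_mul]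
    exact Finset.sum_le_sum (fun i _ => h3 i)
  have h5 : x j ^ 2 ≤ x ⬝ᵥ x := by
    rw [dotProduct]
    have := Finset.single_le_sum (f := fun j => x j * x j) (fun i _ => mul_self_nonneg _) (Finset.mem_univ j)
    simpa [sq] using this
  have h6 : x j ^ 2 ≤ (d * ∑ i, (w i)⁻¹) * t ^ 2 := by
    have h7 : (x ⬝ᵥ x) / d ≤ (∑ i, (w i)⁻¹) * t ^ 2 := by nlinarith [sq_nonneg t]
    rw [div_le_iff₀ hd] at h7
    nlinarith
  have h8 : 0 ≤ d * ∑ i, (w i)⁻¹ := mul_nonneg hd.le (Finset.sum_nonneg (fun i _ => inv_nonneg.2 (h.nonneg i)))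
  refine abs_le_of_sq_le_sq ?_ (mul_nonneg (Real.sqrt_nonneg _) ht)
  rw [mul_pow, Real.sq_sqrt h8]
  exact h6

end Pool.Agent.Work.MP_1c7b0d_gt
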