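import Pool.Agent.Work.MP_1c7b0d_gt.Geom9

open MeasureTheory Set Filter Topology
open scoped ENNReal

namespace Pool.Agent.Work.MP_1c7b0d_gt

variable {d : ℕ}

lemma Jn.dot_dot {n : ℕ} {u : Fin n → Fin d → ℝ} {w : Fin n → ℝ} (h : Jn u w) (v x : Fin d → ℝ) :
    ∑ i, w i * ((u i ⬝ᵥ v) * (u i ⬝ᵥ x)) = (v ⬝ᵥ x) / d := by
  have h1 := h.sq_sum (v + x)
  have h2 := h.sq_sum v
  have h3 := h.sq_sum x
  have e : ∀ i, w i * (u i ⬝ᵥ (v + x)) ^ 2 = w i * (u i ⬝ᵥ v) ^ 2 + 2 * (w i * ((u i ⬝ᵥ v) * (u i ⬝ᵥ x)))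
      + w i * (u i ⬝ᵥ x) ^ 2 := by
    intro i; rw [dotProduct_add]; ring
  simp only [e, Finset.sum_add_distrib, ← Finset.mul_sum] at h1
  rw [h2, h3, dotProduct_add, add_dotProduct, add_dotProduct, dotProduct_comm x v] at h1
  have h4 : (v ⬝ᵥ v + v ⬝ᵥ x + (v ⬝ᵥ x + x ⬝ᵥ x)) / d = v ⬝ᵥ v / d + 2 * (v ⬝ᵥ x / d) + x ⬝ᵥ x / d := by ring
  rw [h4] at h1
  linarith

lemma EE_total (m : ℕ) : ∫⁻ X : Fin m → ℝ, ∏ i, EE (X i) = 1 := by
  have h := pi0 (m := m) (a := 1) (b := 1) one_pos one_pos (fun _ => 0) 0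
  have h1 : ∀ m : ℕ, gL 1 1 (List.ofFn (fun _ : Fin m => (0:ℝ))) = phi 1 1 := by
    intro m
    induction m with
    | zero => rfl
    | succ m ih => rw [List.ofFn_succ]; simp only [gL]; rw [ih, T_zero]
  rw [h1] at h
  have hp : 0 < phi 1 1 0 := phi_pos one_pos one_pos 0
  simp only [zero_mul, Finset.sum_const_zero, sub_zero] at h
  rw [lintegral_mul_const _ prodEE_meas] at h
  have h2 : ENNReal.ofReal (phi 1 1 0) ≠ 0 := by
    rw [ne_eq, ENNReal.ofReal_eq_zero, not_le]; exact hp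
  calc ∫⁻ X : Fin m → ℝ, ∏ i, EE (X i)
      = (∫⁻ X : Fin m → ℝ, ∏ i, EE (X i)) * ENNReal.ofReal (phi 1 1 0) / ENNReal.ofReal (phi 1 1 0) := by
        rw [ENNReal.mul_div_cancel_right h2 ENNReal.ofReal_ne_top]
    _ = 1 := by rw [h, ENNReal.div_self h2 ENNReal.ofReal_ne_top]

lemma EE_total1 (m : ℕ) (j : Fin m) : ∫⁻ X : Fin m → ℝ, (∏ i, EE (X i)) * ENNReal.ofReal (X j) = 1 := by
  have h := pi1 (m := m) (a := 1) (b := 1) one_pos one_pos (fun _ => 0) j 0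
  have h1 : ∀ m : ℕ, gL 1 1 (List.ofFn (fun _ : Fin m => (0:ℝ))) = phi 1 1 := by
    intro m
    induction m with
    | zero => rfl
    | succ m ih => rw [List.ofFn_succ]; simp only [gL]; rw [ih, T_zero]
  rw [h1, T_zero] at h
  have hp : 0 < phi 1 1 0 := phi_pos one_pos one_pos 0
  simp only [zero_mul, Finset.sum_const_zero, sub_zero, ← mul_assoc] at h
  have hm : Measurable (fun X : Fin m → ℝ => (∏ i, EE (X i)) * ENNReal.ofReal (X j)) :=
    prodEE_meas.mul (measurable_pi_apply j).ennreal_ofReal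
  rw [lintegral_mul_const _ hm] at h
  have h2 : ENNReal.ofReal (phi 1 1 0) ≠ 0 := by
    rw [ne_eq, ENNReal.ofReal_eq_zero, not_le]; exact hp
  calc ∫⁻ X : Fin m → ℝ, (∏ i, EE (X i)) * ENNReal.ofReal (X j)
      = (∫⁻ X : Fin m → ℝ, (∏ i, EE (X i)) * ENNReal.ofReal (X j)) * ENNReal.ofReal (phi 1 1 0) / ENNReal.ofReal (phi 1 1 0) := by
        rw [ENNReal.mul_div_cancel_right h2 ENNReal.ofReal_ne_top]
    _ = 1 := by rw [h, ENNReal.div_self h2 ENNReal.ofReal_ne_top]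

section
variable {u : Fin (d+2) → Fin d → ℝ} {w z : Fin (d+2) → ℝ}

lemma w_succ (hd : 0 < d) (hJ : Jn u w) (hZ : Zc u w z) (hw0 : w 0 = 0) :
    z 0 ^ 2 = 1 ∧ ∀ i : Fin (d+1), w i.succ = 1 / (d + 1) := by
  have h1 := row_rel hd hJ hZ 0 0
  rw [if_pos rfl, hw0, Real.sqrt_zero, zero_mul, zero_mul, add_zero] at h1
  refine ⟨by rw [sq]; exact h1, ?_⟩
  intro i
  have h2 := row_rel hd hJ hZ 0 i.succ
  rw [if_neg (Fin.succ_ne_zero i).symm, hw0, Real.sqrt_zero, zero_mul, zero_mul, add_zero] at h2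
  have h3 : z i.succ = 0 := by
    rcases mul_eq_zero.1 h2 with h | h
    · rw [h] at h1; simp at h1
    · exact h
  have h4 := row_rel hd hJ hZ i.succ i.succ
  rw [if_pos rfl, h3, Real.mul_self_sqrt (hJ.nonneg _), hJ.unit, mul_zero, zero_add, mul_one] at h4
  have h5 : (0:ℝ) < d + 1 := by positivity
  rw [eq_div_iff h5.ne']
  linarith

lemma Jn.delta (hJ : Jn u w) (hw0 : w 0 = 0) : Jn (fun i : Fin (d+1) => u i.succ) (fun i => w i.succ) where
  unit i := hJ.unit i.succ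
  nonneg i := hJ.nonneg i.succ
  sum := by
    have := hJ.sum
    rw [Fin.sum_univ_succ, hw0, zero_add] at this
    exact this
  bary j := by
    have := hJ.bary j
    rw [Fin.sum_univ_succ, hw0, zero_mul, zero_add] at this
    exact this
  frame j k := by
    have := hJ.frame j k
    rw [Fin.sum_univ_succ, hw0, zero_mul, zero_add] at this
    exact this

lemma pointwise_delta (hJ : Jn u w) (hw0 : w 0 = 0) (hw : ∀ i : Fin (d+1), 0 < w i.succ)
    (p : ℝ × (Fin d → ℝ)) :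
    (KK (fun i : Fin (d+1) => u i.succ)).indicator (fun p => ENNReal.ofReal (Real.exp (-p.1))) p =
    ∏ i, EE (XX u w p i) := by
  obtain ⟨t, x⟩ := p
  have hs1 := wsum (hJ.delta hw0) t x
  by_cases hp : (t, x) ∈ KK (fun i : Fin (d+1) => u i.succ)
  · rw [indicator_of_mem hp]
    have hX : ∀ i, 0 ≤ XX u w (t, x) i := fun i =>
      mul_nonneg (hw _).le (sub_nonneg.2 (hp i))
    have h5 : ∏ i, EE (XX u w (t, x) i) = ENNReal.ofReal (Real.exp (-∑ i, XX u w (t, x) i)) := by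
      rw [← Finset.sum_neg_distrib, Real.exp_sum, ENNReal.ofReal_prod_of_nonneg (fun i _ => (Real.exp_pos _).le)]
      exact Finset.prod_congr rfl (fun i _ => EE_of_nonneg (hX i))
    rw [h5]
    have h6 : ∑ i, XX u w (t, x) i = ∑ i : Fin (d+1), w i.succ * (t - u i.succ ⬝ᵥ x) := rfl
    rw [h6, hs1]
  · rw [indicator_of_notMem hp]
    have hex : ∃ i : Fin (d+1), t - u i.succ ⬝ᵥ x < 0 := by
      by_contra hcon
      push Not at hcon
      exact hp (fun i => sub_nonneg.1 (hcon i))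
    obtain ⟨i, hi⟩ := hex
    rw [Finset.prod_eq_zero (Finset.mem_univ i)]
    exact EE_of_neg (mul_neg_of_pos_of_neg (hw _) hi)

theorem caseI_norm (hd : 0 < d) (hJ : Jn u w) (hZ : Zc u w z) (hw0 : w 0 = 0)
    (hc : ∀ v : Fin d → ℝ, ∫ p in KK u, Real.exp (-p.1) * (v ⬝ᵥ p.2) = 0) :
    (volume (PP u 1)).toReal ^ 2 = vsq d := by
  have hd' : (0:ℝ) < d := by exact_mod_cast hd
  obtain ⟨hz0, hws⟩ := w_succ hd hJ hZ hw0
  have hwp : ∀ i : Fin (d+1), 0 < w i.succ := fun i => by rw [hws]; positivity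
  have hD := MM_det_sq hd hJ hZ
  simp only [hz0, hws, Finset.prod_const, Finset.card_univ, Fintype.card_fin, mul_one] at hD
  have hdet : (MM u w).det ≠ 0 := by
    intro h
    rw [h] at hD
    have : (0:ℝ) < (1 / ((d:ℝ) + 1)) ^ (d + 1) * (1 / (d:ℝ)) ^ d := by positivity
    rw [← hD] at this
    simp at this
  set uD : Fin (d+1) → Fin d → ℝ := fun i => u i.succ with huD
  have hJD := hJ.delta hw0
  rw [← huD] at hJD
  -- F for the simplex
  have hE0 : ∫⁻ p in KK uD, ENNReal.ofReal (Real.exp (-p.1)) = ENNReal.ofReal |(MM u w).det⁻¹| := by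
    rw [← lintegral_indicator (KK_meas uD)]
    have := cov (u := u) (w := w) hdet prodEE_meas
    rw [EE_total, mul_one] at this
    rw [← this]
    exact lintegral_congr (fun p => pointwise_delta hJ hw0 hwp p)
  have hF0 : ∫ p in KK uD, Real.exp (-p.1) = |(MM u w).det⁻¹| := by
    rw [← ofReal_integral_eq_lintegral_ofReal hJD.F0.1 (ae_of_all _ (fun p => (Real.exp_pos _).le))] at hE0
    exact (ENNReal.ofReal_eq_ofReal_iff (integral_nonneg (fun p => (Real.exp_pos _).le)) (abs_nonneg _)).1 hE0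
  have hE1 : ∀ j : Fin (d+1), ∫⁻ p in KK uD, ENNReal.ofReal (w j.succ * (p.1 - u j.succ ⬝ᵥ p.2)) *
      ENNReal.ofReal (Real.exp (-p.1)) = ENNReal.ofReal |(MM u w).det⁻¹| := by
    intro j
    rw [← lintegral_indicator (KK_meas uD)]
    have := cov (u := u) (w := w) hdet (F := fun X => (∏ i, EE (X i)) * ENNReal.ofReal (X j))
      (prodEE_meas.mul (measurable_pi_apply j).ennreal_ofReal)
    rw [EE_total1, mul_one] at this
    rw [← this]
    refine lintegral_congr (fun p => ?_)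
    rw [← pointwise_delta hJ hw0 hwp p]
    by_cases hp : p ∈ KK uD
    · rw [indicator_of_mem hp, indicator_of_mem hp, mul_comm]; rfl
    · rw [indicator_of_notMem hp, indicator_of_notMem hp, zero_mul]
  have hcD : ∀ j : Fin (d+1), ∫ p in KK uD, Real.exp (-p.1) * (u j.succ ⬝ᵥ p.2) = 0 := by
    intro j
    have h1 := hJD.F1
    have h2 := hJD.int_dot (u j.succ)
    have hi : IntegrableOn (fun p : ℝ × (Fin d → ℝ) => w j.succ * (p.1 - u j.succ ⬝ᵥ p.2) * Real.exp (-p.1)) (KK uD) := by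
      have e : (fun p : ℝ × (Fin d → ℝ) => w j.succ * (p.1 - u j.succ ⬝ᵥ p.2) * Real.exp (-p.1))
        = fun p => w j.succ * (Real.exp (-p.1) * p.1 - Real.exp (-p.1) * (u j.succ ⬝ᵥ p.2)) := by
        funext p; ring
      rw [e]
      exact (h1.1.sub h2).const_mul _
    have hnn : ∀ᵐ p ∂(volume.restrict (KK uD)), 0 ≤ w j.succ * (p.1 - u j.succ ⬝ᵥ p.2) * Real.exp (-p.1) := by
      filter_upwards [ae_restrict_mem (KK_meas uD)] with p hp
      exact mul_nonneg (mul_nonneg (hwp _).le (sub_nonneg.2 (hp j))) (Real.exp_pos _).le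
    have h3 : ∫ p in KK uD, w j.succ * (p.1 - u j.succ ⬝ᵥ p.2) * Real.exp (-p.1) = |(MM u w).det⁻¹| := by
      have h4 : ENNReal.ofReal (∫ p in KK uD, w j.succ * (p.1 - u j.succ ⬝ᵥ p.2) * Real.exp (-p.1))
          = ENNReal.ofReal |(MM u w).det⁻¹| := by
        rw [ofReal_integral_eq_lintegral_ofReal hi hnn, ← hE1 j]
        refine setLIntegral_congr_fun (KK_meas uD) (fun p hp => ?_)
        rw [ENNReal.ofReal_mul (mul_nonneg (hwp _).le (sub_nonneg.2 (hp j)))]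
      exact (ENNReal.ofReal_eq_ofReal_iff (integral_nonneg_of_ae hnn) (abs_nonneg _)).1 h4
    have e : (fun p : ℝ × (Fin d → ℝ) => w j.succ * (p.1 - u j.succ ⬝ᵥ p.2) * Real.exp (-p.1))
        = fun p => w j.succ * (Real.exp (-p.1) * p.1 - Real.exp (-p.1) * (u j.succ ⬝ᵥ p.2)) := by
        funext p; ring
    rw [e, integral_const_mul, integral_sub h1.1 h2, h1.2, hF0, hws j] at h3
    have h5 : (0:ℝ) < d + 1 := by positivity
    field_simp at h3
    linarith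
  have hcDv : ∀ v : Fin d → ℝ, ∫ p in KK uD, Real.exp (-p.1) * (v ⬝ᵥ p.2) = 0 := by
    intro v
    have e : ∀ p : ℝ × (Fin d → ℝ), Real.exp (-p.1) * (v ⬝ᵥ p.2)
        = ∑ i : Fin (d+1), (d * (w i.succ * (u i.succ ⬝ᵥ v))) * (Real.exp (-p.1) * (u i.succ ⬝ᵥ p.2)) := by
      intro p
      have h1 := hJD.dot_dot v p.2
      have h2 : v ⬝ᵥ p.2 = d * ∑ i : Fin (d+1), w i.succ * ((uD i ⬝ᵥ v) * (uD i ⬝ᵥ p.2)) := by
        rw [h1]; field_simp
      rw [h2, Finset.mul_sum, Finset.mul_sum]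
      exact Finset.sum_congr rfl (fun i _ => by rw [huD]; ring)
    simp only [e]
    rw [integral_finsetSum]
    · refine Finset.sum_eq_zero (fun i _ => ?_)
      rw [integral_const_mul, hcD, mul_zero]
    · intro i _
      exact (hJD.int_dot (u i.succ)).const_mul _
  -- compare
  have hsub : KK u ⊆ KK uD := fun p hp i => hp i.succ
  have hFle : ∫ p in KK u, Real.exp (-p.1) ≤ ∫ p in KK uD, Real.exp (-p.1) :=
    setIntegral_mono_set hJD.F0.1 (ae_of_all _ (fun p => (Real.exp_pos _).le)) hsub.eventuallyLE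
  have hd1 : ∫ p in KK uD \ KK u, Real.exp (-p.1) * (u 0 ⬝ᵥ p.2) = 0 := by
    rw [setIntegral_sdiff (KK_meas u) (hJD.int_dot (u 0)) hsub, hcDv, hc, sub_zero]
  have hd2 : ∫ p in KK uD \ KK u, Real.exp (-p.1) * p.1
      = (d + 1) * (∫ p in KK uD, Real.exp (-p.1)) - (d + 1) * ∫ p in KK u, Real.exp (-p.1) := by
    rw [setIntegral_sdiff (KK_meas u) hJD.F1.1 hsub, hJD.F1.2, hJ.F1.2]
  have hd3 : ∫ p in KK uD \ KK u, Real.exp (-p.1) * p.1 ≤ ∫ p in KK uD \ KK u, Real.exp (-p.1) * (u 0 ⬝ᵥ p.2) := by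
    refine setIntegral_mono_on (hJD.F1.1.mono_set sdiff_subset) ((hJD.int_dot (u 0)).mono_set sdiff_subset)
      ((KK_meas uD).diff (KK_meas u)) (fun p hp => ?_)
    refine mul_le_mul_of_nonneg_left ?_ (Real.exp_pos _).le
    by_contra hcon
    push Not at hcon
    apply hp.2
    intro i
    induction i using Fin.cases with
    | zero => exact hcon.le
    | succ i => exact hp.1 i
  have hFeq : ∫ p in KK u, Real.exp (-p.1) = |(MM u w).det⁻¹| := by
    rw [hd1, hd2] at hd3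
    rw [hF0] at hFle hd3
    have h5 : (0:ℝ) < d + 1 := by positivity
    have h6 : |(MM u w).det⁻¹| ≤ ∫ p in KK u, Real.exp (-p.1) := by
      by_contra hcon
      push Not at hcon
      nlinarith
    exact le_antisymm hFle h6
  rw [hJ.F0.2] at hFeq
  set V := (volume (PP u 1)).toReal
  have hsq : (d.factorial * V) ^ 2 * (MM u w).det ^ 2 = 1 := by
    rw [hFeq, sq_abs, inv_pow]
    have : (MM u w).det ^ 2 ≠ 0 := pow_ne_zero 2 hdet
    field_simp
  rw [hD] at hsq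
  have hfac : (0:ℝ) < d.factorial := Nat.cast_pos.2 (Nat.factorial_pos d)
  unfold vsq
  have h7 : (1 / (d:ℝ)) ^ d * (d:ℝ) ^ d = 1 := by
    rw [← mul_pow]; field_simp; simp
  have h8 : (1 / ((d:ℝ) + 1)) ^ (d + 1) * ((d:ℝ) + 1) ^ (d + 1) = 1 := by
    rw [← mul_pow]
    have : (1 / ((d:ℝ) + 1)) * (d + 1) = 1 := by field_simp
    rw [this, one_pow]
  rw [eq_div_iff (by positivity)]
  calc V ^ 2 * (d.factorial : ℝ) ^ 2
      = (d.factorial * V) ^ 2 * (((1 / (d:ℝ)) ^ d * (d:ℝ) ^ d) * ((1 / ((d:ℝ) + 1)) ^ (d + 1) * ((d:ℝ) + 1) ^ (d + 1))) := by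
        rw [h7, h8]; ring
    _ = ((d.factorial * V) ^ 2 * ((1 / ((d:ℝ) + 1)) ^ (d + 1) * (1 / (d:ℝ)) ^ d)) * ((d:ℝ) ^ d * ((d:ℝ) + 1) ^ (d + 1)) := by ring
    _ = _ := by rw [hsq]; ring

end

theorem caseI {u : Fin (d+2) → Fin d → ℝ} {w : Fin (d+2) → ℝ} (hd : 0 < d) (hJ : Jn u w) {i0 : Fin (d+2)}
    (hw : w i0 = 0) (hc : ∀ v : Fin d → ℝ, ∫ p in KK u, Real.exp (-p.1) * (v ⬝ᵥ p.2) = 0) :
    (volume (PP u 1)).toReal ^ 2 = vsq d := by
  set σ := Equiv.swap (0 : Fin (d+2)) i0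
  have hJσ := hJ.perm σ
  obtain ⟨z, hZ⟩ := exists_Zc (u ∘ σ) (w ∘ σ)
  have h := caseI_norm hd hJσ hZ (by
    simp only [Function.comp]
    rw [show σ 0 = i0 from Equiv.swap_apply_left 0 i0]; exact hw) (by
    intro v; rw [KK_perm]; exact hc v)
  rw [PP_perm] at h
  exact h

/-- the structure theorem for minimisers -/
theorem minimiser {u : Fin (d+2) → Fin d → ℝ} (hd : 0 < d) (hu : ∀ i, u i ⬝ᵥ u i = 1)
    (hfin : volume (PP u 1) ≠ ∞)
    (hmin : ∀ u' : Fin (d+2) → Fin d → ℝ, (∀ i, u' i ⬝ᵥ u' i = 1) → volume (PP u 1) ≤ volume (PP u' 1)) :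
    ∃ k j : ℕ, k + j ≤ d ∧ ((k = 0 ∧ j = 0) ∨ (1 ≤ k ∧ 1 ≤ j)) ∧
      (volume (PP u 1)).toReal ^ 2 = vsq d * (vsq k * vsq j / vsq (k + j)) ∧
      (k + j = d → ∃ A : Finset (Fin (d+2)), A.card = k + 1 ∧ Gram u A k j) := by
  obtain ⟨w, hJ⟩ := john hd hu hfin hmin
  have hc : ∀ v : Fin d → ℝ, ∫ p in KK u, Real.exp (-p.1) * (v ⬝ᵥ p.2) = 0 := centroid hJ hmin
  by_cases hw : ∀ i, 0 < w i
  · exact caseII hd hJ hw hc
  · push Not at hw
    obtain ⟨i0, hi0⟩ := hw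
    have hw0 : w i0 = 0 := le_antisymm hi0 (hJ.nonneg i0)
    refine ⟨0, 0, Nat.zero_le _, Or.inl ⟨rfl, rfl⟩, ?_, ?_⟩
    · rw [caseI hd hJ hw0 hc, vsq_zero]; simp
    · intro h; omega

end Pool.Agent.Work.MP_1c7b0d_gt
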