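import Pool.Agent.Work.MP_1c7b0d_gt.Geom10

open MeasureTheory Set Filter Topology
open scoped ENNReal

namespace Pool.Agent.Work.MP_1c7b0d_gt

variable {d : ℕ}

lemma rows_to_J {u : Fin (d+2) → Fin d → ℝ} {w z : Fin (d+2) → ℝ} (hd : 0 < d) (hu : ∀ i, u i ⬝ᵥ u i = 1)
    (hw : ∀ i, 0 ≤ w i) (hrow : ∀ i j, z i * z j + Real.sqrt (w i) * Real.sqrt (w j) * (1 + d * (u i ⬝ᵥ u j))
      = if i = j then 1 else 0) : Jn u w ∧ Zc u w z := by
  have hd' : (0:ℝ) < d := by exact_mod_cast hd
  have hsq : ∀ i, Real.sqrt (w i) * Real.sqrt (w i) = w i := fun i => Real.mul_self_sqrt (hw i)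
  have hsd : Real.sqrt d * Real.sqrt d = d := Real.mul_self_sqrt (Nat.cast_nonneg d)
  have hsd0 : Real.sqrt d ≠ 0 := (Real.sqrt_pos.2 hd').ne'
  have h1 : Om u w z * (Om u w z).transpose = 1 := by
    ext i j
    rw [Matrix.mul_apply]
    simp only [Matrix.transpose_apply, Om, Matrix.of_apply]
    rw [Fin.sum_univ_succ, Fin.sum_univ_succ]
    simp only [Fin.cons_zero, Fin.cons_succ]
    rw [Matrix.one_apply, ← hrow i j]
    have h2 : ∑ x, -√↑d * (√(w i) * u i x) * (-√↑d * (√(w j) * u j x))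
        = √(w i) * √(w j) * (d * (u i ⬝ᵥ u j)) := by
      rw [dotProduct, Finset.mul_sum, Finset.mul_sum]
      refine Finset.sum_congr rfl (fun x _ => ?_)
      calc -√↑d * (√(w i) * u i x) * (-√↑d * (√(w j) * u j x))
          = (√d * √d) * (√(w i) * √(w j) * (u i x * u j x)) := by ring
        _ = _ := by rw [hsd]; ring
    rw [h2]
    ring
  have h := mul_eq_one_comm.1 h1
  have hent : ∀ k l, ∑ i, Om u w z i k * Om u w z i l = if k = l then 1 else 0 := by
    intro k l
    have := congrFun (congrFun h k) l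
    rw [Matrix.mul_apply, Matrix.one_apply] at this
    simpa only [Matrix.transpose_apply] using this
  have c0 : ∀ i, Om u w z i 0 = z i := fun i => rfl
  have c1 : ∀ i, Om u w z i (Fin.succ 0) = Real.sqrt (w i) := fun i => rfl
  have c2 : ∀ i (j : Fin d), Om u w z i j.succ.succ = -(Real.sqrt d) * (Real.sqrt (w i) * u i j) := fun i j => rfl
  refine ⟨⟨hu, hw, ?_, ?_, ?_⟩, ⟨?_, ?_, ?_⟩⟩
  · have := hent (Fin.succ 0) (Fin.succ 0)
    simp only [c1, hsq, if_true] at this
    exact this
  · intro j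
    have := hent (Fin.succ 0) j.succ.succ
    rw [if_neg (fun h => Fin.succ_ne_zero _ (Fin.succ_injective _ h).symm)] at this
    simp only [c1, c2] at this
    have e : ∀ i, √(w i) * (-√↑d * (√(w i) * u i j)) = (-√d) * (w i * u i j) := by
      intro i
      calc √(w i) * (-√↑d * (√(w i) * u i j)) = (-√d) * ((√(w i) * √(w i)) * u i j) := by ring
        _ = _ := by rw [hsq]
    simp only [e, ← Finset.mul_sum] at this
    rcases mul_eq_zero.1 this with h5 | h5
    · exact absurd (neg_eq_zero.1 h5) hsd0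
    · exact h5
  · intro j k
    have := hent j.succ.succ k.succ.succ
    simp only [c2] at this
    have e : ∀ i, -√↑d * (√(w i) * u i j) * (-√↑d * (√(w i) * u i k)) = d * (w i * (u i j * u i k)) := by
      intro i
      calc -√↑d * (√(w i) * u i j) * (-√↑d * (√(w i) * u i k))
          = (√d * √d) * ((√(w i) * √(w i)) * (u i j * u i k)) := by ring
        _ = _ := by rw [hsq, hsd]
    simp only [e, ← Finset.mul_sum] at this
    by_cases hjk : j = k
    · subst hjk
      rw [if_pos rfl] at this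
      rw [if_pos rfl, eq_div_iff hd'.ne']
      linarith
    · have hne : ¬ (j.succ.succ = k.succ.succ) := fun h => hjk (Fin.succ_injective _ (Fin.succ_injective _ h))
      rw [if_neg hne] at this
      rw [if_neg hjk]
      rcases mul_eq_zero.1 this with h5 | h5
      · exact absurd h5 hd'.ne'
      · exact h5
  · have := hent 0 0
    simp only [c0, if_true] at this
    exact this
  · have := hent 0 (Fin.succ 0)
    rw [if_neg (Fin.succ_ne_zero 0).symm] at this
    simp only [c0, c1] at this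
    exact this
  · intro j
    have := hent 0 j.succ.succ
    rw [if_neg (Fin.succ_ne_zero _).symm] at this
    simp only [c0, c2] at this
    have e : ∀ i, z i * (-√↑d * (√(w i) * u i j)) = (-√d) * (z i * (√(w i) * u i j)) := by
      intro i; ring
    simp only [e, ← Finset.mul_sum] at this
    rcases mul_eq_zero.1 this with h5 | h5
    · exact absurd (neg_eq_zero.1 h5) hsd0
    · exact h5

/-- the weights -/
noncomputable def wA (d k l : ℕ) (A : Finset (Fin (d+2))) (i : Fin (d+2)) : ℝ :=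
  if i ∈ A then (k:ℝ) / (d * (k + 1)) else (l:ℝ) / (d * (l + 1))

/-- the completing vector -/
noncomputable def zA (d k l : ℕ) (A : Finset (Fin (d+2))) (i : Fin (d+2)) : ℝ :=
  if i ∈ A then Real.sqrt ((l:ℝ) / (d * (k + 1))) else -Real.sqrt ((k:ℝ) / (d * (l + 1)))

section
variable {k l : ℕ} {A : Finset (Fin (d+2))}

lemma wA_pos (hd : 0 < d) (hk : 1 ≤ k) (hl : 1 ≤ l) (i : Fin (d+2)) : 0 < wA d k l A i := by
  have hd' : (0:ℝ) < d := by exact_mod_cast hd
  have hkr : (0:ℝ) < k := by exact_mod_cast hk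
  have hlr : (0:ℝ) < l := by exact_mod_cast hl
  unfold wA
  split_ifs <;> positivity

lemma sum_ind (A : Finset (Fin (d+2))) (hA : A.card = k + 1) (hkl : k + l = d) (x y : ℝ) :
    ∑ i, (if i ∈ A then x else y) = (k + 1) * x + (l + 1) * y := by
  have hc : (Aᶜ).card = l + 1 := by
    rw [Finset.card_compl, hA, Fintype.card_fin]; omega
  rw [← Finset.sum_add_sum_compl A]
  have h1 : ∑ i ∈ A, (if i ∈ A then x else y) = (k + 1) * x := by
    rw [Finset.sum_congr rfl (fun i hi => if_pos hi), Finset.sum_const, hA, nsmul_eq_mul]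
    push_cast; ring
  have h2 : ∑ i ∈ Aᶜ, (if i ∈ A then x else y) = (l + 1) * y := by
    rw [Finset.sum_congr rfl (fun i hi => if_neg (Finset.mem_compl.1 hi)), Finset.sum_const, hc, nsmul_eq_mul]
    push_cast; ring
  rw [h1, h2]

/-- mixed product of square roots -/
lemma sqrt_mix (hd : 0 < d) (k l : ℕ) :
    Real.sqrt ((l:ℝ) / (d * (k + 1))) * Real.sqrt ((k:ℝ) / (d * (l + 1)))
      = Real.sqrt ((k:ℝ) / (d * (k + 1))) * Real.sqrt ((l:ℝ) / (d * (l + 1))) := by
  have hd' : (0:ℝ) < d := by exact_mod_cast hd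
  rw [← Real.sqrt_mul (by positivity), ← Real.sqrt_mul (by positivity)]
  congr 1
  field_simp

lemma row_gram (hd : 0 < d) (hk : 1 ≤ k) (hl : 1 ≤ l) (hkl : k + l = d) {i j : Fin (d+2)} (g : ℝ)
    (hg : i ≠ j → g = if i ∈ A ∧ j ∈ A then -1 / (k:ℝ) else if i ∉ A ∧ j ∉ A then -1 / (l:ℝ) else 0)
    (hg1 : i = j → g = 1) :
    zA d k l A i * zA d k l A j + Real.sqrt (wA d k l A i) * Real.sqrt (wA d k l A j) * (1 + d * g)
      = if i = j then 1 else 0 := by
  have hd' : (0:ℝ) < d := by exact_mod_cast hd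
  have hkr : (0:ℝ) < k := by exact_mod_cast hk
  have hlr : (0:ℝ) < l := by exact_mod_cast hl
  have hdkl : (d:ℝ) = k + l := by rw [← hkl]; push_cast; ring
  have s1 : Real.sqrt ((l:ℝ) / (d * (k + 1))) * Real.sqrt ((l:ℝ) / (d * (k + 1))) = (l:ℝ) / (d * (k + 1)) :=
    Real.mul_self_sqrt (by positivity)
  have s2 : Real.sqrt ((k:ℝ) / (d * (l + 1))) * Real.sqrt ((k:ℝ) / (d * (l + 1))) = (k:ℝ) / (d * (l + 1)) :=
    Real.mul_self_sqrt (by positivity)
  have s3 : Real.sqrt ((k:ℝ) / (d * (k + 1))) * Real.sqrt ((k:ℝ) / (d * (k + 1))) = (k:ℝ) / (d * (k + 1)) :=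
    Real.mul_self_sqrt (by positivity)
  have s4 : Real.sqrt ((l:ℝ) / (d * (l + 1))) * Real.sqrt ((l:ℝ) / (d * (l + 1))) = (l:ℝ) / (d * (l + 1)) :=
    Real.mul_self_sqrt (by positivity)
  have s5 := sqrt_mix hd k l
  by_cases hij : i = j
  · subst hij
    rw [if_pos rfl, hg1 rfl]
    unfold zA wA
    by_cases hi : i ∈ A
    · simp only [if_pos hi]
      rw [s1, s3, mul_one]
      rw [hdkl] at *
      field_simp
      ring
    · simp only [if_neg hi]
      rw [neg_mul_neg, s2, s4, mul_one]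
      rw [hdkl] at *
      field_simp
      ring
  · rw [if_neg hij, hg hij]
    unfold zA wA
    by_cases hi : i ∈ A <;> by_cases hj : j ∈ A
    · simp only [hi, hj, if_true, and_self]
      rw [s1, s3]
      rw [hdkl] at *
      field_simp
      ring
    · simp only [hi, hj, if_true, if_false, and_false, not_true_eq_false, false_and, mul_zero, add_zero, mul_one]
      linarith
    · simp only [hi, hj, if_true, if_false, and_true, not_true_eq_false, and_false, mul_zero, add_zero, mul_one]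
      linarith
    · simp only [hi, hj, if_false, and_self, not_false_eq_true, if_true]
      rw [neg_mul_neg, s2, s4]
      rw [hdkl] at *
      field_simp
      ring

/-- the volume for a configuration with the product Gram pattern -/
theorem vol_of_gram (hk : 1 ≤ k) (hl : 1 ≤ l) (hkl : k + l = d) (hA : A.card = k + 1)
    {u : Fin (d+2) → Fin d → ℝ} (hu : ∀ i, u i ⬝ᵥ u i = 1) (hG : Gram u A k l) :
    volume (PP u 1) ≠ ∞ ∧ (volume (PP u 1)).toReal ^ 2 = vsq k * vsq l := by
  classical
  have hd : 0 < d := by omega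
  have hd' : (0:ℝ) < d := by exact_mod_cast hd
  have hkr : (0:ℝ) < k := by exact_mod_cast hk
  have hlr : (0:ℝ) < l := by exact_mod_cast hl
  have hdkl : (d:ℝ) = k + l := by rw [← hkl]; push_cast; ring
  -- reorder
  have hAne : A.Nonempty := Finset.card_pos.1 (by omega)
  have hAc : (Aᶜ).Nonempty := by
    rw [← Finset.card_pos, Finset.card_compl, hA, Fintype.card_fin]; omega
  obtain ⟨p, hp⟩ := hAne
  obtain ⟨q, hq⟩ := hAc
  rw [Finset.mem_compl] at hq
  have hpq : p ≠ q := fun h => hq (h ▸ hp)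
  obtain ⟨σ, hσ0, hσ1⟩ : ∃ σ : Equiv.Perm (Fin (d+2)), σ 0 = q ∧ σ 1 = p := by
    set π := Equiv.swap (0 : Fin (d+2)) q
    set r := π.symm p with hr
    have hr0 : r ≠ 0 := by
      intro h
      have h1 : π r = p := by rw [hr]; simp
      rw [h] at h1
      have h2 : π 0 = q := Equiv.swap_apply_left 0 q
      exact hpq (h1.symm.trans h2)
    have h01 : (0 : Fin (d+2)) ≠ 1 := by
      intro h
      have := congrArg Fin.val h
      simp at this
    refine ⟨(Equiv.swap 1 r).trans π, ?_, ?_⟩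
    · rw [Equiv.trans_apply, Equiv.swap_apply_of_ne_of_ne h01 hr0.symm]
      exact Equiv.swap_apply_left 0 q
    · rw [Equiv.trans_apply, Equiv.swap_apply_left]
      rw [hr]; simp
  obtain ⟨hJ, hZ⟩ := rows_to_J (w := wA d k l A) (z := zA d k l A) hd hu (fun i => (wA_pos hd hk hl i).le)
    (fun i j => row_gram hd hk hl hkl (u i ⬝ᵥ u j) (fun h => hG i j h) (fun h => by rw [h]; exact hu j))
  refine ⟨hJ.vol_lt_top.ne, ?_⟩
  have hJσ := hJ.perm σ
  have hZσ := hZ.perm σ
  have hwσ : ∀ i, 0 < (wA d k l A ∘ σ) i := fun i => wA_pos hd hk hl (σ i)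
  have hz0 : (zA d k l A ∘ σ) 0 < 0 := by
    simp only [Function.comp, hσ0, zA, if_neg hq]
    have : 0 < Real.sqrt ((k:ℝ) / (d * (l + 1))) := Real.sqrt_pos.2 (by positivity)
    linarith
  have hz1 : 0 < (zA d k l A ∘ σ) 1 := by
    simp only [Function.comp, hσ1, zA, if_pos hp]
    exact Real.sqrt_pos.2 (by positivity)
  have hb := tau_neg hwσ hz0
  have ha := tau_pos hwσ hz1
  set a := tau d (wA d k l A ∘ σ) (zA d k l A ∘ σ) 1 with hadef
  set b := -tau d (wA d k l A ∘ σ) (zA d k l A ∘ σ) 0 with hbdef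
  have hb' : 0 < b := by linarith
  have h3 : tau d (wA d k l A ∘ σ) (zA d k l A ∘ σ) 0 = -b := by rw [hbdef]; ring
  have hab : -b ≠ a := by linarith
  have hτ : ∀ i, tau d (wA d k l A ∘ σ) (zA d k l A ∘ σ) i = if σ i ∈ A then a else -b := by
    intro i
    by_cases hi : σ i ∈ A
    · rw [if_pos hi, hadef]
      unfold tau
      simp only [Function.comp, hσ1, zA, wA, if_pos hi, if_pos hp]
    · rw [if_neg hi, ← h3]
      unfold tau
      simp only [Function.comp, hσ0, zA, wA, if_neg hi, if_neg hq]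
  have hLmem : ∀ s ∈ Lt d (wA d k l A ∘ σ) (zA d k l A ∘ σ), s = a ∨ s = -b := by
    intro s hs
    unfold Lt at hs
    rw [List.mem_ofFn] at hs
    obtain ⟨j, hj⟩ := hs
    rw [← hj, hτ]
    split_ifs
    · exact Or.inl rfl
    · exact Or.inr rfl
  obtain ⟨k', j', hkj', hperm⟩ := exists_KJ _ hLmem
  have hlen : (Lt d (wA d k l A ∘ σ) (zA d k l A ∘ σ)).length = d := by simp [Lt]
  rw [hlen] at hkj'
  -- count
  have hcount : ∑ i, (if tau d (wA d k l A ∘ σ) (zA d k l A ∘ σ) i = a then 1 else 0) = k + 1 := by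
    have e : ∀ i, (if tau d (wA d k l A ∘ σ) (zA d k l A ∘ σ) i = a then 1 else 0) = if σ i ∈ A then 1 else 0 := by
      intro i
      rw [hτ]
      by_cases hi : σ i ∈ A
      · simp [hi]
      · simp [hi, hab]
    simp only [e]
    rw [Equiv.sum_comp σ (fun i => if i ∈ A then 1 else 0)]
    simp [hA]
  have hk' : k' = k := by
    rw [Fin.sum_univ_succ, Fin.sum_univ_succ (n := d), h3, if_neg hab] at hcount
    have h4' : tau d (wA d k l A ∘ σ) (zA d k l A ∘ σ) (Fin.succ 0) = a := rfl
    rw [h4', if_pos rfl] at hcount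
    have h8 := (hperm.map (fun x => if x = a then (1:ℕ) else 0)).sum_eq
    simp only [Lt, List.map_ofFn, List.sum_ofFn, Function.comp, KJ, List.map_append, List.map_replicate,
      List.sum_append, List.sum_replicate, if_true, if_neg hab, smul_eq_mul, mul_one, mul_zero, add_zero] at h8
    omega
  have hj' : j' = l := by omega
  subst hk' hj'
  have hvol := vol_formula hd hwσ hJσ hZσ ha hb' h3 rfl
  rw [PP_perm] at hvol
  rw [hvol]
  have hprod : ((a :: -b :: Lt d (wA d k' j' A ∘ σ) (zA d k' j' A ∘ σ)).map (fun σ => 1 + σ ^ 2)).prod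
      = (1 + a ^ 2) ^ (k' + 1) * (1 + b ^ 2) ^ (j' + 1) := by
    have h8 := (hperm.map (fun x => 1 + x ^ 2)).prod_eq
    simp only [List.map_cons, List.prod_cons]
    rw [h8]
    simp only [KJ, List.map_append, List.map_replicate, List.prod_append, List.prod_replicate, neg_sq]
    ring
  rw [hprod, gL_perm ha hb' hperm]
  -- the relations for a, b
  have hta : a = Real.sqrt ((j':ℝ) / (k' * (d + 1))) := by
    rw [hadef]; unfold tau
    simp only [Function.comp, hσ1, zA, wA, if_pos hp]
    rw [← Real.sqrt_mul (by positivity), ← Real.sqrt_div' _ (by positivity)]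
    congr 1
    field_simp
  have htb : b = Real.sqrt ((k':ℝ) / (j' * (d + 1))) := by
    rw [hbdef]; unfold tau
    simp only [Function.comp, hσ0, zA, wA, if_neg hq]
    rw [← Real.sqrt_mul (by positivity), neg_div, neg_neg, ← Real.sqrt_div' _ (by positivity)]
    congr 1
    field_simp
  have hab1 : a * b = 1 / (d + 1) := by
    rw [hta, htb, ← Real.sqrt_mul (by positivity)]
    have : (j':ℝ) / (k' * (d + 1)) * (k' / (j' * (d + 1))) = (1 / (d + 1)) ^ 2 := by
      field_simp
    rw [this, Real.sqrt_sq (by positivity)]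
  have hb2 : b * b = (k':ℝ) / (j' * (d + 1)) := by
    rw [htb]; exact Real.mul_self_sqrt (by positivity)
  have h1 : (j':ℝ) * b = k' * a := by
    apply mul_right_cancel₀ hb'.ne'
    rw [mul_assoc, hb2, mul_assoc, hab1]
    field_simp
  have h2 : ((k':ℝ) + j' + 1) * (a * b) = 1 := by
    rw [hab1, ← hdkl]
    field_simp
  rw [N_value ha hb' hk hl h1 h2, hkl]
  have := vsq_pos d
  field_simp

end

end Pool.Agent.Work.MP_1c7b0d_gt
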