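import Pool.Agent.Work.MP_1c7b0d_gt.Closed

open MeasureTheory Set Filter Topology

namespace Pool.Agent.Work.MP_1c7b0d_gt

lemma log_ineq {s : ℝ} (hs : 0 < s) : 2 / (s + 1) < Real.log ((s + 2) / s) := by
  have h := Real.hasSum_log_one_add_inv (a := s / 2) (by positivity)
  have e : 1 + (s / 2)⁻¹ = (s + 2) / s := by field_simp
  rw [e] at h
  have h2 := sum_le_hasSum (Finset.range 2) (fun i _ => by positivity) h
  rw [Finset.sum_range_succ, Finset.sum_range_one] at h2
  have e2 : 2 * (s / 2) + 1 = s + 1 := by ring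
  rw [e2] at h2
  have h3 : (2:ℝ) * (1 / (2 * ((0:ℕ):ℝ) + 1)) * (1 / (s + 1)) ^ (2 * 0 + 1) = 2 / (s + 1) := by
    norm_num
    ring
  have h4 : 0 < (2:ℝ) * (1 / (2 * ((1:ℕ):ℝ) + 1)) * (1 / (s + 1)) ^ (2 * 1 + 1) := by positivity
  rw [h3] at h2
  linarith

lemma h_mono : StrictMonoOn (fun s : ℝ => (s + 2) * Real.log (s + 2) - s * Real.log s - 2 * Real.log (s + 1))
    (Ici 0) := by
  have hder : ∀ s : ℝ, 0 < s → HasDerivAt
      (fun s : ℝ => (s + 2) * Real.log (s + 2) - s * Real.log s - 2 * Real.log (s + 1))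
      (Real.log ((s + 2) / s) - 2 / (s + 1)) s := by
    intro s hs
    have d1 : HasDerivAt (fun s : ℝ => (s + 2) * Real.log (s + 2)) (Real.log (s + 2) + 1) s := by
      have h1 : HasDerivAt (fun s : ℝ => s + 2) 1 s := (hasDerivAt_id s).add_const 2
      have h2 := h1.mul (h1.log (by positivity))
      refine h2.congr_deriv ?_
      field_simp
    have d2 : HasDerivAt (fun s : ℝ => s * Real.log s) (Real.log s + 1) s := by
      have h1 : HasDerivAt (fun s : ℝ => s) 1 s := (hasDerivAt_id s)
      have h2 := h1.mul (h1.log (by positivity))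
      refine h2.congr_deriv ?_
      field_simp
    have d3 : HasDerivAt (fun s : ℝ => 2 * Real.log (s + 1)) (2 / (s + 1)) s := by
      have h1 : HasDerivAt (fun s : ℝ => s + 1) 1 s := (hasDerivAt_id s).add_const 1
      have h2 := (h1.log (by positivity)).const_mul 2
      refine h2.congr_deriv ?_
      ring
    refine ((d1.sub d2).sub d3).congr_deriv ?_
    rw [Real.log_div (by positivity) hs.ne']
    ring
  refine strictMonoOn_of_deriv_pos (convex_Ici 0) ?_ ?_
  · have c1 : ContinuousOn (fun s : ℝ => (s + 2) * Real.log (s + 2)) (Ici 0) := by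
      refine ContinuousOn.mul (by fun_prop) (ContinuousOn.log (by fun_prop) ?_)
      intro x hx
      have := mem_Ici.1 hx
      positivity
    have c2 : ContinuousOn (fun s : ℝ => s * Real.log s) (Ici 0) := Real.continuous_mul_log.continuousOn
    have c3 : ContinuousOn (fun s : ℝ => 2 * Real.log (s + 1)) (Ici 0) := by
      refine ContinuousOn.mul (by fun_prop) (ContinuousOn.log (by fun_prop) ?_)
      intro x hx
      have := mem_Ici.1 hx
      positivity
    exact (c1.sub c2).sub c3
  · intro s hs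
    rw [interior_Ici] at hs
    rw [(hder s hs).deriv]
    have := log_ineq hs
    linarith

/-- ratio of consecutive values -/
noncomputable def rr (k : ℕ) : ℝ := vsq (k + 1) / vsq k

lemma rr_pos (k : ℕ) : 0 < rr k := div_pos (vsq_pos _) (vsq_pos _)

lemma log_rr (k : ℕ) : Real.log (rr k)
    = ((k:ℝ) + 2) * Real.log (k + 2) - k * Real.log k - 2 * Real.log (k + 1) := by
  have e : rr k = ((k:ℝ) + 2) ^ (k + 2) / ((k:ℝ) ^ k * ((k:ℝ) + 1) ^ 2) := by
    unfold rr vsq
    rw [Nat.factorial_succ]
    push_cast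
    have h1 : (0:ℝ) < k.factorial := Nat.cast_pos.2 (Nat.factorial_pos k)
    have h2 : 0 < (k:ℝ) ^ k := by
      rcases Nat.eq_zero_or_pos k with h | h
      · subst h; simp
      · have : (0:ℝ) < k := Nat.cast_pos.2 h
        positivity
    have h3 : (k:ℝ) + 1 + 1 = k + 2 := by ring
    rw [h3]
    field_simp
  rw [e]
  have h2 : 0 < (k:ℝ) ^ k := by
    rcases Nat.eq_zero_or_pos k with h | h
    · subst h; simp
    · have : (0:ℝ) < k := Nat.cast_pos.2 h
      positivity
  rw [Real.log_div (by positivity) (by positivity), Real.log_mul (by positivity) (by positivity),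
    Real.log_pow, Real.log_pow, Real.log_pow]
  push_cast
  ring

lemma rr_strictMono : StrictMono rr := by
  intro i j hij
  rw [← Real.log_lt_log_iff (rr_pos i) (rr_pos j), log_rr, log_rr]
  exact h_mono (mem_Ici.2 (Nat.cast_nonneg i)) (mem_Ici.2 (Nat.cast_nonneg j)) (Nat.cast_lt.2 hij)

lemma vsq_succ (k : ℕ) : vsq (k + 1) = rr k * vsq k := by
  unfold rr
  rw [div_mul_cancel₀ _ (vsq_pos k).ne']

lemma vsq_step {j m : ℕ} (hjm : j ≤ m) (e : ℕ) :
    vsq (j + e) * vsq m ≤ vsq (m + e) * vsq j := by
  induction e with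
  | zero => simp [mul_comm]
  | succ e ih =>
    rw [← add_assoc, ← add_assoc, vsq_succ, vsq_succ]
    have h1 := rr_strictMono.monotone (show j + e ≤ m + e by omega)
    have h2 := rr_pos (j + e)
    have h3 := vsq_pos (j + e)
    have h4 := vsq_pos m
    calc rr (j + e) * vsq (j + e) * vsq m = rr (j + e) * (vsq (j + e) * vsq m) := by ring
      _ ≤ rr (m + e) * (vsq (j + e) * vsq m) := mul_le_mul_of_nonneg_right h1 (by positivity)
      _ ≤ rr (m + e) * (vsq (m + e) * vsq j) := mul_le_mul_of_nonneg_left ih (rr_pos _).le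
      _ = _ := by ring

lemma vsq_step_lt {j m : ℕ} (hjm : j < m) {e : ℕ} (he : 0 < e) :
    vsq (j + e) * vsq m < vsq (m + e) * vsq j := by
  obtain ⟨e, rfl⟩ := Nat.exists_eq_succ_of_ne_zero he.ne'
  have ih := vsq_step hjm.le e
  rw [Nat.succ_eq_add_one, ← add_assoc, ← add_assoc, vsq_succ, vsq_succ]
  have h1 := rr_strictMono (show j + e < m + e by omega)
  have h3 := vsq_pos (j + e)
  have h4 := vsq_pos m
  calc rr (j + e) * vsq (j + e) * vsq m = rr (j + e) * (vsq (j + e) * vsq m) := by ring
    _ < rr (m + e) * (vsq (j + e) * vsq m) := mul_lt_mul_of_pos_right h1 (by positivity)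
    _ ≤ rr (m + e) * (vsq (m + e) * vsq j) := mul_le_mul_of_nonneg_left ih (rr_pos _).le
    _ = _ := by ring

/-- product is minimised at the middle: comparison of `(k, n)` and `(k', n')` with `k ≤ k' ≤ n'`. -/
lemma vsq_mid {k k' d : ℕ} (h1 : k ≤ k') (h2 : 2 * k' ≤ d) :
    vsq k' * vsq (d - k') ≤ vsq k * vsq (d - k) := by
  have := vsq_step (j := k) (m := d - k') (by omega) (k' - k)
  have e1 : k + (k' - k) = k' := by omega
  have e2 : d - k' + (k' - k) = d - k := by omega
  rw [e1, e2] at this
  linarith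

lemma vsq_mid_lt {k k' d : ℕ} (h1 : k < k') (h2 : 2 * k' ≤ d) :
    vsq k' * vsq (d - k') < vsq k * vsq (d - k) := by
  have := vsq_step_lt (j := k) (m := d - k') (by omega) (e := k' - k) (by omega)
  have e1 : k + (k' - k) = k' := by omega
  have e2 : d - k' + (k' - k) = d - k := by omega
  rw [e1, e2] at this
  linarith

lemma vsq_half (d k : ℕ) (hk : k ≤ d) : vsq (d / 2) * vsq (d - d / 2) ≤ vsq k * vsq (d - k) := by
  rcases le_total k (d / 2) with h | h
  · exact vsq_mid h (by omega)
  · rcases le_total (d - k) (d / 2) with h' | h'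
    · have := vsq_mid (k := d - k) (k' := d / 2) (d := d) h' (by omega)
      have e : d - (d - k) = k := by omega
      rw [e] at this
      linarith
    · have : k = d / 2 ∨ k = d - d / 2 := by omega
      rcases this with h3 | h3
      · rw [h3]
      · subst h3
        have e : d - (d - d / 2) = d / 2 := by omega
        rw [e]
        linarith [mul_comm (vsq (d / 2)) (vsq (d - d / 2))]

lemma vsq_half_lt (d k : ℕ) (hk : k ≤ d) (h1 : k ≠ d / 2) (h2 : k ≠ d - d / 2) :
    vsq (d / 2) * vsq (d - d / 2) < vsq k * vsq (d - k) := by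
  rcases lt_or_gt_of_ne h1 with h | h
  · exact vsq_mid_lt h (by omega)
  · have h' : d - k < d / 2 := by omega
    have := vsq_mid_lt (k := d - k) (k' := d / 2) (d := d) h' (by omega)
    have e : d - (d - k) = k := by omega
    rw [e] at this
    linarith

lemma final_ineq {d k j : ℕ} (hd : 2 ≤ d) (hkj : k + j ≤ d)
    (h : (k = 0 ∧ j = 0) ∨ (1 ≤ k ∧ 1 ≤ j)) :
    vsq (d / 2) * vsq (d - d / 2) ≤ vsq d * (vsq k * vsq j / vsq (k + j)) ∧
    (vsq d * (vsq k * vsq j / vsq (k + j)) = vsq (d / 2) * vsq (d - d / 2) →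
      k + j = d ∧ (k = d / 2 ∨ j = d / 2)) := by
  rcases h with ⟨h1, h2⟩ | ⟨h1, h2⟩
  · subst h1; subst h2
    simp only [add_zero, vsq_zero, mul_one, div_one]
    have := vsq_half_lt d 0 (by omega) (by omega) (by omega)
    rw [vsq_zero, one_mul, Nat.sub_zero] at this
    exact ⟨this.le, fun h => absurd h this.ne'⟩
  · have hm := vsq_pos (k + j)
    rcases Nat.lt_or_ge (k + j) d with hlt | hge
    · have h3 := vsq_step_lt (j := j) (m := k + j) (by omega) (e := d - (k + j)) (by omega)
      have e1 : k + j + (d - (k + j)) = d := by omega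
      have e2 : j + (d - (k + j)) = d - k := by omega
      rw [e1, e2] at h3
      have h4 := vsq_half d k (by omega)
      have h5 : vsq k * vsq (d - k) < vsq d * (vsq k * vsq j / vsq (k + j)) := by
        rw [← mul_div_assoc, lt_div_iff₀ hm]
        have := vsq_pos k
        nlinarith
      exact ⟨(h4.trans_lt h5).le, fun h => absurd h (h4.trans_lt h5).ne'⟩
    · have hd' : k + j = d := by omega
      rw [hd']
      have hdp := vsq_pos d
      have e : vsq d * (vsq k * vsq j / vsq d) = vsq k * vsq (d - k) := by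
        have : d - k = j := by omega
        rw [this]
        field_simp
      rw [e]
      refine ⟨vsq_half d k (by omega), fun h => ⟨rfl, ?_⟩⟩
      by_contra hcon
      push Not at hcon
      have := vsq_half_lt d k (by omega) hcon.1 (by omega)
      linarith

end Pool.Agent.Work.MP_1c7b0d_gt
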