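import Pool.Agent.Work.MP_1c7b0d_gt.Geom11
import Pool.Agent.Work.MP_1c7b0d_gt.Numbers

open MeasureTheory Set Filter Topology
open scoped ENNReal

namespace Pool.Agent.Work.MP_1c7b0d_gt

variable {d : ℕ}

section
variable {k l : ℕ} {A : Finset (Fin (d+2))}

lemma zA_unit (hk : 1 ≤ k) (hkl : k + l = d) (hA : A.card = k + 1) :
    ∑ i, zA d k l A i * zA d k l A i = 1 := by
  have hd : 0 < d := by omega
  have hd' : (0:ℝ) < d := by exact_mod_cast hd
  have hdkl : (d:ℝ) = k + l := by rw [← hkl]; push_cast; ring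
  have e : ∀ i, zA d k l A i * zA d k l A i = if i ∈ A then (l:ℝ) / (d * (k + 1)) else (k:ℝ) / (d * (l + 1)) := by
    intro i
    unfold zA
    split_ifs
    · exact Real.mul_self_sqrt (by positivity)
    · rw [neg_mul_neg]; exact Real.mul_self_sqrt (by positivity)
  simp only [e]
  rw [sum_ind A hA hkl]
  field_simp
  linarith

lemma wA_unit (hk : 1 ≤ k) (hl : 1 ≤ l) (hkl : k + l = d) (hA : A.card = k + 1) :
    ∑ i, Real.sqrt (wA d k l A i) * Real.sqrt (wA d k l A i) = 1 := by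
  have hd : 0 < d := by omega
  have hd' : (0:ℝ) < d := by exact_mod_cast hd
  have hdkl : (d:ℝ) = k + l := by rw [← hkl]; push_cast; ring
  have e : ∀ i, Real.sqrt (wA d k l A i) * Real.sqrt (wA d k l A i)
      = if i ∈ A then (k:ℝ) / (d * (k + 1)) else (l:ℝ) / (d * (l + 1)) := by
    intro i
    rw [Real.mul_self_sqrt (wA_pos hd hk hl i).le]
    rfl
  simp only [e]
  rw [sum_ind A hA hkl]
  field_simp
  linarith

lemma zwA (hk : 1 ≤ k) (hkl : k + l = d) (hA : A.card = k + 1) :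
    ∑ i, zA d k l A i * Real.sqrt (wA d k l A i) = 0 := by
  have hd : 0 < d := by omega
  have hd' : (0:ℝ) < d := by exact_mod_cast hd
  set c := Real.sqrt ((k:ℝ) * l) with hc
  have e1 : Real.sqrt ((l:ℝ) / (d * (k + 1))) * Real.sqrt ((k:ℝ) / (d * (k + 1))) = c / (d * (k + 1)) := by
    rw [← Real.sqrt_mul (by positivity)]
    have : (l:ℝ) / (d * (k + 1)) * (k / (d * (k + 1))) = (k * l) / (d * (k + 1)) ^ 2 := by
      field_simp
    rw [this, Real.sqrt_div' _ (by positivity), Real.sqrt_sq (by positivity)]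
  have e2 : Real.sqrt ((k:ℝ) / (d * (l + 1))) * Real.sqrt ((l:ℝ) / (d * (l + 1))) = c / (d * (l + 1)) := by
    rw [← Real.sqrt_mul (by positivity)]
    have : (k:ℝ) / (d * (l + 1)) * (l / (d * (l + 1))) = (k * l) / (d * (l + 1)) ^ 2 := by
      field_simp
    rw [this, Real.sqrt_div' _ (by positivity), Real.sqrt_sq (by positivity)]
  have e : ∀ i, zA d k l A i * Real.sqrt (wA d k l A i)
      = if i ∈ A then c / (d * (k + 1)) else -(c / (d * (l + 1))) := by
    intro i
    unfold zA wA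
    split_ifs
    · exact e1
    · rw [neg_mul, e2]
  simp only [e]
  rw [sum_ind A hA hkl]
  field_simp
  ring

theorem exists_gram (hk : 1 ≤ k) (hl : 1 ≤ l) (hkl : k + l = d) (hA : A.card = k + 1) :
    ∃ u : Fin (d+2) → Fin d → ℝ, (∀ i, u i ⬝ᵥ u i = 1) ∧ Gram u A k l := by
  have hd : 0 < d := by omega
  have hd' : (0:ℝ) < d := by exact_mod_cast hd
  set E := EuclideanSpace ℝ (Fin (d+2)) with hE
  set z : E := WithLp.toLp 2 (zA d k l A) with hz
  set s : E := WithLp.toLp 2 (fun i => Real.sqrt (wA d k l A i)) with hs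
  have h01 : (0 : Fin (d+2)) ≠ Fin.succ 0 := (Fin.succ_ne_zero 0).symm
  have hzz : inner ℝ z z = 1 := by
    rw [PiLp.inner_apply, ← zA_unit hk hkl hA]
    exact Finset.sum_congr rfl (fun i _ => by simp [hz, sq])
  have hss : inner ℝ s s = 1 := by
    rw [PiLp.inner_apply, ← wA_unit hk hl hkl hA]
    exact Finset.sum_congr rfl (fun i _ => by simp [hs, sq])
  have hzs : inner ℝ z s = 0 := by
    rw [PiLp.inner_apply, ← zwA hk hkl hA]
    exact Finset.sum_congr rfl (fun i _ => by simp [hz, hs, mul_comm])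
  set v : Fin (d+2) → E := fun i => if i = 0 then z else s with hv
  have hv0 : v 0 = z := by rw [hv]; simp
  have hv1 : v (Fin.succ 0) = s := by
    rw [hv]; exact if_neg h01.symm
  have horth : Orthonormal ℝ ((({0, Fin.succ 0} : Set (Fin (d+2)))).domRestrict v) := by
    rw [orthonormal_iff_ite]
    rintro ⟨i, hi⟩ ⟨j, hj⟩
    simp only [mem_insert_iff, mem_singleton_iff] at hi hj
    simp only [Set.domRestrict, Subtype.mk.injEq]
    rcases hi with hi | hi <;> rcases hj with hj | hj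
    · rw [hi, hj, hv0, if_pos rfl, hzz]
    · rw [hi, hj, hv0, hv1, if_neg h01, hzs]
    · rw [hi, hj, hv0, hv1, if_neg h01.symm, real_inner_comm, hzs]
    · rw [hi, hj, hv1, if_pos rfl, hss]
  obtain ⟨b, hb⟩ := horth.exists_orthonormalBasis_extension_of_card_eq finrank_euclideanSpace
  have hb0 : b 0 = z := by rw [hb 0 (by simp), hv0]
  have hb1 : b (Fin.succ 0) = s := by rw [hb (Fin.succ 0) (by simp), hv1]
  set O : Matrix (Fin (d+2)) (Fin (d+2)) ℝ := Matrix.of (fun i j => (b j) i) with hO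
  have hOO : O.transpose * O = 1 := by
    ext i j
    rw [Matrix.mul_apply, Matrix.one_apply]
    have := (orthonormal_iff_ite.1 b.orthonormal) i j
    rw [PiLp.inner_apply] at this
    rw [← this]
    refine Finset.sum_congr rfl (fun x _ => ?_)
    simp [hO, mul_comm]
  have hOO' : O * O.transpose = 1 := mul_eq_one_comm.1 hOO
  have hrow : ∀ i i', zA d k l A i * zA d k l A i' + (Real.sqrt (wA d k l A i) * Real.sqrt (wA d k l A i') +
      ∑ j : Fin d, (b j.succ.succ) i * (b j.succ.succ) i') = if i = i' then 1 else 0 := by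
    intro i i'
    have := congrFun (congrFun hOO' i) i'
    rw [Matrix.mul_apply, Matrix.one_apply, Fin.sum_univ_succ, Fin.sum_univ_succ] at this
    simp only [hO, Matrix.transpose_apply, Matrix.of_apply, hb0, hb1] at this
    exact this
  have hwp : ∀ i, 0 < wA d k l A i := wA_pos hd hk hl
  have hswp : ∀ i, 0 < Real.sqrt (wA d k l A i) := fun i => Real.sqrt_pos.2 (hwp i)
  have hsd : 0 < Real.sqrt d := Real.sqrt_pos.2 hd'
  have hsd2 : Real.sqrt d * Real.sqrt d = d := Real.mul_self_sqrt hd'.le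
  set u : Fin (d+2) → Fin d → ℝ := fun i j => (b j.succ.succ) i / (Real.sqrt d * Real.sqrt (wA d k l A i)) with hu
  have hdot : ∀ i i', u i ⬝ᵥ u i' = (∑ j : Fin d, (b j.succ.succ) i * (b j.succ.succ) i') /
      (d * (Real.sqrt (wA d k l A i) * Real.sqrt (wA d k l A i'))) := by
    intro i i'
    rw [dotProduct, Finset.sum_div]
    refine Finset.sum_congr rfl (fun j _ => ?_)
    simp only [hu]
    rw [div_mul_div_comm]
    congr 1
    calc √↑d * √(wA d k l A i) * (√↑d * √(wA d k l A i'))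
        = (√↑d * √↑d) * (√(wA d k l A i) * √(wA d k l A i')) := by ring
      _ = _ := by rw [hsd2]
  -- for any pair, value
  have hval : ∀ i i' (g : ℝ), zA d k l A i * zA d k l A i' + Real.sqrt (wA d k l A i) * Real.sqrt (wA d k l A i') * (1 + d * g)
      = (if i = i' then 1 else 0) → u i ⬝ᵥ u i' = g := by
    intro i i' g hg
    rw [hdot]
    have h1 := hrow i i'
    have h2 := hswp i
    have h3 := hswp i'
    have h4 : 0 < d * (Real.sqrt (wA d k l A i) * Real.sqrt (wA d k l A i')) := by positivity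
    rw [div_eq_iff h4.ne']
    linarith
  refine ⟨u, ?_, ?_⟩
  · intro i
    exact hval i i 1 (row_gram hd hk hl hkl 1 (fun h => absurd rfl h) (fun _ => rfl))
  · intro i i' hii'
    exact hval i i' _ (row_gram hd hk hl hkl _ (fun _ => rfl) (fun h => absurd h hii'))

end

/-- the minimal volume -/
noncomputable def cc (d : ℕ) : ℝ := Real.sqrt (vsq (d / 2) * vsq (d - d / 2))

lemma cc_pos (d : ℕ) : 0 < cc d := Real.sqrt_pos.2 (mul_pos (vsq_pos _) (vsq_pos _))

lemma cc_sq (d : ℕ) : cc d ^ 2 = vsq (d / 2) * vsq (d - d / 2) :=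
  Real.sq_sqrt (mul_pos (vsq_pos _) (vsq_pos _)).le

lemma exists_A (hd : 2 ≤ d) : ∃ A : Finset (Fin (d+2)), A.card = d / 2 + 1 := by
  have : d / 2 + 1 ≤ (Finset.univ : Finset (Fin (d+2))).card := by
    rw [Finset.card_univ, Fintype.card_fin]; omega
  obtain ⟨A, -, hA⟩ := Finset.exists_subset_card_eq this
  exact ⟨A, hA⟩

lemma vol_gram_eq (hd : 2 ≤ d) {A : Finset (Fin (d+2))} (hA : A.card = d / 2 + 1)
    {u : Fin (d+2) → Fin d → ℝ} (hu : ∀ i, u i ⬝ᵥ u i = 1) (hG : Gram u A (d / 2) (d - d / 2)) :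
    volume (PP u 1) = ENNReal.ofReal (cc d) := by
  obtain ⟨h1, h2⟩ := vol_of_gram (by omega) (by omega) (by omega) hA hu hG
  rw [← cc_sq] at h2
  have h3 : (volume (PP u 1)).toReal = cc d :=
    (sq_eq_sq₀ ENNReal.toReal_nonneg (cc_pos d).le).1 h2
  rw [← h3, ENNReal.ofReal_toReal h1]

theorem main_pi (hd : 2 ≤ d) :
    (∀ u : Fin (d+2) → Fin d → ℝ, (∀ i, u i ⬝ᵥ u i = 1) → ENNReal.ofReal (cc d) ≤ volume (PP u 1) ∧
      (volume (PP u 1) = ENNReal.ofReal (cc d) ↔
        ∃ A : Finset (Fin (d+2)), A.card = d / 2 + 1 ∧ Gram u A (d / 2) (d - d / 2))) ∧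
    (∃ (u : Fin (d+2) → Fin d → ℝ) (A : Finset (Fin (d+2))), (∀ i, u i ⬝ᵥ u i = 1) ∧ A.card = d / 2 + 1 ∧
      Gram u A (d / 2) (d - d / 2)) := by
  classical
  have hd0 : 0 < d := by omega
  obtain ⟨A0, hA0⟩ := exists_A hd
  obtain ⟨u0, hu0, hG0⟩ := exists_gram (d := d) (k := d / 2) (l := d - d / 2) (A := A0)
    (by omega) (by omega) (by omega) hA0
  have hv0 := vol_gram_eq hd hA0 hu0 hG0
  -- any minimiser
  have hmin : ∀ u : Fin (d+2) → Fin d → ℝ, (∀ i, u i ⬝ᵥ u i = 1) →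
      (∀ u' : Fin (d+2) → Fin d → ℝ, (∀ i, u' i ⬝ᵥ u' i = 1) → volume (PP u 1) ≤ volume (PP u' 1)) →
      volume (PP u 1) ≠ ∞ ∧ cc d ^ 2 ≤ (volume (PP u 1)).toReal ^ 2 ∧
      ((volume (PP u 1)).toReal ^ 2 = cc d ^ 2 →
        ∃ A : Finset (Fin (d+2)), A.card = d / 2 + 1 ∧ Gram u A (d / 2) (d - d / 2)) := by
    intro u hu hm
    have hfin : volume (PP u 1) ≠ ∞ := by
      have := hm u0 hu0
      rw [hv0] at this
      exact (this.trans_lt ENNReal.ofReal_lt_top).ne
    obtain ⟨k, j, h1, h2, h3, h4⟩ := minimiser hd0 hu hfin hm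
    obtain ⟨h5, h6⟩ := final_ineq hd h1 h2
    refine ⟨hfin, by rw [h3, cc_sq]; exact h5, ?_⟩
    intro heq
    rw [h3, cc_sq] at heq
    obtain ⟨h7, h8⟩ := h6 heq
    obtain ⟨A, hA1, hA2⟩ := h4 h7
    rcases h8 with h8 | h8
    · refine ⟨A, by omega, ?_⟩
      have hj : j = d - d / 2 := by omega
      rw [h8, hj] at hA2
      exact hA2
    · refine ⟨Aᶜ, ?_, ?_⟩
      · rw [Finset.card_compl, Fintype.card_fin]; omega
      · have hk : k = d - d / 2 := by omega
        intro i l hil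
        have h9 := hA2 i l hil
        rw [h9, ← hk, ← h8]
        simp only [Finset.mem_compl, not_not]
        by_cases hi : i ∈ A <;> by_cases hl : l ∈ A <;> simp [hi, hl]
  obtain ⟨us, hus, hms⟩ := exists_min (n := d + 2) hd0
  have hlow : ∀ u : Fin (d+2) → Fin d → ℝ, (∀ i, u i ⬝ᵥ u i = 1) → ENNReal.ofReal (cc d) ≤ volume (PP u 1) := by
    intro u hu
    obtain ⟨h1, h2, -⟩ := hmin us hus hms
    refine le_trans ?_ (hms u hu)
    rw [ENNReal.ofReal_le_iff_le_toReal h1]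
    exact (sq_le_sq₀ (cc_pos d).le ENNReal.toReal_nonneg).1 h2
  refine ⟨?_, ⟨u0, A0, hu0, hA0, hG0⟩⟩
  intro u hu
  refine ⟨hlow u hu, ?_, ?_⟩
  · intro heq
    obtain ⟨-, -, h3⟩ := hmin u hu (fun u' hu' => by rw [heq]; exact hlow u' hu')
    apply h3
    rw [heq, ENNReal.toReal_ofReal (cc_pos d).le]
  · rintro ⟨A, hA, hG⟩
    exact vol_gram_eq hd hA hu hG

end Pool.Agent.Work.MP_1c7b0d_gt
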