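import Pool.Agent.Work.MP_1c7b0d_gt.Geom1

open MeasureTheory Set Filter Topology
open scoped ENNReal Pointwise

namespace Pool.Agent.Work.MP_1c7b0d_gt

variable {n d : ℕ}

lemma Jn.vol_lt_top {u : Fin n → Fin d → ℝ} {w : Fin n → ℝ} (h : Jn u w) :
    volume (PP u 1) < ∞ := by
  obtain ⟨C, hC, hb⟩ := h.bound
  have : PP u 1 ⊆ Icc (fun _ => -C) (fun _ => C) := by
    intro x hx
    have h1 : ∀ j, |x j| ≤ C * 1 := hb (1, x) hx
    exact ⟨fun j => by have := abs_le.1 (h1 j); linarith [this.1],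
      fun j => by have := abs_le.1 (h1 j); linarith [this.2]⟩
  exact (measure_mono this).trans_lt isCompact_Icc.measure_lt_top

/-- layer formula for Bochner integrals -/
lemma Jn.lay {u : Fin n → Fin d → ℝ} {w : Fin n → ℝ} (h : Jn u w) {f : ℝ → ℝ} (hf : Continuous f)
    (h0 : ∀ t, 0 ≤ t → 0 ≤ f t) (hi : IntegrableOn (fun t => f t * t ^ d) (Ioi 0)) :
    IntegrableOn (fun p : ℝ × (Fin d → ℝ) => f p.1) (KK u) ∧
    ∫ p in KK u, f p.1 = (∫ t in Ioi (0:ℝ), f t * t ^ d) * (volume (PP u 1)).toReal := by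
  have hae : 0 ≤ᵐ[volume.restrict (KK u)] (fun p : ℝ × (Fin d → ℝ) => f p.1) := by
    filter_upwards [ae_restrict_mem (KK_meas u)] with p hp
    exact h0 _ (h.t_nonneg p hp)
  have hmeas : AEStronglyMeasurable (fun p : ℝ × (Fin d → ℝ) => f p.1) (volume.restrict (KK u)) :=
    (hf.comp continuous_fst).aestronglyMeasurable
  have hae2 : 0 ≤ᵐ[volume.restrict (Ioi (0:ℝ))] (fun t => f t * t ^ d) := by
    filter_upwards [ae_restrict_mem measurableSet_Ioi] with t ht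
    exact mul_nonneg (h0 t (le_of_lt ht)) (pow_nonneg (le_of_lt ht) d)
  have h1 : ∫⁻ p in KK u, ENNReal.ofReal (f p.1)
      = ENNReal.ofReal (∫ t in Ioi (0:ℝ), f t * t ^ d) * volume (PP u 1) := by
    rw [layer_eq u h.t_nonneg (ψ := fun t => ENNReal.ofReal (f t)) (hf.measurable.ennreal_ofReal)]
    congr 1
    rw [ofReal_integral_eq_lintegral_ofReal hi hae2]
    refine setLIntegral_congr_fun measurableSet_Ioi (fun t ht => ?_)
    rw [ENNReal.ofReal_mul (h0 t (le_of_lt ht))]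
  have h2 : ∫⁻ p in KK u, ENNReal.ofReal (f p.1) ≠ ∞ := by
    rw [h1]
    exact ENNReal.mul_ne_top ENNReal.ofReal_ne_top h.vol_lt_top.ne
  refine ⟨(lintegral_ofReal_ne_top_iff_integrable hmeas hae).1 h2, ?_⟩
  rw [integral_eq_lintegral_of_nonneg_ae hae hmeas, h1, ENNReal.toReal_mul,
    ENNReal.toReal_ofReal (integral_nonneg_of_ae hae2)]

lemma int_pow_exp (m : ℕ) : IntegrableOn (fun t : ℝ => Real.exp (-t) * t ^ m) (Ioi 0) ∧
    ∫ t in Ioi (0:ℝ), Real.exp (-t) * t ^ m = m.factorial := by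
  have h := Real.GammaIntegral_convergent (s := m + 1) (by positivity)
  have h2 := Real.Gamma_eq_integral (s := m + 1) (by positivity)
  have h3 : (m:ℝ) + 1 - 1 = m := by ring
  constructor
  · refine h.congr_fun (fun x hx => ?_) measurableSet_Ioi
    simp only [h3, Real.rpow_natCast]
  · rw [← Real.Gamma_nat_eq_factorial, h2]
    refine setIntegral_congr_fun measurableSet_Ioi (fun x hx => ?_)
    simp only [h3, Real.rpow_natCast]

lemma int_pow_exp_half (m : ℕ) : IntegrableOn (fun t : ℝ => Real.exp (-(t/2)) * t ^ m) (Ioi 0) := by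
  have h := integrableOn_rpow_mul_exp_neg_mul_rpow (p := 1) (s := m) (b := 1/2)
    (by have : (0:ℝ) ≤ m := Nat.cast_nonneg m
        linarith) (by norm_num) (by norm_num)
  refine h.congr_fun (fun x hx => ?_) measurableSet_Ioi
  simp only [Real.rpow_one, Real.rpow_natCast]
  rw [mul_comm]
  congr 2
  ring

lemma Jn.F0 {u : Fin n → Fin d → ℝ} {w : Fin n → ℝ} (h : Jn u w) :
    IntegrableOn (fun p : ℝ × (Fin d → ℝ) => Real.exp (-p.1)) (KK u) ∧
    ∫ p in KK u, Real.exp (-p.1) = d.factorial * (volume (PP u 1)).toReal := by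
  have h1 := h.lay (f := fun t => Real.exp (-t)) (by fun_prop) (fun t _ => (Real.exp_pos _).le) (int_pow_exp d).1
  rw [(int_pow_exp d).2] at h1
  exact h1

lemma Jn.F1 {u : Fin n → Fin d → ℝ} {w : Fin n → ℝ} (h : Jn u w) :
    IntegrableOn (fun p : ℝ × (Fin d → ℝ) => Real.exp (-p.1) * p.1) (KK u) ∧
    ∫ p in KK u, Real.exp (-p.1) * p.1 = (d + 1) * ∫ p in KK u, Real.exp (-p.1) := by
  have h3 : (fun t : ℝ => Real.exp (-t) * t * t ^ d) = fun t => Real.exp (-t) * t ^ (d + 1) := by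
    funext t; ring
  have h1 := h.lay (f := fun t => Real.exp (-t) * t) (by fun_prop)
    (fun t ht => mul_nonneg (Real.exp_pos _).le ht) (by rw [h3]; exact (int_pow_exp (d+1)).1)
  rw [h3, (int_pow_exp (d+1)).2] at h1
  refine ⟨h1.1, ?_⟩
  rw [h1.2, h.F0.2, Nat.factorial_succ]
  push_cast
  ring

lemma Jn.Fhalf {u : Fin n → Fin d → ℝ} {w : Fin n → ℝ} (h : Jn u w) (m : ℕ) :
    IntegrableOn (fun p : ℝ × (Fin d → ℝ) => Real.exp (-(p.1/2)) * p.1 ^ m) (KK u) := by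
  have h3 : (fun t : ℝ => Real.exp (-(t/2)) * t ^ m * t ^ d) = fun t => Real.exp (-(t/2)) * t ^ (m + d) := by
    funext t; ring
  exact (h.lay (f := fun t => Real.exp (-(t/2)) * t ^ m) (by fun_prop)
    (fun t ht => mul_nonneg (Real.exp_pos _).le (pow_nonneg ht _))
    (by rw [h3]; exact (int_pow_exp_half (m+d)))).1

lemma Jn.dot_bound {u : Fin n → Fin d → ℝ} {w : Fin n → ℝ} (h : Jn u w) (v : Fin d → ℝ) :
    ∃ D, 0 ≤ D ∧ ∀ p ∈ KK u, |v ⬝ᵥ p.2| ≤ D * p.1 := by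
  obtain ⟨C, hC, hb⟩ := h.bound
  refine ⟨(∑ j, |v j|) * C, mul_nonneg (Finset.sum_nonneg (fun _ _ => abs_nonneg _)) hC, ?_⟩
  intro p hp
  calc |v ⬝ᵥ p.2| ≤ ∑ j, |v j * p.2 j| := Finset.abs_sum_le_sum_abs _ _
    _ ≤ ∑ j, |v j| * (C * p.1) := by
        refine Finset.sum_le_sum (fun j _ => ?_)
        rw [abs_mul]
        exact mul_le_mul_of_nonneg_left (hb p hp j) (abs_nonneg _)
    _ = _ := by rw [← Finset.sum_mul]; ring

lemma cont_dot2 (v : Fin d → ℝ) : Continuous (fun p : ℝ × (Fin d → ℝ) => v ⬝ᵥ p.2) :=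
  (continuous_dot v).comp continuous_snd

lemma Jn.int_dot {u : Fin n → Fin d → ℝ} {w : Fin n → ℝ} (h : Jn u w) (v : Fin d → ℝ) :
    IntegrableOn (fun p : ℝ × (Fin d → ℝ) => Real.exp (-p.1) * (v ⬝ᵥ p.2)) (KK u) := by
  obtain ⟨D, hD, hb⟩ := h.dot_bound v
  refine Integrable.mono' (h.F1.1.const_mul D) ?_ ?_
  · have := cont_dot2 v
    exact (by fun_prop : Continuous (fun p : ℝ × (Fin d → ℝ) => Real.exp (-p.1) * (v ⬝ᵥ p.2))).aestronglyMeasurable
  · filter_upwards [ae_restrict_mem (KK_meas u)] with p hp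
    rw [norm_mul, Real.norm_eq_abs, Real.norm_eq_abs, abs_of_pos (Real.exp_pos _)]
    have := hb p hp
    have h2 := (Real.exp_pos (-p.1)).le
    nlinarith

/-- comparison of volumes with tilted polytope -/
lemma tilt_min {u : Fin n → Fin d → ℝ} (hu : ∀ i, u i ⬝ᵥ u i = 1)
    (hmin : ∀ u' : Fin n → Fin d → ℝ, (∀ i, u' i ⬝ᵥ u' i = 1) → volume (PP u 1) ≤ volume (PP u' 1))
    (v : Fin d → ℝ) (hv : ∀ i, u i + v ≠ 0) :
    volume (PP u 1) ≤ volume (PP (fun i => u i + v) 1) := by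
  set r : Fin n → ℝ := fun i => Real.sqrt ((u i + v) ⬝ᵥ (u i + v)) with hr
  have hpos : ∀ i, 0 < (u i + v) ⬝ᵥ (u i + v) := by
    intro i
    refine lt_of_le_of_ne ?_ (fun h => hv i (dotProduct_self_eq_zero.1 h.symm))
    exact Finset.sum_nonneg (fun _ _ => mul_self_nonneg _)
  have hrpos : ∀ i, 0 < r i := fun i => Real.sqrt_pos.2 (hpos i)
  have hrsq : ∀ i, r i ^ 2 = (u i + v) ⬝ᵥ (u i + v) := fun i => Real.sq_sqrt (hpos i).le
  have h1 := hmin (fun i => (r i)⁻¹ • (u i + v)) (fun i => by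
    rw [smul_dotProduct, dotProduct_smul, smul_eq_mul, smul_eq_mul, ← hrsq i]
    have := (hrpos i).ne'
    field_simp)
  refine h1.trans ?_
  have h2 : PP (fun i => (r i)⁻¹ • (u i + v)) 1 ⊆ (fun x => x + (-v)) ⁻¹' (PP (fun i => u i + v) 1) := by
    intro x hx i
    have h3 : (r i)⁻¹ • (u i + v) ⬝ᵥ x ≤ 1 := hx i
    rw [smul_dotProduct, smul_eq_mul, inv_mul_le_iff₀ (hrpos i), mul_one] at h3
    change (u i + v) ⬝ᵥ (x + (-v)) ≤ 1
    have h4 : (u i + v) ⬝ᵥ (x + (-v)) = (u i + v) ⬝ᵥ x - u i ⬝ᵥ v - v ⬝ᵥ v := by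
      rw [dotProduct_add, dotProduct_neg, add_dotProduct _ _ v]; ring
    have h5 : r i ^ 2 = 1 + 2 * (u i ⬝ᵥ v) + v ⬝ᵥ v := by
      rw [hrsq i]
      simp only [dotProduct_add, add_dotProduct, hu i, dotProduct_comm v (u i)]
      ring
    rw [h4]
    have h6 : 0 ≤ v ⬝ᵥ v := Finset.sum_nonneg (fun _ _ => mul_self_nonneg _)
    nlinarith [sq_nonneg (r i - 1)]
  calc volume (PP (fun i => (r i)⁻¹ • (u i + v)) 1)
      ≤ volume ((fun x => x + (-v)) ⁻¹' (PP (fun i => u i + v) 1)) := measure_mono h2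
    _ = _ := measure_preimage_add_right _ _ _

theorem centroid {u : Fin n → Fin d → ℝ} {w : Fin n → ℝ} (h : Jn u w)
    (hmin : ∀ u' : Fin n → Fin d → ℝ, (∀ i, u' i ⬝ᵥ u' i = 1) → volume (PP u 1) ≤ volume (PP u' 1))
    (v : Fin d → ℝ) : ∫ p in KK u, Real.exp (-p.1) * (v ⬝ᵥ p.2) = 0 := by
  obtain ⟨D, hD, hb⟩ := h.dot_bound v
  set H : ℝ → ℝ := fun ε => ∫ p in KK u, Real.exp (-(p.1 + ε * (v ⬝ᵥ p.2))) with hH
  set δ : ℝ := 1 / (2 * (D + 1)) with hδ
  have hδpos : 0 < δ := by positivity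
  have hsmall : ∀ ε ∈ Metric.ball (0:ℝ) δ, ∀ p ∈ KK u, |ε * (v ⬝ᵥ p.2)| ≤ p.1 / 2 := by
    intro ε hε p hp
    rw [Metric.mem_ball, dist_zero_right, Real.norm_eq_abs] at hε
    rw [abs_mul]
    have h1 := hb p hp
    have h2 := h.t_nonneg p hp
    have h3 : |ε| * |v ⬝ᵥ p.2| ≤ δ * (D * p.1) :=
      mul_le_mul hε.le h1 (abs_nonneg _) hδpos.le
    refine h3.trans ?_
    have h4 : δ * (D * p.1) ≤ δ * ((D + 1) * p.1) :=
      mul_le_mul_of_nonneg_left (by nlinarith) hδpos.le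
    refine h4.trans (le_of_eq ?_)
    rw [hδ]
    field_simp
  have hcd := cont_dot2 (d := d) v
  have hmeas : ∀ ε : ℝ, AEStronglyMeasurable (fun p : ℝ × (Fin d → ℝ) => Real.exp (-(p.1 + ε * (v ⬝ᵥ p.2))))
      (volume.restrict (KK u)) := fun ε =>
    (by fun_prop : Continuous (fun p : ℝ × (Fin d → ℝ) => Real.exp (-(p.1 + ε * (v ⬝ᵥ p.2))))).aestronglyMeasurable
  have hint : ∀ ε ∈ Metric.ball (0:ℝ) δ,
      IntegrableOn (fun p : ℝ × (Fin d → ℝ) => Real.exp (-(p.1 + ε * (v ⬝ᵥ p.2)))) (KK u) := by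
    intro ε hε
    have h0 := h.Fhalf 0
    simp only [pow_zero, mul_one] at h0
    refine Integrable.mono' h0 (hmeas ε) ?_
    filter_upwards [ae_restrict_mem (KK_meas u)] with p hp
    rw [Real.norm_eq_abs, abs_of_pos (Real.exp_pos _)]
    refine Real.exp_le_exp.2 ?_
    have := abs_le.1 (hsmall ε hε p hp)
    linarith [this.1]
  have hder : HasDerivAt H (∫ p in KK u, -(v ⬝ᵥ p.2) * Real.exp (-(p.1 + 0 * (v ⬝ᵥ p.2)))) 0 := by
    refine (hasDerivAt_integral_of_dominated_loc_of_deriv_le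
      (F := fun ε (p : ℝ × (Fin d → ℝ)) => Real.exp (-(p.1 + ε * (v ⬝ᵥ p.2))))
      (F' := fun ε (p : ℝ × (Fin d → ℝ)) => -(v ⬝ᵥ p.2) * Real.exp (-(p.1 + ε * (v ⬝ᵥ p.2))))
      (bound := fun p => D * (Real.exp (-(p.1/2)) * p.1 ^ 1))
      (Metric.ball_mem_nhds (0:ℝ) hδpos) (Eventually.of_forall hmeas)
      (hint 0 (Metric.mem_ball_self hδpos)) ?_ ?_ ?_ ?_).2
    · exact (by fun_prop : Continuous (fun p : ℝ × (Fin d → ℝ) =>
        -(v ⬝ᵥ p.2) * Real.exp (-(p.1 + 0 * (v ⬝ᵥ p.2))))).aestronglyMeasurable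
    · filter_upwards [ae_restrict_mem (KK_meas u)] with p hp
      intro ε hε
      rw [norm_mul, norm_neg, Real.norm_eq_abs, Real.norm_eq_abs, abs_of_pos (Real.exp_pos _)]
      have h1 := abs_le.1 (hsmall ε hε p hp)
      have h2 : Real.exp (-(p.1 + ε * (v ⬝ᵥ p.2))) ≤ Real.exp (-(p.1/2)) :=
        Real.exp_le_exp.2 (by linarith [h1.1])
      calc |v ⬝ᵥ p.2| * Real.exp (-(p.1 + ε * (v ⬝ᵥ p.2)))
          ≤ (D * p.1) * Real.exp (-(p.1/2)) :=
            mul_le_mul (hb p hp) h2 (Real.exp_pos _).le (mul_nonneg hD (h.t_nonneg p hp))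
        _ = _ := by ring
    · exact (h.Fhalf 1).const_mul D
    · refine ae_of_all _ (fun p ε _ => ?_)
      have h1 : HasDerivAt (fun ε : ℝ => -(p.1 + ε * (v ⬝ᵥ p.2))) (-(v ⬝ᵥ p.2)) ε := by
        have := (((hasDerivAt_id' ε).mul_const (v ⬝ᵥ p.2)).const_add p.1).fun_neg
        exact this.congr_deriv (by ring)
      exact (h1.exp).congr_deriv (by ring)
  have hloc : IsLocalMin H 0 := by
    have hne : ∀ᶠ ε : ℝ in 𝓝 0, ∀ i, u i + ε • v ≠ 0 := by
      rw [eventually_all]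
      intro i
      have hc : ContinuousAt (fun ε : ℝ => u i + ε • v) 0 := by fun_prop
      refine hc.eventually_ne ?_
      rw [zero_smul, add_zero]
      intro h0
      have := h.unit i
      rw [h0] at this
      simp at this
    filter_upwards [hne, Metric.ball_mem_nhds (0:ℝ) hδpos] with ε h1 h2
    have h3 := tilt_min h.unit hmin (ε • v) h1
    have hψ : Measurable (fun t : ℝ => ENNReal.ofReal (Real.exp (-t))) := by fun_prop
    have h4 := layer_le (fun i => u i + ε • v) hψ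
    rw [tilt u (ε • v) hψ] at h4
    have h5 := layer_eq u h.t_nonneg hψ
    have h6 : ∫⁻ p in KK u, ENNReal.ofReal (Real.exp (-p.1))
        ≤ ∫⁻ p in KK u, ENNReal.ofReal (Real.exp (-(p.1 + (ε • v) ⬝ᵥ p.2))) := by
      rw [h5]
      exact le_trans (by gcongr) h4
    have h7 := hint ε h2
    have h8 := hint 0 (Metric.mem_ball_self hδpos)
    have h9 : ∀ ε' : ℝ, 0 ≤ᵐ[volume.restrict (KK u)] (fun p : ℝ × (Fin d → ℝ) =>
        Real.exp (-(p.1 + ε' * (v ⬝ᵥ p.2)))) := fun ε' => ae_of_all _ (fun p => (Real.exp_pos _).le)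
    have h10 : ENNReal.ofReal (H 0) ≤ ENNReal.ofReal (H ε) := by
      rw [hH]
      simp only
      rw [ofReal_integral_eq_lintegral_ofReal h8 (h9 0), ofReal_integral_eq_lintegral_ofReal h7 (h9 ε)]
      simp only [zero_mul, add_zero]
      simp only [smul_dotProduct, smul_eq_mul] at h6
      exact h6
    rwa [ENNReal.ofReal_le_ofReal_iff (integral_nonneg (fun p => (Real.exp_pos _).le))] at h10
  have h0 := hloc.hasDerivAt_eq_zero hder
  simp only [zero_mul, add_zero, neg_mul] at h0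
  rw [integral_neg, neg_eq_zero] at h0
  rw [← h0]
  refine integral_congr_ae (ae_of_all _ (fun p => ?_))
  simp only
  ring

end Pool.Agent.Work.MP_1c7b0d_gt
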