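import Pool.Agent.Work.MP_1c7b0d_gt.Geom2

open MeasureTheory Set Filter Topology
open scoped ENNReal Pointwise

namespace Pool.Agent.Work.MP_1c7b0d_gt

variable {n d : ℕ}

lemma vol_pos (u : Fin n → Fin d → ℝ) : 0 < volume (PP u 1) := by
  have ho : IsOpen (⋂ i, {x : Fin d → ℝ | u i ⬝ᵥ x < 1}) :=
    isOpen_iInter_of_finite (fun i => isOpen_lt (continuous_dot _) continuous_const)
  have hn : (⋂ i, {x : Fin d → ℝ | u i ⬝ᵥ x < 1}).Nonempty := ⟨0, by simp⟩
  refine (ho.measure_pos volume hn).trans_le (measure_mono ?_)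
  intro x hx i
  have := mem_iInter.1 hx i
  exact le_of_lt this

lemma linform (f : ((Fin d × Fin d → ℝ) × (Fin d → ℝ)) →ₗ[ℝ] ℝ) (M : Fin d × Fin d → ℝ) (b : Fin d → ℝ) :
    f (M, b) = ∑ q, M q * f (Pi.single q 1, 0) + ∑ j, b j * f (0, Pi.single j 1) := by
  have h1 : (M, b) = ∑ q, M q • ((Pi.single q 1, 0) : (Fin d × Fin d → ℝ) × (Fin d → ℝ))
      + ∑ j, b j • ((0, Pi.single j 1) : (Fin d × Fin d → ℝ) × (Fin d → ℝ)) := by
    ext q
    · simp only [Prod.fst_add, Prod.fst_sum, Prod.smul_fst, smul_zero, Finset.sum_const_zero, add_zero]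
      exact congrFun (pi_eq_sum_univ' M) q
    · simp only [Prod.snd_add, Prod.snd_sum, Prod.smul_snd, smul_zero, Finset.sum_const_zero, zero_add]
      exact congrFun (pi_eq_sum_univ' b) q
  rw [h1, map_add, map_sum, map_sum]
  simp only [map_smul, smul_eq_mul]

lemma pos_of_hasDerivAt {φ : ℝ → ℝ} {φ' : ℝ} (h : HasDerivAt φ φ' 0) (h0 : φ 0 = 0) (hp : 0 < φ') :
    ∀ᶠ ε in 𝓝[>] (0:ℝ), 0 < φ ε := by
  rw [hasDerivAt_iff_tendsto_slope] at h
  have h1 : ∀ᶠ ε in 𝓝[≠] (0:ℝ), 0 < slope φ 0 ε := h.eventually (lt_mem_nhds hp)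
  have h2 : 𝓝[>] (0:ℝ) ≤ 𝓝[≠] 0 := nhdsWithin_mono _ (fun x hx => ne_of_gt hx)
  filter_upwards [h2 h1, self_mem_nhdsWithin] with ε h3 h4
  have h5 : (0:ℝ) < ε := h4
  rw [slope_def_field, h0, sub_zero, sub_zero] at h3
  exact (div_pos_iff_of_pos_right h5).1 h3

theorem john {u : Fin n → Fin d → ℝ} (hd : 0 < d) (hu : ∀ i, u i ⬝ᵥ u i = 1)
    (hfin : volume (PP u 1) ≠ ∞)
    (hmin : ∀ u' : Fin n → Fin d → ℝ, (∀ i, u' i ⬝ᵥ u' i = 1) → volume (PP u 1) ≤ volume (PP u' 1)) :
    ∃ w, Jn u w := by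
  have hd' : (0:ℝ) < d := by exact_mod_cast hd
  set p : Fin n → (Fin d × Fin d → ℝ) × (Fin d → ℝ) := fun i =>
    (fun q => u i q.1 * u i q.2 - (if q.1 = q.2 then (1:ℝ)/d else 0), u i) with hp
  set Φ : (Fin n → ℝ) →ₗ[ℝ] ((Fin d × Fin d → ℝ) × (Fin d → ℝ)) :=
    { toFun := fun w => ∑ i, w i • p i
      map_add' := fun w w' => by simp only [Pi.add_apply, add_smul, Finset.sum_add_distrib]
      map_smul' := fun c w => by simp only [Pi.smul_apply, smul_eq_mul, mul_smul, Finset.smul_sum, RingHom.id_apply] } with hΦ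
  set C := Φ '' (stdSimplex ℝ (Fin n)) with hC
  by_cases h0 : (0 : (Fin d × Fin d → ℝ) × (Fin d → ℝ)) ∈ C
  · obtain ⟨w, hw, hw0⟩ := h0
    refine ⟨w, hu, hw.1, hw.2, ?_, ?_⟩
    · intro j
      have h1 : (Φ w).2 j = 0 := by rw [hw0]; rfl
      simp only [hΦ, hp, LinearMap.coe_mk, AddHom.coe_mk, Prod.snd_sum, Prod.smul_snd, Finset.sum_apply,
        Pi.smul_apply, smul_eq_mul] at h1
      exact h1
    · intro j k
      have h1 : (Φ w).1 (j, k) = 0 := by rw [hw0]; rfl
      simp only [hΦ, hp, LinearMap.coe_mk, AddHom.coe_mk, Prod.fst_sum, Prod.smul_fst, Finset.sum_apply,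
        Pi.smul_apply, smul_eq_mul] at h1
      simp only [mul_sub, Finset.sum_sub_distrib, ← Finset.sum_mul, hw.2, one_mul] at h1
      linarith
  · exfalso
    have hconv : Convex ℝ C := (convex_stdSimplex ℝ (Fin n)).linear_image Φ
    have hcl : IsClosed C := ((isCompact_stdSimplex ℝ (Fin n)).image (LinearMap.continuous_of_finiteDimensional Φ)).isClosed
    obtain ⟨f, c, hf0, hfc⟩ := geometric_hahn_banach_point_closed hconv hcl h0
    rw [map_zero] at hf0
    have hpc : ∀ i, c < f (p i) := by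
      intro i
      apply hfc
      refine ⟨Pi.single i 1, single_mem_stdSimplex ℝ i, ?_⟩
      simp only [hΦ, LinearMap.coe_mk, AddHom.coe_mk]
      rw [Finset.sum_eq_single i]
      · simp
      · intro j _ hj; simp [Pi.single_eq_of_ne hj]
      · simp
    set H : Matrix (Fin d) (Fin d) ℝ := Matrix.of (fun j k => f (Pi.single (j, k) 1, 0)) with hH
    set y : Fin d → ℝ := fun j => f (0, Pi.single j 1) with hy
    set H' : Matrix (Fin d) (Fin d) ℝ := H - (H.trace / d) • (1 : Matrix (Fin d) (Fin d) ℝ) with hH'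
    have htr : H'.trace = 0 := by
      rw [hH', Matrix.trace_sub, Matrix.trace_smul, Matrix.trace_one, Fintype.card_fin, smul_eq_mul]
      field_simp
      ring
    have hkey : ∀ i, c < u i ⬝ᵥ (H'.mulVec (u i)) + y ⬝ᵥ u i := by
      intro i
      have h1 := hpc i
      have h2 := linform (f : ((Fin d × Fin d → ℝ) × (Fin d → ℝ)) →ₗ[ℝ] ℝ) (p i).1 (p i).2
      simp only [ContinuousLinearMap.coe_coe, Prod.mk.eta] at h2
      rw [h2] at h1
      have h3 : ∑ q, (p i).1 q * f (Pi.single q 1, 0) = u i ⬝ᵥ (H'.mulVec (u i)) := by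
        rw [hH', Matrix.sub_mulVec, dotProduct_sub, Matrix.smul_mulVec, Matrix.one_mulVec,
          dotProduct_smul, hu i, smul_eq_mul, mul_one]
        rw [Fintype.sum_prod_type]
        simp only [hp, sub_mul, Finset.sum_sub_distrib]
        congr 1
        · simp only [dotProduct, Matrix.mulVec, Finset.mul_sum, hH, Matrix.of_apply]
          refine Finset.sum_congr rfl (fun j _ => Finset.sum_congr rfl (fun k _ => by ring))
        · simp only [ite_mul, zero_mul, Finset.sum_ite_eq, Finset.mem_univ, if_true, Matrix.trace,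
            Matrix.diag, hH, Matrix.of_apply, Finset.sum_div]
          refine Finset.sum_congr rfl (fun j _ => by ring)
      have h4 : ∑ j, (p i).2 j * f (0, Pi.single j 1) = y ⬝ᵥ u i := by
        simp only [hp, hy, dotProduct]
        refine Finset.sum_congr rfl (fun j _ => by ring)
      rw [h3, h4] at h1
      exact h1
    -- bound for |H' u_i|^2
    obtain ⟨M, hM0, hM⟩ : ∃ M : ℝ, 0 < M ∧ ∀ i, (H'.mulVec (u i)) ⬝ᵥ (H'.mulVec (u i)) ≤ M := by
      refine ⟨∑ i, (H'.mulVec (u i)) ⬝ᵥ (H'.mulVec (u i)) + 1, ?_, ?_⟩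
      · have : 0 ≤ ∑ i, (H'.mulVec (u i)) ⬝ᵥ (H'.mulVec (u i)) :=
          Finset.sum_nonneg (fun i _ => Finset.sum_nonneg (fun _ _ => mul_self_nonneg _))
        linarith
      · intro i
        have := Finset.single_le_sum (f := fun i => (H'.mulVec (u i)) ⬝ᵥ (H'.mulVec (u i)))
          (fun i _ => Finset.sum_nonneg (fun _ _ => mul_self_nonneg _)) (Finset.mem_univ i)
        linarith
    -- choose ε
    have hφ : ∀ᶠ ε in 𝓝[>] (0:ℝ), 0 < (1 + (-ε) • H').det - (1 - ε * c / 2) ^ d := by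
      set P : Polynomial ℝ := (1 + (Polynomial.X : Polynomial ℝ) • H'.map (Polynomial.C : ℝ →+* Polynomial ℝ)).det.divX.divX with hP
      refine pos_of_hasDerivAt (φ' := d * c / 2) ?_ (by simp) (by positivity)
      have h1 : (fun ε : ℝ => (1 + (-ε) • H').det - (1 - ε * c / 2) ^ d)
          = fun ε : ℝ => (1 + Polynomial.eval (-ε) P * (-ε) ^ 2)
            - (1 - ε * c / 2) ^ d := by
        funext ε
        rw [Matrix.det_one_add_smul, htr, ← hP]
        ring
      rw [h1]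
      have h2 : HasDerivAt (fun ε : ℝ => Polynomial.eval (-ε) P) (-(Polynomial.eval (-(0:ℝ)) (Polynomial.derivative P))) 0 := by
        have h3 := (P.hasDerivAt (-(0:ℝ))).comp (0:ℝ) (hasDerivAt_neg (0:ℝ))
        exact h3.congr_deriv (by ring)
      have h4 : HasDerivAt (fun ε : ℝ => (-ε) ^ 2) 0 0 := by
        have h5 := (hasDerivAt_neg (0:ℝ)).fun_pow 2
        exact h5.congr_deriv (by simp)
      have h6 : HasDerivAt (fun ε : ℝ => (1 - ε * c / 2) ^ d) (-(d * c / 2)) 0 := by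
        have h7 := ((((hasDerivAt_id' (0:ℝ)).mul_const c).div_const 2).const_sub 1).fun_pow d
        exact h7.congr_deriv (by simp; ring)
      have h8 := ((h2.mul h4).const_add 1).sub h6
      refine h8.congr_deriv ?_
      simp
    have hε1 : ∀ᶠ ε in 𝓝[>] (0:ℝ), ε * M < c := by
      have : Tendsto (fun ε : ℝ => ε * M) (𝓝[>] 0) (𝓝 (0 * M)) :=
        ((continuous_id.mul continuous_const).tendsto 0).mono_left nhdsWithin_le_nhds
      rw [zero_mul] at this
      exact this.eventually (gt_mem_nhds hf0)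
    have hε2 : ∀ᶠ ε in 𝓝[>] (0:ℝ), ε * c < 1 := by
      have : Tendsto (fun ε : ℝ => ε * c) (𝓝[>] 0) (𝓝 (0 * c)) :=
        ((continuous_id.mul continuous_const).tendsto 0).mono_left nhdsWithin_le_nhds
      rw [zero_mul] at this
      exact this.eventually (gt_mem_nhds one_pos)
    obtain ⟨ε, ⟨⟨h1, h2⟩, h3⟩, hε⟩ := ((hφ.and hε1).and hε2 |>.and self_mem_nhdsWithin).exists
    have hεp : (0:ℝ) < ε := hε
    set A : Matrix (Fin d) (Fin d) ℝ := 1 + (-ε) • H' with hA
    have hs : 0 < 1 - ε * c / 2 := by linarith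
    have hspow : 0 < (1 - ε * c / 2) ^ d := pow_pos hs d
    have hdet : 0 < A.det := by linarith
    have hAu : ∀ i, A.mulVec (u i) = u i - ε • H'.mulVec (u i) := by
      intro i
      rw [hA, Matrix.add_mulVec, Matrix.one_mulVec, Matrix.smul_mulVec, neg_smul, sub_eq_add_neg]
    have hAne : ∀ i, A.mulVec (u i) ≠ 0 := by
      intro i h
      have h5 : u i ≠ 0 := by
        intro h6
        have := hu i
        rw [h6] at this
        simp at this
      exact hdet.ne' (Matrix.exists_mulVec_eq_zero_iff.1 ⟨u i, h5, h⟩)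
    set r : Fin n → ℝ := fun i => Real.sqrt (A.mulVec (u i) ⬝ᵥ A.mulVec (u i)) with hr
    have hpos : ∀ i, 0 < A.mulVec (u i) ⬝ᵥ A.mulVec (u i) := by
      intro i
      refine lt_of_le_of_ne ?_ (fun h => hAne i (dotProduct_self_eq_zero.1 h.symm))
      exact Finset.sum_nonneg (fun _ _ => mul_self_nonneg _)
    have hrpos : ∀ i, 0 < r i := fun i => Real.sqrt_pos.2 (hpos i)
    have hrsq : ∀ i, r i ^ 2 = A.mulVec (u i) ⬝ᵥ A.mulVec (u i) := fun i => Real.sq_sqrt (hpos i).le
    have hm := hmin (fun i => (r i)⁻¹ • (A.mulVec (u i))) (fun i => by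
      rw [smul_dotProduct, dotProduct_smul, smul_eq_mul, smul_eq_mul, ← hrsq i]
      have := (hrpos i).ne'
      field_simp)
    have hsub : PP (fun i => (r i)⁻¹ • (A.mulVec (u i))) 1 ⊆
        (Matrix.toLin' A.transpose) ⁻¹' ((fun x => x + (-(ε • y))) ⁻¹' (PP u (1 - ε * c / 2))) := by
      intro x hx i
      have h5 : (r i)⁻¹ • (A.mulVec (u i)) ⬝ᵥ x ≤ 1 := hx i
      rw [smul_dotProduct, smul_eq_mul, inv_mul_le_iff₀ (hrpos i), mul_one] at h5
      change u i ⬝ᵥ ((Matrix.toLin' A.transpose) x + (-(ε • y))) ≤ 1 - ε * c / 2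
      rw [Matrix.toLin'_apply, dotProduct_add, dotProduct_neg, dotProduct_smul, smul_eq_mul,
        Matrix.dotProduct_mulVec, Matrix.vecMul_transpose]
      have h6 : r i ^ 2 ≤ 1 + 2 * ε * (y ⬝ᵥ u i - c) + ε ^ 2 * M := by
        rw [hrsq i, hAu i]
        have h7 : (u i - ε • H'.mulVec (u i)) ⬝ᵥ (u i - ε • H'.mulVec (u i))
            = 1 - 2 * ε * (u i ⬝ᵥ H'.mulVec (u i)) + ε ^ 2 * (H'.mulVec (u i) ⬝ᵥ H'.mulVec (u i)) := by
          simp only [sub_dotProduct, dotProduct_sub, smul_dotProduct, dotProduct_smul, smul_eq_mul, hu i,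
            dotProduct_comm (H'.mulVec (u i)) (u i)]
          ring
        rw [h7]
        have h8 := hkey i
        have h9 := hM i
        nlinarith [mul_le_mul_of_nonneg_left h9 (sq_nonneg ε)]
      have h7 : r i ≤ (1 + r i ^ 2) / 2 := by nlinarith [sq_nonneg (r i - 1)]
      rw [dotProduct_comm (u i) y]
      nlinarith
    have hvol : volume ((Matrix.toLin' A.transpose) ⁻¹' ((fun x => x + (-(ε • y))) ⁻¹' (PP u (1 - ε * c / 2))))
        = ENNReal.ofReal (A.det⁻¹ * (1 - ε * c / 2) ^ d) * volume (PP u 1) := by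
      rw [Measure.addHaar_preimage_linearMap]
      · rw [measure_preimage_add_right, vol_PP u hs, LinearMap.det_toLin', Matrix.det_transpose,
          abs_of_pos (inv_pos.2 hdet), ← mul_assoc, ← ENNReal.ofReal_mul (inv_pos.2 hdet).le]
      · rw [LinearMap.det_toLin', Matrix.det_transpose]; exact hdet.ne'
    have hfinal : volume (PP u 1) ≤ ENNReal.ofReal (A.det⁻¹ * (1 - ε * c / 2) ^ d) * volume (PP u 1) := by
      rw [← hvol]
      exact hm.trans (measure_mono hsub)
    have hlt : A.det⁻¹ * (1 - ε * c / 2) ^ d < 1 := by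
      rw [inv_mul_lt_iff₀ hdet]; linarith
    have hlt2 : ENNReal.ofReal (A.det⁻¹ * (1 - ε * c / 2) ^ d) < 1 := by
      rw [← ENNReal.ofReal_one]
      exact (ENNReal.ofReal_lt_ofReal_iff one_pos).2 hlt
    have : ENNReal.ofReal (A.det⁻¹ * (1 - ε * c / 2) ^ d) * volume (PP u 1) < 1 * volume (PP u 1) :=
      ENNReal.mul_lt_mul_left (vol_pos u).ne' hfin hlt2
    rw [one_mul] at this
    exact absurd hfinal (not_le.2 this)

end Pool.Agent.Work.MP_1c7b0d_gt
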