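import Pool.Agent.Work.MP_1c7b0d_gt.Geom3

open MeasureTheory Set Filter Topology
open scoped ENNReal Pointwise

namespace Pool.Agent.Work.MP_1c7b0d_gt

variable {n d : ℕ}

/-- the open polyhedron -/
def Po (u : Fin n → Fin d → ℝ) (t : ℝ) : Set (Fin d → ℝ) := {x | ∀ i, u i ⬝ᵥ x < t}

lemma Po_open (u : Fin n → Fin d → ℝ) (t : ℝ) : IsOpen (Po u t) := by
  have : Po u t = ⋂ i, {x : Fin d → ℝ | u i ⬝ᵥ x < t} := by ext x; simp [Po]
  rw [this]
  exact isOpen_iInter_of_finite (fun i => isOpen_lt (continuous_dot _) continuous_const)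

lemma Po_scale (u : Fin n → Fin d → ℝ) {t : ℝ} (ht : 0 < t) : Po u t = t • Po u 1 := by
  ext x
  rw [Set.mem_smul_set_iff_inv_smul_mem₀ ht.ne']
  simp only [Po, Set.mem_ofPred_eq, dotProduct_smul, smul_eq_mul]
  refine forall_congr' (fun i => ?_)
  rw [inv_mul_lt_iff₀ ht, mul_one]

lemma vol_Po (u : Fin n → Fin d → ℝ) {t : ℝ} (ht : 0 < t) :
    volume (Po u t) = ENNReal.ofReal (t ^ d) * volume (Po u 1) := by
  rw [Po_scale u ht, Measure.addHaar_smul]
  congr 2
  rw [Module.finrank_fin_fun, abs_of_pos (pow_pos ht d)]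

lemma vol_Po_eq (u : Fin n → Fin d → ℝ) : volume (Po u 1) = volume (PP u 1) := by
  apply le_antisymm
  · exact measure_mono (fun x hx i => (hx i).le)
  · have h1 : ∀ t : ℝ, 1 < t → volume (PP u 1) ≤ ENNReal.ofReal (t ^ d) * volume (Po u 1) := by
      intro t ht
      rw [← vol_Po u (by linarith)]
      exact measure_mono (fun x hx i => (hx i).trans_lt ht)
    have h2 : Tendsto (fun t : ℝ => ENNReal.ofReal (t ^ d) * volume (Po u 1)) (𝓝[>] 1)
        (𝓝 (ENNReal.ofReal ((1:ℝ) ^ d) * volume (Po u 1))) := by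
      refine ENNReal.Tendsto.mul_const ?_ (Or.inl (by simp))
      refine ENNReal.tendsto_ofReal ?_
      exact ((continuous_pow d).tendsto 1).mono_left nhdsWithin_le_nhds
    simp only [one_pow, ENNReal.ofReal_one, one_mul] at h2
    refine ge_of_tendsto h2 ?_
    filter_upwards [self_mem_nhdsWithin] with t ht
    exact h1 t ht

lemma lsc_vol : LowerSemicontinuous (fun u : Fin n → Fin d → ℝ => volume (PP u 1)) := by
  have h0 : (fun u : Fin n → Fin d → ℝ => volume (PP u 1)) = fun u => volume (Po u 1) := by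
    funext u; exact (vol_Po_eq u).symm
  rw [h0, lowerSemicontinuous_iff_le_liminf]
  intro u
  have h1 := lintegral_liminf_le (μ := (volume : Measure (Fin d → ℝ))) (u := 𝓝 u)
    (f := fun (u' : Fin n → Fin d → ℝ) x => (Po u' 1).indicator (fun _ => (1:ℝ≥0∞)) x)
    (fun u' => measurable_const.indicator (Po_open u' 1).measurableSet)
  have h2 : ∀ u' : Fin n → Fin d → ℝ, ∫⁻ x, (Po u' 1).indicator (fun _ => (1:ℝ≥0∞)) x = volume (Po u' 1) := by
    intro u'
    rw [lintegral_indicator (Po_open u' 1).measurableSet]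
    simp
  simp only [h2] at h1
  refine le_trans ?_ h1
  rw [← h2 u]
  refine lintegral_mono (fun x => ?_)
  by_cases hx : x ∈ Po u 1
  · rw [indicator_of_mem hx]
    refine le_liminf_of_le (by isBoundedDefault) ?_
    have h3 : ∀ᶠ u' in 𝓝 u, x ∈ Po u' 1 := by
      simp only [Po, Set.mem_ofPred_eq]
      rw [eventually_all]
      intro i
      have hc : Continuous (fun u' : Fin n → Fin d → ℝ => u' i ⬝ᵥ x) := by
        unfold dotProduct; fun_prop
      exact hc.continuousAt.eventually (gt_mem_nhds (hx i))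
    filter_upwards [h3] with u' hu'
    rw [indicator_of_mem hu']
  · rw [indicator_of_notMem hx]; exact bot_le

theorem exists_min (hd : 0 < d) : ∃ u : Fin n → Fin d → ℝ, (∀ i, u i ⬝ᵥ u i = 1) ∧
    ∀ u' : Fin n → Fin d → ℝ, (∀ i, u' i ⬝ᵥ u' i = 1) → volume (PP u 1) ≤ volume (PP u' 1) := by
  set S : Set (Fin n → Fin d → ℝ) := {u | ∀ i, u i ⬝ᵥ u i = 1} with hS
  have hcl : IsClosed S := by
    have : S = ⋂ i, {u : Fin n → Fin d → ℝ | u i ⬝ᵥ u i = 1} := by ext u; simp [hS]
    rw [this]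
    refine isClosed_iInter (fun i => isClosed_eq ?_ continuous_const)
    unfold dotProduct; fun_prop
  have hb : S ⊆ Icc (fun _ _ => -1) (fun _ _ => 1) := by
    intro u hu
    have h1 : ∀ i j, |u i j| ≤ 1 := by
      intro i j
      have h2 : u i j * u i j ≤ 1 := by
        rw [← hu i]
        exact Finset.single_le_sum (f := fun j => u i j * u i j) (fun j _ => mul_self_nonneg _) (Finset.mem_univ j)
      exact abs_le_one_iff_mul_self_le_one.2 h2
    exact ⟨fun i j => (abs_le.1 (h1 i j)).1, fun i j => (abs_le.1 (h1 i j)).2⟩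
  have hc : IsCompact S := isCompact_Icc.of_isClosed_subset hcl hb
  have hn : S.Nonempty := by
    refine ⟨fun _ => Pi.single ⟨0, hd⟩ 1, fun i => ?_⟩
    simp
  obtain ⟨u, hu, hmin⟩ := (lsc_vol.lowerSemicontinuousOn S).exists_isMinOn hn hc
  exact ⟨u, hu, fun u' hu' => hmin hu'⟩

end Pool.Agent.Work.MP_1c7b0d_gt
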