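import Pool.Agent.Work.MP_1c7b0d_gt.Moments

open MeasureTheory Set Filter Topology
open scoped ENNReal

namespace Pool.Agent.Work.MP_1c7b0d_gt

variable {m : ℕ}

lemma lintegral_split {F : (Fin (m+1) → ℝ) → ℝ≥0∞} (hF : Measurable F) :
    ∫⁻ X, F X = ∫⁻ x : ℝ, ∫⁻ X' : Fin m → ℝ, F (Fin.cons x X') := by
  have h := (volume_preserving_piFinSuccAbove (fun _ : Fin (m+1) => ℝ) 0).symm
  rw [MeasurePreserving.lintegral_map_equiv F _ h, Measure.volume_eq_prod, lintegral_prod]
  · refine lintegral_congr (fun x => lintegral_congr (fun X' => ?_))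
    congr 1
    rw [MeasurableEquiv.piFinSuccAbove_symm_apply]
    exact Fin.insertNth_zero' x X'
  · exact (hF.comp (MeasurableEquiv.measurable _)).aemeasurable

/-- the exponential density as an extended nonnegative function -/
noncomputable def EE (x : ℝ) : ℝ≥0∞ := (Ici (0:ℝ)).indicator (fun x => ENNReal.ofReal (Real.exp (-x))) x

lemma EE_meas : Measurable EE :=
  (by fun_prop : Measurable (fun x : ℝ => ENNReal.ofReal (Real.exp (-x)))).indicator measurableSet_Ici

lemma EE_lintegral (F : ℝ → ℝ≥0∞) :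
    ∫⁻ x, EE x * F x = ∫⁻ x in Ioi (0:ℝ), ENNReal.ofReal (Real.exp (-x)) * F x := by
  rw [restrict_Ioi_eq_restrict_Ici, ← lintegral_indicator measurableSet_Ici]
  refine lintegral_congr (fun x => ?_)
  unfold EE
  by_cases hx : x ∈ Ici (0:ℝ)
  · rw [indicator_of_mem hx, indicator_of_mem hx]
  · rw [indicator_of_notMem hx, indicator_of_notMem hx, zero_mul]

lemma step0 {g : ℝ → ℝ} (hg : BC g) (h0 : ∀ y, 0 ≤ g y) (τ y : ℝ) :
    ∫⁻ x, EE x * ENNReal.ofReal (g (y - τ * x)) = ENNReal.ofReal (T τ g y) := by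
  rw [EE_lintegral]
  unfold T
  rw [ofReal_integral_eq_lintegral_ofReal (hg.adm.integrableOn τ y)
    (ae_of_all _ (fun x => mul_nonneg (Real.exp_pos _).le (h0 _)))]
  refine lintegral_congr (fun x => ?_)
  rw [ENNReal.ofReal_mul (Real.exp_pos _).le]

lemma step1_int {g : ℝ → ℝ} (hg : BC g) (τ y : ℝ) :
    IntegrableOn (fun x => Real.exp (-x) * x * g (y - τ * x)) (Ioi 0) := by
  obtain ⟨C, hC⟩ := hg.bound
  refine Integrable.mono' (integrableOn_mul_exp_neg.const_mul C) ?_ ?_
  · have := hg.cont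
    exact (by fun_prop : Continuous (fun x => Real.exp (-x) * x * g (y - τ * x))).aestronglyMeasurable
  · filter_upwards [ae_restrict_mem measurableSet_Ioi] with x hx
    have hx' : (0:ℝ) < x := hx
    rw [norm_mul, norm_mul, Real.norm_eq_abs, Real.norm_eq_abs, Real.norm_eq_abs,
      abs_of_pos (Real.exp_pos _), abs_of_pos hx']
    have := hC (y - τ * x)
    rw [mul_comm]
    exact mul_le_mul_of_nonneg_right this (mul_nonneg (Real.exp_pos _).le hx'.le)

lemma step1 {g : ℝ → ℝ} (hg : BC g) (h0 : ∀ y, 0 ≤ g y) (τ y : ℝ) :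
    ∫⁻ x, EE x * (ENNReal.ofReal x * ENNReal.ofReal (g (y - τ * x))) = ENNReal.ofReal (T τ (T τ g) y) := by
  rw [EE_lintegral, T_T_eq hg.adm, ofReal_integral_eq_lintegral_ofReal (step1_int hg τ y)]
  · refine setLIntegral_congr_fun measurableSet_Ioi (fun x hx => ?_)
    have hx' : (0:ℝ) < x := hx
    rw [ENNReal.ofReal_mul (mul_nonneg (Real.exp_pos _).le hx'.le), ENNReal.ofReal_mul (Real.exp_pos _).le,
      mul_assoc]
  · filter_upwards [ae_restrict_mem measurableSet_Ioi] with x hx
    exact mul_nonneg (mul_nonneg (Real.exp_pos _).le (le_of_lt hx)) (h0 _)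

lemma T_nonneg {g : ℝ → ℝ} (h0 : ∀ y, 0 ≤ g y) (τ y : ℝ) : 0 ≤ T τ g y := by
  unfold T
  exact integral_nonneg (fun x => mul_nonneg (Real.exp_pos _).le (h0 _))

lemma prodEE_meas : Measurable (fun X : Fin m → ℝ => ∏ i, EE (X i)) :=
  Finset.measurable_prod _ (fun i _ => EE_meas.comp (measurable_pi_apply i))

lemma sum_meas (τ : Fin m → ℝ) : Measurable (fun X : Fin m → ℝ => ∑ i, τ i * X i) := by fun_prop

lemma pi0 {a b : ℝ} (ha : 0 < a) (hb : 0 < b) (τ : Fin m → ℝ) (y : ℝ) :
    ∫⁻ X : Fin m → ℝ, (∏ i, EE (X i)) * ENNReal.ofReal (phi a b (y - ∑ i, τ i * X i))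
      = ENNReal.ofReal (gL a b (List.ofFn τ) y) := by
  induction m generalizing y with
  | zero =>
    rw [Measure.volume_pi_eq_dirac, lintegral_dirac]
    simp [gL]
  | succ m ih =>
    have hphi := (phi_bc ha hb).cont
    have hmeas : Measurable (fun X : Fin (m+1) → ℝ => (∏ i, EE (X i)) *
        ENNReal.ofReal (phi a b (y - ∑ i, τ i * X i))) :=
      prodEE_meas.mul (hphi.measurable.comp (by fun_prop)).ennreal_ofReal
    rw [lintegral_split hmeas]
    have h1 : ∀ x : ℝ, ∫⁻ X' : Fin m → ℝ, (∏ i, EE ((Fin.cons x X' : Fin (m+1) → ℝ) i)) *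
        ENNReal.ofReal (phi a b (y - ∑ i, τ i * (Fin.cons x X' : Fin (m+1) → ℝ) i))
        = EE x * ENNReal.ofReal (gL a b (List.ofFn (fun i => τ i.succ)) (y - τ 0 * x)) := by
      intro x
      rw [← ih (fun i => τ i.succ) (y - τ 0 * x), ← lintegral_const_mul]
      · refine lintegral_congr (fun X' => ?_)
        rw [Fin.prod_univ_succ, Fin.sum_univ_succ]
        simp only [Fin.cons_zero, Fin.cons_succ]
        rw [mul_assoc]
        congr 4
        ring
      · exact prodEE_meas.mul (hphi.measurable.comp (by fun_prop)).ennreal_ofReal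
    simp only [h1]
    rw [List.ofFn_succ]
    simp only [gL]
    exact step0 (gL_bc ha hb _) (fun y => (gL_pos ha hb _ y).le) _ _

lemma pi1 {a b : ℝ} (ha : 0 < a) (hb : 0 < b) (τ : Fin m → ℝ) (j : Fin m) (y : ℝ) :
    ∫⁻ X : Fin m → ℝ, (∏ i, EE (X i)) * (ENNReal.ofReal (X j) * ENNReal.ofReal (phi a b (y - ∑ i, τ i * X i)))
      = ENNReal.ofReal (T (τ j) (gL a b (List.ofFn τ)) y) := by
  induction m generalizing y with
  | zero => exact j.elim0
  | succ m ih =>
    have hphi := (phi_bc ha hb).cont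
    have hmeas : Measurable (fun X : Fin (m+1) → ℝ => (∏ i, EE (X i)) *
        (ENNReal.ofReal (X j) * ENNReal.ofReal (phi a b (y - ∑ i, τ i * X i)))) :=
      prodEE_meas.mul ((measurable_pi_apply j).ennreal_ofReal.mul
        (hphi.measurable.comp (by fun_prop)).ennreal_ofReal)
    rw [lintegral_split hmeas]
    rw [List.ofFn_succ]
    simp only [gL]
    have hg := gL_bc ha hb (List.ofFn fun i => τ (Fin.succ i))
    have hgp := fun y => (gL_pos ha hb (List.ofFn fun i => τ (Fin.succ i)) y).le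
    induction j using Fin.cases with
    | zero =>
      have h1 : ∀ x : ℝ, ∫⁻ X' : Fin m → ℝ, (∏ i, EE ((Fin.cons x X' : Fin (m+1) → ℝ) i)) *
          (ENNReal.ofReal ((Fin.cons x X' : Fin (m+1) → ℝ) 0) *
          ENNReal.ofReal (phi a b (y - ∑ i, τ i * (Fin.cons x X' : Fin (m+1) → ℝ) i)))
          = EE x * (ENNReal.ofReal x * ENNReal.ofReal (gL a b (List.ofFn (fun i => τ i.succ)) (y - τ 0 * x))) := by
        intro x
        rw [← pi0 ha hb (fun i => τ i.succ) (y - τ 0 * x), ← mul_assoc, ← lintegral_const_mul]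
        · refine lintegral_congr (fun X' => ?_)
          rw [Fin.prod_univ_succ, Fin.sum_univ_succ]
          simp only [Fin.cons_zero, Fin.cons_succ]
          have : y - (τ 0 * x + ∑ i, τ (Fin.succ i) * X' i) = y - τ 0 * x - ∑ i, τ (Fin.succ i) * X' i := by ring
          rw [this]
          ring
        · exact prodEE_meas.mul (hphi.measurable.comp (by fun_prop)).ennreal_ofReal
      simp only [h1]
      exact step1 hg hgp _ _
    | succ j =>
      have h1 : ∀ x : ℝ, ∫⁻ X' : Fin m → ℝ, (∏ i, EE ((Fin.cons x X' : Fin (m+1) → ℝ) i)) *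
          (ENNReal.ofReal ((Fin.cons x X' : Fin (m+1) → ℝ) j.succ) *
          ENNReal.ofReal (phi a b (y - ∑ i, τ i * (Fin.cons x X' : Fin (m+1) → ℝ) i)))
          = EE x * (ENNReal.ofReal (T (τ j.succ) (gL a b (List.ofFn (fun i => τ i.succ))) (y - τ 0 * x))) := by
        intro x
        rw [← ih (fun i => τ i.succ) j (y - τ 0 * x), ← lintegral_const_mul]
        · refine lintegral_congr (fun X' => ?_)
          rw [Fin.prod_univ_succ, Fin.sum_univ_succ]
          simp only [Fin.cons_zero, Fin.cons_succ]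
          have : y - (τ 0 * x + ∑ i, τ (Fin.succ i) * X' i) = y - τ 0 * x - ∑ i, τ (Fin.succ i) * X' i := by ring
          rw [this]
          ring
        · exact prodEE_meas.mul ((measurable_pi_apply j).ennreal_ofReal.mul
            (hphi.measurable.comp (by fun_prop)).ennreal_ofReal)
      simp only [h1]
      rw [T_comm hg.adm]
      exact step0 (hg.T _) (fun y => T_nonneg hgp _ y) _ _

/-- the function `exp (-s/b)` on the half line -/
noncomputable def hh (b s : ℝ) : ℝ≥0∞ := (Ici (0:ℝ)).indicator (fun s => ENNReal.ofReal (Real.exp (-s / b))) s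

lemma hh_meas (b : ℝ) : Measurable (hh b) :=
  (by fun_prop : Measurable (fun s : ℝ => ENNReal.ofReal (Real.exp (-s / b)))).indicator measurableSet_Ici

lemma exp_Ioi {c : ℝ} (hc : 0 < c) (A x0 : ℝ) :
    ∫⁻ x in Ioi x0, ENNReal.ofReal (A * Real.exp (-(c * x))) = ENNReal.ofReal (A * (Real.exp (-(c * x0)) / c)) := by
  have h1 : ∫ x in Ioi x0, Real.exp (-(c * x)) = Real.exp (-(c * x0)) / c := by
    have := integral_exp_mul_Ioi (a := -c) (by linarith) x0
    simp only [neg_mul] at this
    rw [this]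
    field_simp
  have hi : IntegrableOn (fun x => Real.exp (-(c * x))) (Ioi x0) := by
    have := integrableOn_exp_mul_Ioi (a := -c) (by linarith) x0
    simpa only [neg_mul] using this
  have hnn : 0 ≤ Real.exp (-(c * x0)) / c := div_nonneg (Real.exp_pos _).le hc.le
  rcases le_or_gt 0 A with hA | hA
  · rw [← h1, ← integral_const_mul, ofReal_integral_eq_lintegral_ofReal (hi.const_mul A)]
    exact ae_of_all _ (fun x => mul_nonneg hA (Real.exp_pos _).le)
  · rw [ENNReal.ofReal_of_nonpos (mul_nonpos_of_nonpos_of_nonneg hA.le hnn)]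
    rw [lintegral_eq_zero_iff (by fun_prop)]
    exact ae_of_all _ (fun x => ENNReal.ofReal_of_nonpos (mul_nonpos_of_nonpos_of_nonneg hA.le (Real.exp_pos _).le))

/-- the inner integral -/
lemma inner_int {a b : ℝ} (ha : 0 < a) (hb : 0 < b) (s : ℝ) :
    ∫⁻ x, EE x * hh b (a * x + s) = ENNReal.ofReal (b * phi a b (-s)) := by
  have hab : 0 < 1 + a / b := by positivity
  -- x ranges over x ≥ max 0 (-s/a)
  set x0 : ℝ := max 0 (-s / a) with hx0
  have h1 : ∫⁻ x, EE x * hh b (a * x + s) = ∫⁻ x in Ioi x0, ENNReal.ofReal (Real.exp (-s/b) * Real.exp (-((1 + a/b) * x))) := by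
    rw [restrict_Ioi_eq_restrict_Ici, ← lintegral_indicator measurableSet_Ici]
    refine lintegral_congr (fun x => ?_)
    by_cases hx : x ∈ Ici x0
    · rw [indicator_of_mem hx]
      have hx1 : x0 ≤ x := hx
      have h2 : 0 ≤ x := (le_max_left _ _).trans hx1
      have h3 : -s / a ≤ x := (le_max_right _ _).trans hx1
      have h4 : 0 ≤ a * x + s := by
        rw [div_le_iff₀ ha] at h3; linarith
      unfold EE hh
      rw [indicator_of_mem (show x ∈ Ici (0:ℝ) from h2), indicator_of_mem (show a * x + s ∈ Ici (0:ℝ) from h4),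
        ← ENNReal.ofReal_mul (Real.exp_pos _).le, ← Real.exp_add, ← Real.exp_add]
      congr 2
      field_simp
      ring
    · rw [indicator_of_notMem hx]
      have hx1 : x < x0 := not_le.1 hx
      unfold EE hh
      rcases lt_max_iff.1 hx1 with h2 | h2
      · rw [indicator_of_notMem (show x ∉ Ici (0:ℝ) from not_le.2 h2), zero_mul]
      · have h4 : a * x + s < 0 := by
          rw [lt_div_iff₀ ha] at h2; linarith
        rw [indicator_of_notMem (show a * x + s ∉ Ici (0:ℝ) from not_le.2 h4), mul_zero]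
  rw [h1, exp_Ioi hab]
  congr 1
  rcases le_or_gt 0 s with hs | hs
  · have h5 : x0 = 0 := max_eq_left (div_nonpos_of_nonpos_of_nonneg (by linarith) ha.le)
    rw [h5, phi_of_nonpos ha hb (by linarith : -s ≤ 0), mul_zero, neg_zero, Real.exp_zero]
    field_simp
    ring
  · have h5 : x0 = -s / a := max_eq_right (div_nonneg (by linarith) ha.le)
    rw [h5, phi_of_nonneg ha hb (by linarith : 0 ≤ -s), ← mul_div_assoc, ← Real.exp_add]
    have h6 : -s / b + -((1 + a / b) * (-s / a)) = - -s / a := by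
      field_simp
      ring
    rw [h6]
    field_simp
    ring

theorem full0 {a b : ℝ} (ha : 0 < a) (hb : 0 < b) (τ : Fin m → ℝ) :
    ∫⁻ X : Fin (m+1) → ℝ, (∏ i, EE (X i)) * hh b (a * X 0 + ∑ i : Fin m, τ i * X i.succ)
      = ENNReal.ofReal (b * gL a b (List.ofFn τ) 0) := by
  have hphi := (phi_bc ha hb).cont
  have hmeas : Measurable (fun X : Fin (m+1) → ℝ => (∏ i, EE (X i)) *
      hh b (a * X 0 + ∑ i : Fin m, τ i * X i.succ)) :=
    prodEE_meas.mul ((hh_meas b).comp (by fun_prop))
  rw [lintegral_split hmeas]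
  simp only [Fin.prod_univ_succ, Fin.cons_zero, Fin.cons_succ]
  rw [lintegral_lintegral_swap]
  · have h1 : ∀ X' : Fin m → ℝ, ∫⁻ x, (EE x * ∏ i, EE (X' i)) * hh b (a * x + ∑ i : Fin m, τ i * X' i)
        = ENNReal.ofReal b * ((∏ i, EE (X' i)) * ENNReal.ofReal (phi a b (0 - ∑ i, τ i * X' i))) := by
      intro X'
      have h2 : ∀ x, (EE x * ∏ i, EE (X' i)) * hh b (a * x + ∑ i : Fin m, τ i * X' i)
          = (∏ i, EE (X' i)) * (EE x * hh b (a * x + ∑ i : Fin m, τ i * X' i)) := fun x => by ring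
      simp only [h2]
      rw [lintegral_const_mul, inner_int ha hb, ENNReal.ofReal_mul hb.le, zero_sub]
      · ring
      · exact EE_meas.mul ((hh_meas b).comp (by fun_prop))
    simp only [h1]
    rw [lintegral_const_mul, pi0 ha hb, ← ENNReal.ofReal_mul hb.le]
    exact prodEE_meas.mul (hphi.measurable.comp (by fun_prop)).ennreal_ofReal
  · refine Measurable.aemeasurable ?_
    refine Measurable.mul (Measurable.mul (EE_meas.comp measurable_fst) (prodEE_meas.comp measurable_snd)) ?_
    exact (hh_meas b).comp (by fun_prop)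

theorem full1 {a b : ℝ} (ha : 0 < a) (hb : 0 < b) (τ : Fin m → ℝ) (j : Fin m) :
    ∫⁻ X : Fin (m+1) → ℝ, (∏ i, EE (X i)) * (ENNReal.ofReal (X j.succ) *
        hh b (a * X 0 + ∑ i : Fin m, τ i * X i.succ))
      = ENNReal.ofReal (b * T (τ j) (gL a b (List.ofFn τ)) 0) := by
  have hphi := (phi_bc ha hb).cont
  have hmeas : Measurable (fun X : Fin (m+1) → ℝ => (∏ i, EE (X i)) * (ENNReal.ofReal (X j.succ) *
      hh b (a * X 0 + ∑ i : Fin m, τ i * X i.succ))) :=
    prodEE_meas.mul ((measurable_pi_apply _).ennreal_ofReal.mul ((hh_meas b).comp (by fun_prop)))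
  rw [lintegral_split hmeas]
  simp only [Fin.prod_univ_succ, Fin.cons_zero, Fin.cons_succ]
  rw [lintegral_lintegral_swap]
  · have h1 : ∀ X' : Fin m → ℝ, ∫⁻ x, (EE x * ∏ i, EE (X' i)) * (ENNReal.ofReal (X' j) *
        hh b (a * x + ∑ i : Fin m, τ i * X' i))
        = ENNReal.ofReal b * ((∏ i, EE (X' i)) * (ENNReal.ofReal (X' j) *
          ENNReal.ofReal (phi a b (0 - ∑ i, τ i * X' i)))) := by
      intro X'
      have h2 : ∀ x, (EE x * ∏ i, EE (X' i)) * (ENNReal.ofReal (X' j) * hh b (a * x + ∑ i : Fin m, τ i * X' i))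
          = ((∏ i, EE (X' i)) * ENNReal.ofReal (X' j)) * (EE x * hh b (a * x + ∑ i : Fin m, τ i * X' i)) :=
        fun x => by ring
      simp only [h2]
      rw [lintegral_const_mul, inner_int ha hb, ENNReal.ofReal_mul hb.le, zero_sub]
      · ring
      · exact EE_meas.mul ((hh_meas b).comp (by fun_prop))
    simp only [h1]
    rw [lintegral_const_mul, pi1 ha hb, ← ENNReal.ofReal_mul hb.le]
    exact prodEE_meas.mul ((measurable_pi_apply _).ennreal_ofReal.mul
      (hphi.measurable.comp (by fun_prop)).ennreal_ofReal)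
  · refine Measurable.aemeasurable ?_
    refine Measurable.mul (Measurable.mul (EE_meas.comp measurable_fst) (prodEE_meas.comp measurable_snd)) ?_
    exact Measurable.mul (by fun_prop) ((hh_meas b).comp (by fun_prop))

end Pool.Agent.Work.MP_1c7b0d_gt
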