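import Pool.Agent.Work.MP_1c7b0d_gt.Geom1

open MeasureTheory Set Filter Topology
open scoped ENNReal

namespace Pool.Agent.Work.MP_1c7b0d_gt

variable {d : ℕ}

/-- the unit vector completing the orthogonal matrix -/
structure Zc (u : Fin (d+2) → Fin d → ℝ) (w z : Fin (d+2) → ℝ) : Prop where
  unit : ∑ i, z i * z i = 1
  orth : ∑ i, z i * Real.sqrt (w i) = 0
  orth2 : ∀ j, ∑ i, z i * (Real.sqrt (w i) * u i j) = 0

lemma exists_Zc (u : Fin (d+2) → Fin d → ℝ) (w : Fin (d+2) → ℝ) : ∃ z, Zc u w z := by
  set Φ : (Fin (d+2) → ℝ) →ₗ[ℝ] (Fin (d+1) → ℝ) :=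
    { toFun := fun z => Fin.cons (∑ i, z i * Real.sqrt (w i)) (fun j => ∑ i, z i * (Real.sqrt (w i) * u i j))
      map_add' := fun z z' => by
        funext k
        refine Fin.cases ?_ (fun j => ?_) k
        · simp [add_mul, Finset.sum_add_distrib]
        · simp [add_mul, Finset.sum_add_distrib]
      map_smul' := fun c z => by
        funext k
        refine Fin.cases ?_ (fun j => ?_) k
        · simp [mul_assoc, Finset.mul_sum]
        · simp [mul_assoc, Finset.mul_sum] } with hΦ
  have hk : LinearMap.ker Φ ≠ ⊥ := by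
    apply LinearMap.ker_ne_bot_of_finrank_lt
    simp
  obtain ⟨z, hz, hz0⟩ := (Submodule.ne_bot_iff _).1 hk
  have hz1 : Φ z = 0 := hz
  have h1 : ∑ i, z i * Real.sqrt (w i) = 0 := by
    have := congrFun hz1 0
    simpa [hΦ] using this
  have h2 : ∀ j, ∑ i, z i * (Real.sqrt (w i) * u i j) = 0 := by
    intro j
    have := congrFun hz1 j.succ
    simpa [hΦ] using this
  have h3 : 0 < ∑ i, z i * z i := by
    refine lt_of_le_of_ne (Finset.sum_nonneg (fun _ _ => mul_self_nonneg _)) (fun h => hz0 ?_)
    exact dotProduct_self_eq_zero.1 h.symm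
  set r := Real.sqrt (∑ i, z i * z i) with hr
  have hrp : 0 < r := Real.sqrt_pos.2 h3
  have hr2 : r ^ 2 = ∑ i, z i * z i := Real.sq_sqrt h3.le
  refine ⟨fun i => r⁻¹ * z i, ?_, ?_, ?_⟩
  · have : ∀ i, (r⁻¹ * z i) * (r⁻¹ * z i) = (r ^ 2)⁻¹ * (z i * z i) := by
      intro i; field_simp
    simp only [this, ← Finset.mul_sum]
    rw [← hr2]
    field_simp
  · simp only [mul_assoc, ← Finset.mul_sum, h1, mul_zero]
  · intro j
    simp only [mul_assoc, ← Finset.mul_sum, h2 j, mul_zero]

/-- the orthogonal matrix -/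
noncomputable def Om (u : Fin (d+2) → Fin d → ℝ) (w z : Fin (d+2) → ℝ) : Matrix (Fin (d+2)) (Fin (d+2)) ℝ :=
  Matrix.of fun i => Fin.cons (z i) (Fin.cons (Real.sqrt (w i))
    (fun j => -(Real.sqrt d) * (Real.sqrt (w i) * u i j)) : Fin (d+1) → ℝ)

lemma Om_orth {u : Fin (d+2) → Fin d → ℝ} {w z : Fin (d+2) → ℝ} (hd : 0 < d) (hJ : Jn u w) (hZ : Zc u w z) :
    (Om u w z).transpose * Om u w z = 1 := by
  have hsq : ∀ i, Real.sqrt (w i) * Real.sqrt (w i) = w i := fun i => Real.mul_self_sqrt (hJ.nonneg i)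
  have hsd : Real.sqrt d * Real.sqrt d = d := Real.mul_self_sqrt (Nat.cast_nonneg d)
  have hd' : (d:ℝ) ≠ 0 := by exact_mod_cast hd.ne'
  ext k l
  rw [Matrix.mul_apply]
  simp only [Matrix.transpose_apply, Om, Matrix.of_apply]
  induction k using Fin.cases with
  | zero =>
    induction l using Fin.cases with
    | zero => simpa using hZ.unit
    | succ l =>
      induction l using Fin.cases with
      | zero =>
        have h := hZ.orth
        simp only [Fin.cons_zero, Fin.cons_succ]
        rw [h, Matrix.one_apply_ne]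
        exact (Fin.succ_ne_zero 0).symm
      | succ l =>
        have h := hZ.orth2 l
        simp only [Fin.cons_zero, Fin.cons_succ]
        rw [Matrix.one_apply_ne (Fin.succ_ne_zero _).symm]
        have : ∀ i, z i * (-(Real.sqrt d) * (Real.sqrt (w i) * u i l))
          = (-(Real.sqrt d)) * (z i * (Real.sqrt (w i) * u i l)) := fun i => by ring
        simp only [this, ← Finset.mul_sum, h, mul_zero]
  | succ k =>
    induction k using Fin.cases with
    | zero =>
      induction l using Fin.cases with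
      | zero =>
        have h := hZ.orth
        simp only [Fin.cons_zero, Fin.cons_succ]
        rw [Matrix.one_apply_ne (Fin.succ_ne_zero _)]
        rw [← h]
        exact Finset.sum_congr rfl (fun i _ => by ring)
      | succ l =>
        induction l using Fin.cases with
        | zero =>
          simp only [Fin.cons_zero, Fin.cons_succ]
          rw [Matrix.one_apply_eq, ← hJ.sum]
          exact Finset.sum_congr rfl (fun i _ => hsq i)
        | succ l =>
          simp only [Fin.cons_zero, Fin.cons_succ]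
          rw [Matrix.one_apply_ne (fun h => Fin.succ_ne_zero _ (Fin.succ_injective _ h).symm)]
          have : ∀ i, Real.sqrt (w i) * (-(Real.sqrt d) * (Real.sqrt (w i) * u i l))
            = (-(Real.sqrt d)) * (w i * u i l) := fun i => by
              rw [← hsq i]; ring_nf; rw [Real.sq_sqrt (by positivity)]
          simp only [this, ← Finset.mul_sum, hJ.bary l, mul_zero]
    | succ k =>
      induction l using Fin.cases with
      | zero =>
        have h := hZ.orth2 k
        simp only [Fin.cons_zero, Fin.cons_succ]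
        rw [Matrix.one_apply_ne (Fin.succ_ne_zero _)]
        have : ∀ i, (-(Real.sqrt d) * (Real.sqrt (w i) * u i k)) * z i
          = (-(Real.sqrt d)) * (z i * (Real.sqrt (w i) * u i k)) := fun i => by ring
        simp only [this, ← Finset.mul_sum, h, mul_zero]
      | succ l =>
        induction l using Fin.cases with
        | zero =>
          simp only [Fin.cons_zero, Fin.cons_succ]
          rw [Matrix.one_apply_ne (fun h => Fin.succ_ne_zero _ (Fin.succ_injective _ h))]
          have : ∀ i, (-(Real.sqrt d) * (Real.sqrt (w i) * u i k)) * Real.sqrt (w i)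
            = (-(Real.sqrt d)) * (w i * u i k) := fun i => by
              rw [← hsq i]; ring_nf; rw [Real.sq_sqrt (by positivity)]
          simp only [this, ← Finset.mul_sum, hJ.bary k, mul_zero]
        | succ l =>
          simp only [Fin.cons_zero, Fin.cons_succ]
          have : ∀ i, (-(Real.sqrt d) * (Real.sqrt (w i) * u i k)) * (-(Real.sqrt d) * (Real.sqrt (w i) * u i l))
            = d * (w i * (u i k * u i l)) := fun i => by
              calc (-(Real.sqrt d) * (Real.sqrt (w i) * u i k)) * (-(Real.sqrt d) * (Real.sqrt (w i) * u i l))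
                  = (Real.sqrt d * Real.sqrt d) * ((Real.sqrt (w i) * Real.sqrt (w i)) * (u i k * u i l)) := by ring
                _ = _ := by rw [hsd, hsq i]
          simp only [this, ← Finset.mul_sum, hJ.frame k l, Matrix.one_apply]
          by_cases hkl : k = l
          · subst hkl; simp [hd']
          · have : ¬ (k.succ.succ = l.succ.succ) := fun h => hkl (Fin.succ_injective _ (Fin.succ_injective _ h))
            simp [hkl]

lemma row_rel {u : Fin (d+2) → Fin d → ℝ} {w z : Fin (d+2) → ℝ} (hd : 0 < d) (hJ : Jn u w) (hZ : Zc u w z)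
    (i j : Fin (d+2)) :
    z i * z j + Real.sqrt (w i) * Real.sqrt (w j) * (1 + d * (u i ⬝ᵥ u j)) = if i = j then 1 else 0 := by
  have h := Om_orth hd hJ hZ
  rw [mul_eq_one_comm] at h
  have h1 := congrFun (congrFun h i) j
  rw [Matrix.mul_apply] at h1
  simp only [Matrix.transpose_apply, Om, Matrix.of_apply] at h1
  rw [Fin.sum_univ_succ, Fin.sum_univ_succ] at h1
  simp only [Fin.cons_zero, Fin.cons_succ] at h1
  rw [Matrix.one_apply] at h1
  rw [← h1]
  have hsd : Real.sqrt d * Real.sqrt d = d := Real.mul_self_sqrt (Nat.cast_nonneg d)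
  have h2 : ∑ x, -√↑d * (√(w i) * u i x) * (-√↑d * (√(w j) * u j x))
      = √(w i) * √(w j) * (d * (u i ⬝ᵥ u j)) := by
    rw [dotProduct, Finset.mul_sum, Finset.mul_sum]
    refine Finset.sum_congr rfl (fun x _ => ?_)
    calc -√↑d * (√(w i) * u i x) * (-√↑d * (√(w j) * u j x))
        = (√d * √d) * (√(w i) * √(w j) * (u i x * u j x)) := by ring
      _ = _ := by rw [hsd]; ring
  rw [h2]
  ring

/-- the matrix of the linear map `(t, x) ↦ (w_{i+1} (t - u_{i+1} ⬝ᵥ x))_i` -/
noncomputable def MM (u : Fin (d+2) → Fin d → ℝ) (w : Fin (d+2) → ℝ) : Matrix (Fin (d+1)) (Fin (d+1)) ℝ :=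
  Matrix.of fun i => Fin.cons (w i.succ) (fun j => -(w i.succ * u i.succ j))

lemma MM_apply (u : Fin (d+2) → Fin d → ℝ) (w : Fin (d+2) → ℝ) (t : ℝ) (x : Fin d → ℝ) (i : Fin (d+1)) :
    (MM u w).mulVec (Fin.cons t x) i = w i.succ * (t - u i.succ ⬝ᵥ x) := by
  rw [Matrix.mulVec, dotProduct, Fin.sum_univ_succ]
  simp only [MM, Matrix.of_apply, Fin.cons_zero, Fin.cons_succ]
  rw [mul_sub, dotProduct, Finset.mul_sum, sub_eq_add_neg, ← Finset.sum_neg_distrib]
  congr 1
  exact Finset.sum_congr rfl (fun j _ => by ring)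

lemma MM_det_sq {u : Fin (d+2) → Fin d → ℝ} {w z : Fin (d+2) → ℝ} (hd : 0 < d) (hJ : Jn u w) (hZ : Zc u w z) :
    (MM u w).det ^ 2 = (∏ i : Fin (d+1), w i.succ) * z 0 ^ 2 * (1 / d) ^ d := by
  have hd' : (0:ℝ) < d := by exact_mod_cast hd
  have hsq : ∀ i, Real.sqrt (w i) * Real.sqrt (w i) = w i := fun i => Real.mul_self_sqrt (hJ.nonneg i)
  have hsd : 0 < Real.sqrt d := Real.sqrt_pos.2 hd'
  have h := Om_orth hd hJ hZ
  set O := Om u w z with hO
  have hdet : O.det * O.det = 1 := by
    have := congrArg Matrix.det h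
    rwa [Matrix.det_mul, Matrix.det_transpose, Matrix.det_one] at this
  have hadj : (O.submatrix Fin.succ Fin.succ).det = O.det * z 0 := by
    have h1 := Matrix.adjugate_fin_succ_eq_det_submatrix O 0 0
    simp only [Fin.val_zero, add_zero, pow_zero, one_mul] at h1
    have h2 : O.adjugate = O.det • O.transpose := by
      have h3 : O.adjugate * O = O.det • (1 : Matrix _ _ ℝ) := Matrix.adjugate_mul O
      have h4 : O * O.transpose = 1 := mul_eq_one_comm.1 h
      calc O.adjugate = O.adjugate * (O * O.transpose) := by rw [h4, Matrix.mul_one]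
        _ = (O.adjugate * O) * O.transpose := by rw [Matrix.mul_assoc]
        _ = _ := by rw [h3, Matrix.smul_mul, Matrix.one_mul]
    rw [h2] at h1
    have h5 : (O.det • O.transpose) 0 0 = O.det * z 0 := by
      rw [Matrix.smul_apply, Matrix.transpose_apply, smul_eq_mul]
      rfl
    rw [h5] at h1
    rw [h1]
    rfl
  have hM : MM u w = Matrix.diagonal (fun i : Fin (d+1) => Real.sqrt (w i.succ)) *
      (O.submatrix Fin.succ Fin.succ) * Matrix.diagonal (Fin.cons 1 (fun _ => 1 / Real.sqrt d) : Fin (d+1) → ℝ) := by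
    ext i j
    rw [Matrix.mul_diagonal, Matrix.diagonal_mul]
    simp only [MM, Matrix.of_apply, Matrix.submatrix_apply, hO, Om]
    induction j using Fin.cases with
    | zero => simp only [Fin.cons_zero, Fin.cons_succ, mul_one, hsq]
    | succ j =>
      simp only [Fin.cons_succ]
      have e : √(w i.succ) * (-√↑d * (√(w i.succ) * u i.succ j)) * (1 / √↑d)
          = -((√(w i.succ) * √(w i.succ)) * u i.succ j) := by
        field_simp
      rw [e, hsq]
  rw [hM, Matrix.det_mul, Matrix.det_mul, Matrix.det_diagonal, Matrix.det_diagonal, hadj,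
    Fin.prod_univ_succ (f := (Fin.cons 1 (fun _ => 1 / Real.sqrt d) : Fin (d+1) → ℝ))]
  simp only [Fin.cons_zero, Fin.cons_succ, Finset.prod_const, Finset.card_univ, Fintype.card_fin, one_mul]
  have e1 : (∏ i : Fin (d+1), √(w i.succ)) ^ 2 = ∏ i : Fin (d+1), w i.succ := by
    rw [← Finset.prod_pow]
    exact Finset.prod_congr rfl (fun i _ => by rw [sq, hsq])
  have e2 : ((1 / √(d:ℝ)) ^ d) ^ 2 = (1 / d) ^ d := by
    rw [← pow_mul, mul_comm d 2, pow_mul]
    congr 1
    rw [div_pow, one_pow, Real.sq_sqrt hd'.le]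
  calc ((∏ i : Fin (d+1), √(w i.succ)) * (O.det * z 0) * (1 / √(d:ℝ)) ^ d) ^ 2
      = (∏ i : Fin (d+1), √(w i.succ)) ^ 2 * (O.det * O.det) * z 0 ^ 2 * ((1 / √(d:ℝ)) ^ d) ^ 2 := by ring
    _ = _ := by rw [e1, e2, hdet]; ring

end Pool.Agent.Work.MP_1c7b0d_gt
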