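import Pool.Agent.Work.MP_1c7b0d_gt.Geom5
import Pool.Agent.Work.MP_1c7b0d_gt.Geom6

open MeasureTheory Set Filter Topology
open scoped ENNReal

namespace Pool.Agent.Work.MP_1c7b0d_gt

variable {d : ℕ}

/-- the coordinates `X_i = w_{i+1} s_{i+1}` -/
def XX (u : Fin (d+2) → Fin d → ℝ) (w : Fin (d+2) → ℝ) (p : ℝ × (Fin d → ℝ)) : Fin (d+1) → ℝ :=
  fun i => w i.succ * (p.1 - u i.succ ⬝ᵥ p.2)

theorem cov {u : Fin (d+2) → Fin d → ℝ} {w : Fin (d+2) → ℝ} (hdet : (MM u w).det ≠ 0)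
    {F : (Fin (d+1) → ℝ) → ℝ≥0∞} (hF : Measurable F) :
    ∫⁻ p : ℝ × (Fin d → ℝ), F (XX u w p) = ENNReal.ofReal |(MM u w).det⁻¹| * ∫⁻ X, F X := by
  have h := (volume_preserving_piFinSuccAbove (fun _ : Fin (d+1) => ℝ) 0).symm
  have hmeasL : Measurable (Matrix.toLin' (MM u w)) :=
    (LinearMap.continuous_of_finiteDimensional (Matrix.toLin' (MM u w))).measurable
  have h1 : ∫⁻ p : ℝ × (Fin d → ℝ), F (XX u w p)
      = ∫⁻ q : Fin (d+1) → ℝ, F (Matrix.toLin' (MM u w) q) := by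
    rw [MeasurePreserving.lintegral_map_equiv (fun q => F (Matrix.toLin' (MM u w) q)) _ h]
    refine lintegral_congr (fun p => ?_)
    congr 1
    rw [MeasurableEquiv.piFinSuccAbove_symm_apply]
    have e : (Fin.insertNthEquiv (fun _ : Fin (d+1) => ℝ) 0) p = Fin.cons p.1 p.2 := Fin.insertNth_zero' p.1 p.2
    rw [e]
    funext i
    rw [Matrix.toLin'_apply, MM_apply]
    rfl
  rw [h1, ← lintegral_map hF hmeasL, Real.map_matrix_volume_pi_eq_smul_volume_pi hdet,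
    lintegral_smul_measure, smul_eq_mul]

lemma EE_of_nonneg {x : ℝ} (hx : 0 ≤ x) : EE x = ENNReal.ofReal (Real.exp (-x)) :=
  indicator_of_mem (show x ∈ Ici (0:ℝ) from hx) _

lemma EE_of_neg {x : ℝ} (hx : x < 0) : EE x = 0 :=
  indicator_of_notMem (show x ∉ Ici (0:ℝ) from not_le.2 hx) _

lemma hh_of_nonneg {b x : ℝ} (hx : 0 ≤ x) : hh b x = ENNReal.ofReal (Real.exp (-x / b)) :=
  indicator_of_mem (show x ∈ Ici (0:ℝ) from hx) _

lemma hh_of_neg {b x : ℝ} (hx : x < 0) : hh b x = 0 :=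
  indicator_of_notMem (show x ∉ Ici (0:ℝ) from not_le.2 hx) _

lemma wsum {n : ℕ} {u : Fin n → Fin d → ℝ} {w : Fin n → ℝ} (hJ : Jn u w) (t : ℝ) (x : Fin d → ℝ) :
    ∑ i, w i * (t - u i ⬝ᵥ x) = t := by
  simp only [mul_sub, Finset.sum_sub_distrib, hJ.dot_sum, ← Finset.sum_mul, hJ.sum]
  ring

lemma tausum {n : ℕ} {u : Fin n → Fin d → ℝ} {w τ : Fin n → ℝ} (h1 : ∑ i, τ i * w i = 0)
    (h2 : ∀ j, ∑ i, τ i * w i * u i j = 0) (t : ℝ) (x : Fin d → ℝ) :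
    ∑ i, τ i * (w i * (t - u i ⬝ᵥ x)) = 0 := by
  have e : ∀ i, τ i * (w i * (t - u i ⬝ᵥ x)) = (τ i * w i) * t - ∑ j, (τ i * w i * u i j) * x j := by
    intro i
    rw [← mul_assoc, mul_sub, dotProduct, Finset.mul_sum]
    congr 1
    exact Finset.sum_congr rfl (fun j _ => by ring)
  simp only [e, Finset.sum_sub_distrib, ← Finset.sum_mul, h1]
  rw [Finset.sum_comm]
  simp only [← Finset.sum_mul, h2]
  simp

lemma pointwise_id {u : Fin (d+2) → Fin d → ℝ} {w τ : Fin (d+2) → ℝ} (hJ : Jn u w)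
    (hw : ∀ i, 0 < w i) (h1 : ∑ i, τ i * w i = 0) (h2 : ∀ j, ∑ i, τ i * w i * u i j = 0)
    {a b : ℝ} (hb : 0 < b) (h3 : τ 0 = -b) (h4 : τ 1 = a) (p : ℝ × (Fin d → ℝ)) :
    (KK u).indicator (fun p => ENNReal.ofReal (Real.exp (-p.1))) p =
    (∏ i, EE (XX u w p i)) * hh b (a * XX u w p 0 + ∑ i : Fin d, τ i.succ.succ * XX u w p i.succ) := by
  obtain ⟨t, x⟩ := p
  have hs1 := wsum hJ t x
  have hs2 := tausum h1 h2 t x
  rw [Fin.sum_univ_succ] at hs1 hs2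
  rw [Fin.sum_univ_succ (n := d)] at hs2
  have e1 : a * XX u w (t, x) 0 + ∑ i : Fin d, τ i.succ.succ * XX u w (t, x) i.succ
      = b * (w 0 * (t - u 0 ⬝ᵥ x)) := by
    have h5 : τ (Fin.succ 0) = a := h4
    rw [h3, h5] at hs2
    simp only [XX]
    linarith
  by_cases hp : (t, x) ∈ KK u
  · rw [indicator_of_mem hp]
    have hX : ∀ i, 0 ≤ XX u w (t, x) i := fun i =>
      mul_nonneg (hw _).le (sub_nonneg.2 (hp i.succ))
    have h0 : 0 ≤ w 0 * (t - u 0 ⬝ᵥ x) := mul_nonneg (hw _).le (sub_nonneg.2 (hp 0))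
    rw [e1, hh_of_nonneg (mul_nonneg hb.le h0)]
    have h5 : ∏ i, EE (XX u w (t, x) i) = ENNReal.ofReal (Real.exp (-∑ i, XX u w (t, x) i)) := by
      rw [← Finset.sum_neg_distrib, Real.exp_sum, ENNReal.ofReal_prod_of_nonneg (fun i _ => (Real.exp_pos _).le)]
      exact Finset.prod_congr rfl (fun i _ => EE_of_nonneg (hX i))
    rw [h5, ← ENNReal.ofReal_mul (Real.exp_pos _).le, ← Real.exp_add]
    congr 2
    have h6 : ∑ i, XX u w (t, x) i = ∑ i : Fin (d+1), w i.succ * (t - u i.succ ⬝ᵥ x) := rfl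
    rw [h6]
    have h7 : -(b * (w 0 * (t - u 0 ⬝ᵥ x))) / b = -(w 0 * (t - u 0 ⬝ᵥ x)) := by field_simp
    rw [h7]
    simp only
    linarith
  · rw [indicator_of_notMem hp]
    have hex : ∃ i, t - u i ⬝ᵥ x < 0 := by
      by_contra hcon
      push Not at hcon
      exact hp (fun i => sub_nonneg.1 (hcon i))
    obtain ⟨i, hi⟩ := hex
    induction i using Fin.cases with
    | zero =>
      rw [e1, hh_of_neg, mul_zero]
      exact mul_neg_of_pos_of_neg hb (mul_neg_of_pos_of_neg (hw _) hi)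
    | succ i =>
      rw [Finset.prod_eq_zero (Finset.mem_univ i), zero_mul]
      exact EE_of_neg (mul_neg_of_pos_of_neg (hw _) hi)

theorem E0 {u : Fin (d+2) → Fin d → ℝ} {w τ : Fin (d+2) → ℝ} (hJ : Jn u w)
    (hw : ∀ i, 0 < w i) (h1 : ∑ i, τ i * w i = 0) (h2 : ∀ j, ∑ i, τ i * w i * u i j = 0)
    {a b : ℝ} (ha : 0 < a) (hb : 0 < b) (h3 : τ 0 = -b) (h4 : τ 1 = a) (hdet : (MM u w).det ≠ 0) :
    ∫⁻ p in KK u, ENNReal.ofReal (Real.exp (-p.1)) = ENNReal.ofReal |(MM u w).det⁻¹| *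
      ENNReal.ofReal (b * gL a b (List.ofFn fun i : Fin d => τ i.succ.succ) 0) := by
  rw [← lintegral_indicator (KK_meas u), ← full0 ha hb, ← cov hdet]
  · exact lintegral_congr (fun p => pointwise_id hJ hw h1 h2 hb h3 h4 p)
  · exact prodEE_meas.mul ((hh_meas b).comp (by fun_prop))

theorem E1 {u : Fin (d+2) → Fin d → ℝ} {w τ : Fin (d+2) → ℝ} (hJ : Jn u w)
    (hw : ∀ i, 0 < w i) (h1 : ∑ i, τ i * w i = 0) (h2 : ∀ j, ∑ i, τ i * w i * u i j = 0)
    {a b : ℝ} (ha : 0 < a) (hb : 0 < b) (h3 : τ 0 = -b) (h4 : τ 1 = a) (hdet : (MM u w).det ≠ 0)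
    (j : Fin d) :
    ∫⁻ p in KK u, ENNReal.ofReal (w j.succ.succ * (p.1 - u j.succ.succ ⬝ᵥ p.2)) * ENNReal.ofReal (Real.exp (-p.1))
      = ENNReal.ofReal |(MM u w).det⁻¹| *
      ENNReal.ofReal (b * T (τ j.succ.succ) (gL a b (List.ofFn fun i : Fin d => τ i.succ.succ)) 0) := by
  rw [← lintegral_indicator (KK_meas u), ← full1 ha hb (fun i : Fin d => τ i.succ.succ) j, ← cov hdet]
  · refine lintegral_congr (fun p => ?_)
    have h := pointwise_id hJ hw h1 h2 hb h3 h4 p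
    have e : (KK u).indicator (fun p : ℝ × (Fin d → ℝ) => ENNReal.ofReal (w j.succ.succ * (p.1 - u j.succ.succ ⬝ᵥ p.2)) *
        ENNReal.ofReal (Real.exp (-p.1))) p = ENNReal.ofReal (XX u w p j.succ) *
        (KK u).indicator (fun p => ENNReal.ofReal (Real.exp (-p.1))) p := by
      by_cases hp : p ∈ KK u
      · rw [indicator_of_mem hp, indicator_of_mem hp]; rfl
      · rw [indicator_of_notMem hp, indicator_of_notMem hp, mul_zero]
    rw [e, h]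
    ring
  · exact prodEE_meas.mul ((measurable_pi_apply _).ennreal_ofReal.mul ((hh_meas b).comp (by fun_prop)))

end Pool.Agent.Work.MP_1c7b0d_gt
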