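import Pool.Agent.Work.MP_1c7b0d_gt.Geom7
import Pool.Agent.Work.MP_1c7b0d_gt.Geom4
import Pool.Agent.Work.MP_1c7b0d_gt.Closed

open MeasureTheory Set Filter Topology
open scoped ENNReal

namespace Pool.Agent.Work.MP_1c7b0d_gt

variable {d : ℕ}

lemma KK_perm {n : ℕ} (u : Fin n → Fin d → ℝ) (σ : Equiv.Perm (Fin n)) : KK (u ∘ σ) = KK u := by
  ext p
  constructor
  · intro h i
    have := h (σ.symm i)
    simpa using this
  · intro h i
    exact h (σ i)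

lemma PP_perm {n : ℕ} (u : Fin n → Fin d → ℝ) (σ : Equiv.Perm (Fin n)) (t : ℝ) : PP (u ∘ σ) t = PP u t := by
  ext p
  constructor
  · intro h i
    have := h (σ.symm i)
    simpa using this
  · intro h i
    exact h (σ i)

lemma Jn.perm {n : ℕ} {u : Fin n → Fin d → ℝ} {w : Fin n → ℝ} (h : Jn u w) (σ : Equiv.Perm (Fin n)) :
    Jn (u ∘ σ) (w ∘ σ) where
  unit i := h.unit (σ i)
  nonneg i := h.nonneg (σ i)
  sum := by rw [← h.sum]; exact Equiv.sum_comp σ w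
  bary j := by rw [← h.bary j]; exact Equiv.sum_comp σ (fun i => w i * u i j)
  frame j k := by rw [← h.frame j k]; exact Equiv.sum_comp σ (fun i => w i * (u i j * u i k))

lemma Zc.perm {u : Fin (d+2) → Fin d → ℝ} {w z : Fin (d+2) → ℝ} (h : Zc u w z) (σ : Equiv.Perm (Fin (d+2))) :
    Zc (u ∘ σ) (w ∘ σ) (z ∘ σ) where
  unit := by rw [← h.unit]; exact Equiv.sum_comp σ (fun i => z i * z i)
  orth := by rw [← h.orth]; exact Equiv.sum_comp σ (fun i => z i * Real.sqrt (w i))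
  orth2 j := by rw [← h.orth2 j]; exact Equiv.sum_comp σ (fun i => z i * (Real.sqrt (w i) * u i j))

/-- the normalised coordinate `z_i / √((d+1) w_i)` -/
noncomputable def tau (d : ℕ) (w z : Fin (d+2) → ℝ) (i : Fin (d+2)) : ℝ :=
  z i / (Real.sqrt (d + 1) * Real.sqrt (w i))

section
variable {u : Fin (d+2) → Fin d → ℝ} {w z : Fin (d+2) → ℝ}

lemma z_eq (hw : ∀ i, 0 < w i) (i : Fin (d+2)) : z i = tau d w z i * (Real.sqrt (d + 1) * Real.sqrt (w i)) := by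
  unfold tau
  have h1 : 0 < Real.sqrt (d + 1) := Real.sqrt_pos.2 (by positivity)
  have h2 : 0 < Real.sqrt (w i) := Real.sqrt_pos.2 (hw i)
  field_simp

lemma tau_w (hw : ∀ i, 0 < w i) (i : Fin (d+2)) :
    tau d w z i * w i = (Real.sqrt (d + 1))⁻¹ * (z i * Real.sqrt (w i)) := by
  have h1 : 0 < Real.sqrt (d + 1) := Real.sqrt_pos.2 (by positivity)
  have h2 : 0 < Real.sqrt (w i) := Real.sqrt_pos.2 (hw i)
  have h3 : Real.sqrt (w i) * Real.sqrt (w i) = w i := Real.mul_self_sqrt (hw i).le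
  calc tau d w z i * w i = z i / (Real.sqrt (d + 1) * Real.sqrt (w i)) * (Real.sqrt (w i) * Real.sqrt (w i)) := by
        rw [h3]; rfl
    _ = _ := by field_simp

lemma tau1 (hw : ∀ i, 0 < w i) (hZ : Zc u w z) : ∑ i, tau d w z i * w i = 0 := by
  simp only [tau_w hw, ← Finset.mul_sum, hZ.orth, mul_zero]

lemma tau2 (hw : ∀ i, 0 < w i) (hZ : Zc u w z) (j : Fin d) : ∑ i, tau d w z i * w i * u i j = 0 := by
  have : ∀ i, tau d w z i * w i * u i j = (Real.sqrt (d + 1))⁻¹ * (z i * (Real.sqrt (w i) * u i j)) := by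
    intro i; rw [tau_w hw]; ring
  simp only [this, ← Finset.mul_sum, hZ.orth2 j, mul_zero]

lemma tau_sq (hw : ∀ i, 0 < w i) (i : Fin (d+2)) : z i ^ 2 = tau d w z i ^ 2 * ((d + 1) * w i) := by
  have h := z_eq (d := d) (z := z) hw i
  calc z i ^ 2 = (tau d w z i * (Real.sqrt (d + 1) * Real.sqrt (w i))) ^ 2 := by rw [← h]
    _ = _ := by rw [mul_pow, mul_pow, Real.sq_sqrt (by positivity), Real.sq_sqrt (hw i).le]

lemma tau3 (hd : 0 < d) (hw : ∀ i, 0 < w i) (hJ : Jn u w) (hZ : Zc u w z) (i : Fin (d+2)) :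
    (d + 1) * w i * (1 + tau d w z i ^ 2) = 1 := by
  have h := row_rel hd hJ hZ i i
  rw [if_pos rfl, Real.mul_self_sqrt (hw i).le, hJ.unit i, mul_one] at h
  have h2 := tau_sq (d := d) (z := z) hw i
  nlinarith

lemma tau4 (hd : 0 < d) (hw : ∀ i, 0 < w i) (hJ : Jn u w) (hZ : Zc u w z) {i j : Fin (d+2)} (hij : i ≠ j) :
    1 + d * (u i ⬝ᵥ u j) = -((d + 1) * (tau d w z i * tau d w z j)) := by
  have h := row_rel hd hJ hZ i j
  rw [if_neg hij] at h
  have h1 := z_eq (d := d) (z := z) hw i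
  have h2 := z_eq (d := d) (z := z) hw j
  rw [h1, h2] at h
  have h3 : Real.sqrt (d + 1) * Real.sqrt (d + 1) = (d:ℝ) + 1 := Real.mul_self_sqrt (by positivity)
  have h4 : 0 < Real.sqrt (w i) * Real.sqrt (w j) :=
    mul_pos (Real.sqrt_pos.2 (hw i)) (Real.sqrt_pos.2 (hw j))
  have h5 : (Real.sqrt (w i) * Real.sqrt (w j)) * ((1 + d * (u i ⬝ᵥ u j)) + (d + 1) * (tau d w z i * tau d w z j)) = 0 := by
    calc (Real.sqrt (w i) * Real.sqrt (w j)) * ((1 + d * (u i ⬝ᵥ u j)) + (d + 1) * (tau d w z i * tau d w z j))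
        = (Real.sqrt (w i) * Real.sqrt (w j)) * ((1 + d * (u i ⬝ᵥ u j)) +
          (Real.sqrt (d + 1) * Real.sqrt (d + 1)) * (tau d w z i * tau d w z j)) := by rw [h3]
      _ = _ := by rw [← h]; ring
  rcases mul_eq_zero.1 h5 with h6 | h6
  · exact absurd h6 h4.ne'
  · linarith

lemma tau_neg (hw : ∀ i, 0 < w i) {i : Fin (d+2)} (h : z i < 0) : tau d w z i < 0 := by
  have h1 : 0 < Real.sqrt (d + 1) := Real.sqrt_pos.2 (by positivity)
  have h2 : 0 < Real.sqrt (w i) := Real.sqrt_pos.2 (hw i)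
  exact div_neg_of_neg_of_pos h (mul_pos h1 h2)

lemma tau_pos (hw : ∀ i, 0 < w i) {i : Fin (d+2)} (h : 0 < z i) : 0 < tau d w z i := by
  have h1 : 0 < Real.sqrt (d + 1) := Real.sqrt_pos.2 (by positivity)
  have h2 : 0 < Real.sqrt (w i) := Real.sqrt_pos.2 (hw i)
  exact div_pos h (mul_pos h1 h2)

/-- list of the other values -/
noncomputable def Lt (d : ℕ) (w z : Fin (d+2) → ℝ) : List ℝ := List.ofFn fun i : Fin d => tau d w z i.succ.succ

lemma Lt_prod (a b : ℝ) (h3 : tau d w z 0 = -b) (h4 : tau d w z 1 = a) :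
    ((a :: -b :: Lt d w z).map (fun σ => 1 + σ ^ 2)).prod = ∏ i, (1 + tau d w z i ^ 2) := by
  rw [Fin.prod_univ_succ, Fin.prod_univ_succ (n := d), h3]
  have h5 : tau d w z (Fin.succ 0) = a := h4
  rw [h5]
  simp only [List.map_cons, List.prod_cons, Lt, List.map_ofFn, List.prod_ofFn, Function.comp]
  ring

lemma det_ne (hd : 0 < d) (hw : ∀ i, 0 < w i) (hJ : Jn u w) (hZ : Zc u w z) (h0 : z 0 ≠ 0) :
    (MM u w).det ≠ 0 := by
  intro h
  have h1 := MM_det_sq hd hJ hZ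
  rw [h] at h1
  have h2 : 0 < (∏ i : Fin (d+1), w i.succ) * z 0 ^ 2 * (1 / d) ^ d := by
    have : (0:ℝ) < d := by exact_mod_cast hd
    have h3 : 0 < ∏ i : Fin (d+1), w i.succ := Finset.prod_pos (fun i _ => hw _)
    have h4 : 0 < z 0 ^ 2 := by positivity
    positivity
  rw [← h1] at h2
  simp at h2

lemma F_eq (hw : ∀ i, 0 < w i) (hJ : Jn u w) (hZ : Zc u w z) {a b : ℝ} (ha : 0 < a) (hb : 0 < b)
    (h3 : tau d w z 0 = -b) (h4 : tau d w z 1 = a) (hdet : (MM u w).det ≠ 0) :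
    ∫ p in KK u, Real.exp (-p.1) = |(MM u w).det⁻¹| * (b * gL a b (Lt d w z) 0) := by
  have h := E0 hJ hw (tau1 hw hZ) (tau2 hw hZ) ha hb h3 h4 hdet
  have hnn : 0 ≤ b * gL a b (Lt d w z) 0 := mul_nonneg hb.le (gL_pos ha hb _ _).le
  rw [← ofReal_integral_eq_lintegral_ofReal hJ.F0.1 (ae_of_all _ (fun p => (Real.exp_pos _).le)),
    ← ENNReal.ofReal_mul (abs_nonneg _)] at h
  exact (ENNReal.ofReal_eq_ofReal_iff (integral_nonneg (fun p => (Real.exp_pos _).le))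
    (mul_nonneg (abs_nonneg _) hnn)).1 h

/-- the volume formula -/
theorem vol_formula (hd : 0 < d) (hw : ∀ i, 0 < w i) (hJ : Jn u w) (hZ : Zc u w z) {a b : ℝ} (ha : 0 < a) (hb : 0 < b)
    (h3 : tau d w z 0 = -b) (h4 : tau d w z 1 = a) :
    (volume (PP u 1)).toReal ^ 2 = vsq d * ((gL a b (Lt d w z) 0) ^ 2 *
      ((a :: -b :: Lt d w z).map (fun σ => 1 + σ ^ 2)).prod) := by
  have hd' : (0:ℝ) < d := by exact_mod_cast hd
  have hz0 : z 0 ≠ 0 := by
    intro h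
    have : tau d w z 0 = 0 := by unfold tau; rw [h, zero_div]
    linarith
  have hdet := det_ne hd hw hJ hZ hz0
  have hF := F_eq hw hJ hZ ha hb h3 h4 hdet
  have hD := MM_det_sq hd hJ hZ
  rw [Lt_prod a b h3 h4]
  rw [hJ.F0.2] at hF
  set V := (volume (PP u 1)).toReal with hV
  set g := gL a b (Lt d w z) 0 with hg
  have hprod : (∏ i, w i) * (∏ i, (1 + tau d w z i ^ 2)) * ((d:ℝ) + 1) ^ (d + 2) = 1 := by
    have h5 : ∏ i : Fin (d+2), (((d:ℝ) + 1) * w i * (1 + tau d w z i ^ 2)) = 1 :=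
      Finset.prod_eq_one (fun i _ => tau3 hd hw hJ hZ i)
    rw [Finset.prod_mul_distrib, Finset.prod_mul_distrib, Finset.prod_const, Finset.card_univ,
      Fintype.card_fin] at h5
    calc _ = ((d:ℝ) + 1) ^ (d + 2) * (∏ i, w i) * ∏ i, (1 + tau d w z i ^ 2) := by ring
      _ = 1 := h5
  have hz0sq : z 0 ^ 2 = b ^ 2 * ((d + 1) * w 0) := by
    rw [tau_sq (d := d) (z := z) hw 0, h3]; ring
  have hsq : (d.factorial * V) ^ 2 * (MM u w).det ^ 2 = (b * g) ^ 2 := by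
    rw [hF, mul_pow, sq_abs, inv_pow]
    have : (MM u w).det ^ 2 ≠ 0 := pow_ne_zero 2 hdet
    field_simp
  rw [hD, hz0sq] at hsq
  have hwp : ∏ i, w i = w 0 * ∏ i : Fin (d+1), w i.succ := Fin.prod_univ_succ w
  have h6 : (d.factorial * V) ^ 2 * ((d + 1) * (∏ i, w i) * (1 / d) ^ d) = g ^ 2 := by
    have hb2 : b ^ 2 ≠ 0 := pow_ne_zero 2 hb.ne'
    apply mul_left_cancel₀ hb2
    rw [hwp]
    calc b ^ 2 * ((d.factorial * V) ^ 2 * ((d + 1) * (w 0 * ∏ i : Fin (d+1), w i.succ) * (1 / d) ^ d))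
        = (d.factorial * V) ^ 2 * ((∏ i : Fin (d+1), w i.succ) * (b ^ 2 * ((d + 1) * w 0)) * (1 / d) ^ d) := by ring
      _ = b ^ 2 * g ^ 2 := by rw [hsq]; ring
  have hfac : (0:ℝ) < d.factorial := Nat.cast_pos.2 (Nat.factorial_pos d)
  rw [← h6]
  unfold vsq
  have h7 : (1 / (d:ℝ)) ^ d * (d:ℝ) ^ d = 1 := by
    rw [← mul_pow]; field_simp; simp
  set W := ∏ i, w i
  set Q := ∏ i, (1 + tau d w z i ^ 2)
  have h8 : ((d:ℝ) + 1) ^ (d + 2) = ((d:ℝ) + 1) ^ (d + 1) * (d + 1) := pow_succ _ _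
  rw [h8] at hprod
  calc V ^ 2 = V ^ 2 * (W * Q * ((d + 1) ^ (d + 1) * (d + 1))) * ((1 / (d:ℝ)) ^ d * (d:ℝ) ^ d) := by
        rw [hprod, h7]; ring
    _ = _ := by field_simp

end

end Pool.Agent.Work.MP_1c7b0d_gt
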