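import Pool.Agent.Work.MP_1c7b0d_gt.Geom8

open MeasureTheory Set Filter Topology
open scoped ENNReal

namespace Pool.Agent.Work.MP_1c7b0d_gt

variable {d : ℕ}

section
variable {u : Fin (d+2) → Fin d → ℝ} {w z : Fin (d+2) → ℝ}

lemma int_s {n : ℕ} {u : Fin n → Fin d → ℝ} {w : Fin n → ℝ} (hJ : Jn u w)
    (hc : ∀ v : Fin d → ℝ, ∫ p in KK u, Real.exp (-p.1) * (v ⬝ᵥ p.2) = 0) (c : ℝ) (i : Fin n) :
    IntegrableOn (fun p : ℝ × (Fin d → ℝ) => c * (p.1 - u i ⬝ᵥ p.2) * Real.exp (-p.1)) (KK u) ∧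
    ∫ p in KK u, c * (p.1 - u i ⬝ᵥ p.2) * Real.exp (-p.1) = c * ((d + 1) * ∫ p in KK u, Real.exp (-p.1)) := by
  have e : (fun p : ℝ × (Fin d → ℝ) => c * (p.1 - u i ⬝ᵥ p.2) * Real.exp (-p.1))
      = fun p => c * (Real.exp (-p.1) * p.1 - Real.exp (-p.1) * (u i ⬝ᵥ p.2)) := by
    funext p; ring
  rw [e]
  have h1 := hJ.F1
  have h2 := hJ.int_dot (u i)
  refine ⟨(h1.1.sub h2).const_mul c, ?_⟩
  rw [integral_const_mul, integral_sub h1.1 h2, hc, h1.2, sub_zero]

lemma T_val (hw : ∀ i, 0 < w i) (hJ : Jn u w) (hZ : Zc u w z) {a b : ℝ} (ha : 0 < a) (hb : 0 < b)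
    (h3 : tau d w z 0 = -b) (h4 : tau d w z 1 = a) (hdet : (MM u w).det ≠ 0)
    (hc : ∀ v : Fin d → ℝ, ∫ p in KK u, Real.exp (-p.1) * (v ⬝ᵥ p.2) = 0) (j : Fin d) :
    T (tau d w z j.succ.succ) (gL a b (Lt d w z)) 0 = (d + 1) * w j.succ.succ * gL a b (Lt d w z) 0 := by
  have h := E1 hJ hw (tau1 hw hZ) (tau2 hw hZ) ha hb h3 h4 hdet j
  have hF := F_eq hw hJ hZ ha hb h3 h4 hdet
  have hs := int_s hJ hc (w j.succ.succ) j.succ.succ
  have hnn : ∀ᵐ p ∂(volume.restrict (KK u)), 0 ≤ w j.succ.succ * (p.1 - u j.succ.succ ⬝ᵥ p.2) * Real.exp (-p.1) := by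
    filter_upwards [ae_restrict_mem (KK_meas u)] with p hp
    exact mul_nonneg (mul_nonneg (hw _).le (sub_nonneg.2 (hp _))) (Real.exp_pos _).le
  have h5 : ∫⁻ p in KK u, ENNReal.ofReal (w j.succ.succ * (p.1 - u j.succ.succ ⬝ᵥ p.2)) * ENNReal.ofReal (Real.exp (-p.1))
      = ENNReal.ofReal (w j.succ.succ * ((d + 1) * ∫ p in KK u, Real.exp (-p.1))) := by
    rw [← hs.2, ofReal_integral_eq_lintegral_ofReal hs.1 hnn]
    refine setLIntegral_congr_fun (KK_meas u) (fun p hp => ?_)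
    rw [ENNReal.ofReal_mul (mul_nonneg (hw _).le (sub_nonneg.2 (hp _)))]
  rw [h5] at h
  have hT : 0 ≤ T (tau d w z j.succ.succ) (gL a b (Lt d w z)) 0 := T_nonneg (fun y => (gL_pos ha hb _ y).le) _ _
  rw [← ENNReal.ofReal_mul (abs_nonneg _)] at h
  have hF0 : 0 ≤ ∫ p in KK u, Real.exp (-p.1) := integral_nonneg (fun p => (Real.exp_pos _).le)
  have h6 := (ENNReal.ofReal_eq_ofReal_iff (mul_nonneg (hw _).le (mul_nonneg (by positivity) hF0))
    (mul_nonneg (abs_nonneg _) (mul_nonneg hb.le hT))).1 h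
  rw [hF] at h6
  have h7 : |(MM u w).det⁻¹| ≠ 0 := abs_ne_zero.2 (inv_ne_zero hdet)
  have h8 : |(MM u w).det⁻¹| * b ≠ 0 := mul_ne_zero h7 hb.ne'
  apply mul_left_cancel₀ h8
  linarith

theorem crit_of_centroid (hd : 0 < d) (hw : ∀ i, 0 < w i) (hJ : Jn u w) (hZ : Zc u w z) {a b : ℝ}
    (ha : 0 < a) (hb : 0 < b) (h3 : tau d w z 0 = -b) (h4 : tau d w z 1 = a)
    (hc : ∀ v : Fin d → ℝ, ∫ p in KK u, Real.exp (-p.1) * (v ⬝ᵥ p.2) = 0) :
    Crit a b (Lt d w z) := by
  have hz0 : z 0 ≠ 0 := by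
    intro h
    have : tau d w z 0 = 0 := by unfold tau; rw [h, zero_div]
    linarith
  have hdet := det_ne hd hw hJ hZ hz0
  set g := gL a b (Lt d w z) with hg
  have hval : ∀ i : Fin (d+2), (d + 1) * w i * g 0 = g 0 / (1 + tau d w z i ^ 2) := by
    intro i
    have h5 := tau3 hd hw hJ hZ i
    have h6 : (0:ℝ) < 1 + tau d w z i ^ 2 := by positivity
    rw [eq_div_iff h6.ne']
    calc (d + 1) * w i * g 0 * (1 + tau d w z i ^ 2) = ((d + 1) * w i * (1 + tau d w z i ^ 2)) * g 0 := by ring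
      _ = g 0 := by rw [h5, one_mul]
  have hT : ∀ j : Fin d, T (tau d w z j.succ.succ) g 0 = (d + 1) * w j.succ.succ * g 0 :=
    fun j => T_val hw hJ hZ ha hb h3 h4 hdet hc j
  have hS1 := S_gL_zero ha hb (Lt d w z)
  have hS2 := S2_zero ha hb (Lt d w z)
  rw [← hg] at hS1 hS2
  simp only [S, List.map_cons, List.sum_cons, Lt, List.map_ofFn, List.sum_ofFn, Function.comp, hT] at hS1 hS2
  have hw1 := hJ.sum
  have ht1 := tau1 (d := d) (u := u) hw hZ
  rw [Fin.sum_univ_succ, Fin.sum_univ_succ (n := d)] at hw1 ht1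
  have h4' : tau d w z (Fin.succ 0) = a := h4
  rw [h3, h4'] at ht1
  have e1 : ∑ i : Fin d, tau d w z i.succ.succ * ((d + 1) * w i.succ.succ * g 0)
      = (d + 1) * g 0 * ∑ i : Fin d, tau d w z i.succ.succ * w i.succ.succ := by
    rw [Finset.mul_sum]; exact Finset.sum_congr rfl (fun i _ => by ring)
  have e2 : ∑ i : Fin d, (g 0 - (d + 1) * w i.succ.succ * g 0)
      = d * g 0 - (d + 1) * g 0 * ∑ i : Fin d, w i.succ.succ := by
    rw [Finset.sum_sub_distrib, Finset.mul_sum, Finset.sum_const, Finset.card_univ, Fintype.card_fin, nsmul_eq_mul]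
    congr 1
    exact Finset.sum_congr rfl (fun i _ => by ring)
  rw [e1] at hS1
  rw [e2] at hS2
  set w0 := w 0
  set w1 := w (Fin.succ 0)
  set A := T a g 0
  set B := T (-b) g 0
  have hα : a * (A - (d + 1) * w1 * g 0) = b * (B - (d + 1) * w0 * g 0) := by
    have : ∑ i : Fin d, tau d w z i.succ.succ * w i.succ.succ = b * w0 - a * w1 := by linarith
    rw [this] at hS1
    linarith
  have hβ : (A - (d + 1) * w1 * g 0) + (B - (d + 1) * w0 * g 0) = 0 := by
    have : ∑ i : Fin d, w i.succ.succ = 1 - w0 - w1 := by linarith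
    rw [this] at hS2
    linarith
  have hα0 : A - (d + 1) * w1 * g 0 = 0 := by
    have h5 : (a + b) * (A - (d + 1) * w1 * g 0) = 0 := by
      have : B - (d + 1) * w0 * g 0 = -(A - (d + 1) * w1 * g 0) := by linarith
      rw [this] at hα
      linarith
    rcases mul_eq_zero.1 h5 with h6 | h6
    · linarith
    · exact h6
  have hβ0 : B - (d + 1) * w0 * g 0 = 0 := by linarith
  intro σ hσ
  simp only [List.mem_cons] at hσ
  rcases hσ with h5 | h5 | h5
  · rw [h5]
    have h6 := hval (Fin.succ 0)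
    rw [h4'] at h6
    rw [← h6]
    linarith
  · rw [h5]
    have h6 := hval 0
    rw [h3] at h6
    rw [← h6]
    linarith
  · unfold Lt at h5
    rw [List.mem_ofFn] at h5
    obtain ⟨j, hj⟩ := h5
    rw [← hj, hT j, hval]

/-- the Gram pattern of a product of two regular simplices -/
def Gram {n : ℕ} (u : Fin n → Fin d → ℝ) (A : Finset (Fin n)) (k j : ℕ) : Prop :=
  ∀ i l, i ≠ l → u i ⬝ᵥ u l = if i ∈ A ∧ l ∈ A then -1 / (k:ℝ) else if i ∉ A ∧ l ∉ A then -1 / (j:ℝ) else 0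

lemma gram_of_perm (hd : 0 < d) (hw : ∀ i, 0 < w i) (hJ : Jn u w) (hZ : Zc u w z) {a b : ℝ}
    (ha : 0 < a) (hb : 0 < b) (h3 : tau d w z 0 = -b) (h4 : tau d w z 1 = a) {k j : ℕ}
    (hk : 1 ≤ k) (hj : 1 ≤ j) (hkj : k + j = d)
    (hL : (Lt d w z).Perm (KJ a b k j)) (h5 : (j:ℝ) * b = k * a) (h6 : ((k:ℝ) + j + 1) * (a * b) = 1) :
    ∃ A : Finset (Fin (d+2)), A.card = k + 1 ∧ Gram u A k j := by
  classical
  have hd' : (0:ℝ) < d := by exact_mod_cast hd
  have hkr : (0:ℝ) < k := by exact_mod_cast hk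
  have hjr : (0:ℝ) < j := by exact_mod_cast hj
  have hkjr : (k:ℝ) + j = d := by exact_mod_cast hkj
  have hab : -b ≠ a := by linarith
  have h4' : tau d w z (Fin.succ 0) = a := h4
  have hτ : ∀ i, tau d w z i = a ∨ tau d w z i = -b := by
    intro i
    induction i using Fin.cases with
    | zero => exact Or.inr h3
    | succ i =>
      induction i using Fin.cases with
      | zero => exact Or.inl h4
      | succ i =>
        have h7 : tau d w z i.succ.succ ∈ Lt d w z := by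
          unfold Lt; rw [List.mem_ofFn]; exact ⟨i, rfl⟩
        have h8 := hL.mem_iff.1 h7
        simp only [KJ, List.mem_append, List.mem_replicate] at h8
        rcases h8 with h8 | h8
        · exact Or.inl h8.2
        · exact Or.inr h8.2
  refine ⟨Finset.univ.filter (fun i => tau d w z i = a), ?_, ?_⟩
  · rw [Finset.card_filter, Fin.sum_univ_succ, Fin.sum_univ_succ (n := d), h3, h4', if_neg hab, if_pos rfl]
    have h7 : ∑ i : Fin d, (if tau d w z i.succ.succ = a then 1 else 0) = k := by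
      have h8 := (hL.map (fun x => if x = a then (1:ℕ) else 0)).sum_eq
      simp only [Lt, List.map_ofFn, List.sum_ofFn, Function.comp, KJ, List.map_append, List.map_replicate,
        List.sum_append, List.sum_replicate, if_true, if_neg hab, smul_eq_mul, mul_one, mul_zero, add_zero] at h8
      exact h8
    rw [h7]; ring
  · intro i l hil
    have h7 := tau4 hd hw hJ hZ hil
    simp only [Finset.mem_filter, Finset.mem_univ, true_and]
    have hda : (d + 1) * (a * b) = 1 := by rw [← hkjr]; exact h6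
    have ha2 : k * ((d + 1) * (a * a)) = (j:ℝ) := by
      calc k * ((d + 1) * (a * a)) = (d + 1) * a * (k * a) := by ring
        _ = (d + 1) * a * (j * b) := by rw [h5]
        _ = j * ((d + 1) * (a * b)) := by ring
        _ = j := by rw [hda, mul_one]
    have hb2 : j * ((d + 1) * (b * b)) = (k:ℝ) := by
      calc j * ((d + 1) * (b * b)) = (d + 1) * b * (j * b) := by ring
        _ = (d + 1) * b * (k * a) := by rw [h5]
        _ = k * ((d + 1) * (a * b)) := by ring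
        _ = k := by rw [hda, mul_one]
    rcases hτ i with hi | hi <;> rcases hτ l with hl | hl
    · rw [if_pos ⟨hi, hl⟩]
      rw [hi, hl] at h7
      rw [eq_div_iff hkr.ne']
      have h8 : d * (u i ⬝ᵥ u l * k) = d * (-1) := by
        have : k * (1 + d * u i ⬝ᵥ u l) = -(j:ℝ) := by rw [h7, mul_neg, ha2]
        rw [← hkjr] at this ⊢
        linarith
      exact mul_left_cancel₀ hd'.ne' h8
    · rw [if_neg (by rw [hl]; tauto), if_neg (by rw [hi]; tauto)]
      rw [hi, hl] at h7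
      have h8 : d * (u i ⬝ᵥ u l) = d * 0 := by linarith
      exact mul_left_cancel₀ hd'.ne' h8
    · rw [if_neg (by rw [hi]; tauto), if_neg (by rw [hl]; tauto)]
      rw [hi, hl] at h7
      have h8 : d * (u i ⬝ᵥ u l) = d * 0 := by linarith
      exact mul_left_cancel₀ hd'.ne' h8
    · rw [if_neg (by rw [hi]; tauto), if_pos ⟨by rw [hi]; exact hab, by rw [hl]; exact hab⟩]
      rw [hi, hl] at h7
      rw [eq_div_iff hjr.ne']
      have h8 : d * (u i ⬝ᵥ u l * j) = d * (-1) := by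
        have : j * (1 + d * u i ⬝ᵥ u l) = -(k:ℝ) := by
          rw [h7, mul_neg, neg_mul_neg, hb2]
        rw [← hkjr] at this ⊢
        linarith
      exact mul_left_cancel₀ hd'.ne' h8

end

/-- case where all John weights are positive -/
theorem caseII {u : Fin (d+2) → Fin d → ℝ} {w : Fin (d+2) → ℝ} (hd : 0 < d) (hJ : Jn u w) (hw : ∀ i, 0 < w i)
    (hc : ∀ v : Fin d → ℝ, ∫ p in KK u, Real.exp (-p.1) * (v ⬝ᵥ p.2) = 0) :
    ∃ k j : ℕ, k + j ≤ d ∧ ((k = 0 ∧ j = 0) ∨ (1 ≤ k ∧ 1 ≤ j)) ∧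
      (volume (PP u 1)).toReal ^ 2 = vsq d * (vsq k * vsq j / vsq (k + j)) ∧
      (k + j = d → ∃ A : Finset (Fin (d+2)), A.card = k + 1 ∧ Gram u A k j) := by
  obtain ⟨z, hZ⟩ := exists_Zc u w
  have hz : ∃ i, z i ≠ 0 := by
    by_contra hcon
    push Not at hcon
    have := hZ.unit
    simp [hcon] at this
  obtain ⟨i0, hi0⟩ := hz
  have hsw : ∀ i, 0 < Real.sqrt (w i) := fun i => Real.sqrt_pos.2 (hw i)
  obtain ⟨p, -, hp⟩ := Finset.exists_pos_of_sum_zero_of_exists_nonzero (s := Finset.univ)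
    (fun i => z i * Real.sqrt (w i)) hZ.orth ⟨i0, Finset.mem_univ _, mul_ne_zero hi0 (hsw i0).ne'⟩
  obtain ⟨q, -, hq⟩ := Finset.exists_pos_of_sum_zero_of_exists_nonzero (s := Finset.univ)
    (fun i => -(z i * Real.sqrt (w i))) (by rw [Finset.sum_neg_distrib, hZ.orth, neg_zero])
    ⟨i0, Finset.mem_univ _, neg_ne_zero.2 (mul_ne_zero hi0 (hsw i0).ne')⟩
  have hzp : 0 < z p := pos_of_mul_pos_left hp (hsw p).le
  have hzq : z q < 0 := by
    by_contra hcon
    push Not at hcon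
    have := mul_nonneg hcon (hsw q).le
    linarith
  have hpq : p ≠ q := by
    intro h; rw [h] at hzp; linarith
  -- permutation
  obtain ⟨σ, hσ0, hσ1⟩ : ∃ σ : Equiv.Perm (Fin (d+2)), σ 0 = q ∧ σ 1 = p := by
    set π := Equiv.swap (0 : Fin (d+2)) q
    set r := π.symm p with hr
    have hr0 : r ≠ 0 := by
      intro h
      have h1 : π r = p := by rw [hr]; simp
      rw [h] at h1
      have h2 : π 0 = q := Equiv.swap_apply_left 0 q
      exact hpq (h1.symm.trans h2)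
    have h01 : (0 : Fin (d+2)) ≠ 1 := by
      intro h
      have := congrArg Fin.val h
      simp at this
    refine ⟨(Equiv.swap 1 r).trans π, ?_, ?_⟩
    · rw [Equiv.trans_apply, Equiv.swap_apply_of_ne_of_ne h01 hr0.symm]
      exact Equiv.swap_apply_left 0 q
    · rw [Equiv.trans_apply, Equiv.swap_apply_left]
      rw [hr]; simp
  have hJσ := hJ.perm σ
  have hZσ := hZ.perm σ
  have hwσ : ∀ i, 0 < (w ∘ σ) i := fun i => hw (σ i)
  have hcσ : ∀ v : Fin d → ℝ, ∫ p in KK (u ∘ σ), Real.exp (-p.1) * (v ⬝ᵥ p.2) = 0 := by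
    intro v; rw [KK_perm]; exact hc v
  have hz0 : (z ∘ σ) 0 < 0 := by simp only [Function.comp, hσ0]; exact hzq
  have hz1 : 0 < (z ∘ σ) 1 := by simp only [Function.comp, hσ1]; exact hzp
  have hb := tau_neg hwσ hz0
  have ha := tau_pos hwσ hz1
  set a := tau d (w ∘ σ) (z ∘ σ) 1 with hadef
  set b := -tau d (w ∘ σ) (z ∘ σ) 0 with hbdef
  have hb' : 0 < b := by linarith
  have h3 : tau d (w ∘ σ) (z ∘ σ) 0 = -b := by rw [hbdef]; ring
  have hcrit := crit_of_centroid hd hwσ hJσ hZσ ha hb' h3 rfl hcσ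
  obtain ⟨k, j, h5, h6, h7, h8, h9, h10⟩ := oneD ha hb' hcrit
  have hlen : (Lt d (w ∘ σ) (z ∘ σ)).length = d := by simp [Lt]
  rw [hlen] at h5 h6
  have hvol := vol_formula hd hwσ hJσ hZσ ha hb' h3 rfl
  rw [h10, PP_perm] at hvol
  refine ⟨k, j, h5, h7, hvol, ?_⟩
  intro hkj
  rcases h7 with h7 | h7
  · omega
  · obtain ⟨A, hA1, hA2⟩ := gram_of_perm hd hwσ hJσ hZσ ha hb' h3 rfl h7.1 h7.2 hkj (h6 hkj) h8 h9
    refine ⟨A.map σ.toEmbedding, by rw [Finset.card_map, hA1], ?_⟩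
    intro i l hil
    have h11 := hA2 (σ.symm i) (σ.symm l) (fun h => hil (σ.symm.injective h))
    simp only [Function.comp, Equiv.apply_symm_apply] at h11
    have hmem : ∀ i, i ∈ A.map σ.toEmbedding ↔ σ.symm i ∈ A := by
      intro i
      rw [Finset.mem_map_equiv]
    simp only [hmem]
    exact h11

end Pool.Agent.Work.MP_1c7b0d_gt
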