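import Pool.Agent.Work.MP_1c7b0d_gt.Phi

open MeasureTheory Set Filter Topology

namespace Pool.Agent.Work.MP_1c7b0d_gt

/-- density of `a X - b X' + ∑ τ ∈ L, τ X_τ` -/
noncomputable def gL (a b : ℝ) : List ℝ → ℝ → ℝ
  | [] => phi a b
  | τ :: L => T τ (gL a b L)

lemma gL_bc {a b : ℝ} (ha : 0 < a) (hb : 0 < b) (L : List ℝ) : BC (gL a b L) := by
  induction L with
  | nil => exact phi_bc ha hb
  | cons τ L ih => exact ih.T τ

lemma T_pos {g : ℝ → ℝ} (hg : BC g) (hpos : ∀ y, 0 < g y) (τ y : ℝ) : 0 < T τ g y := by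
  unfold T
  rw [setIntegral_pos_iff_support_of_nonneg_ae]
  · have : Function.support (fun x => Real.exp (-x) * g (y - τ * x)) = univ := by
      rw [Function.support_eq_univ]
      intro x
      exact (mul_pos (Real.exp_pos _) (hpos _)).ne'
    rw [this, univ_inter]
    simp
  · exact ae_of_all _ (fun x => (mul_pos (Real.exp_pos _) (hpos _)).le)
  · exact hg.adm.integrableOn τ y

lemma gL_pos {a b : ℝ} (ha : 0 < a) (hb : 0 < b) (L : List ℝ) (y : ℝ) : 0 < gL a b L y := by
  induction L generalizing y with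
  | nil => exact phi_pos ha hb y
  | cons τ L ih => exact T_pos (gL_bc ha hb L) ih τ y

lemma gL_perm {a b : ℝ} (ha : 0 < a) (hb : 0 < b) {L L' : List ℝ} (h : L.Perm L') :
    gL a b L = gL a b L' := by
  induction h with
  | nil => rfl
  | cons x _ ih => simp only [gL, ih]
  | swap x y l => simp only [gL]; exact T_comm (gL_bc ha hb l).adm _ _
  | trans _ _ ih1 ih2 => exact ih1.trans ih2

lemma gL_filter (a b : ℝ) (L : List ℝ) : gL a b (L.filter (fun x => x ≠ 0)) = gL a b L := by
  induction L with
  | nil => rfl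
  | cons τ L ih =>
    by_cases h : τ = 0
    · subst h
      simp only [List.filter_cons, ne_eq, not_true_eq_false, decide_false, Bool.false_eq_true,
        if_false, gL, T_zero]
      simpa using ih
    · simp only [List.filter_cons, ne_eq, h, not_false_eq_true, decide_true, if_true, gL]
      congr 1

lemma gL_neg (a b : ℝ) (L : List ℝ) (y : ℝ) : gL a b L (-y) = gL b a (L.map (fun x => -x)) y := by
  induction L generalizing y with
  | nil => exact phi_neg a b y
  | cons τ L ih =>
    simp only [gL, List.map_cons]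
    rw [T_neg_reflect]
    congr 1
    funext s
    rw [← ih, neg_neg]

/-- First moment identity. -/
lemma S_gL {a b : ℝ} (ha : 0 < a) (hb : 0 < b) (L : List ℝ) :
    (fun y => y * gL a b L y) = S (a :: -b :: L) (gL a b L) := by
  induction L with
  | nil => exact S_phi ha hb
  | cons τ L ih =>
    have hbc := gL_bc ha hb L
    funext y
    simp only [gL]
    rw [T_mul_id hbc, ih, T_S _ hbc.adm]
    simp only [S, List.map_cons, List.sum_cons]
    ring

lemma S_gL_zero {a b : ℝ} (ha : 0 < a) (hb : 0 < b) (L : List ℝ) :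
    S (a :: -b :: L) (gL a b L) 0 = 0 := by
  rw [← S_gL ha hb L]; simp

lemma hasDerivAt_mul_self_zero {g : ℝ → ℝ} (hg : ContinuousAt g 0) :
    HasDerivAt (fun y => y * g y) (g 0) 0 := by
  rw [hasDerivAt_iff_tendsto_slope]
  have : Tendsto g (𝓝[≠] 0) (𝓝 (g 0)) := hg.tendsto.mono_left nhdsWithin_le_nhds
  refine this.congr' ?_
  filter_upwards [self_mem_nhdsWithin] with y hy
  simp only [mem_compl_iff, mem_singleton_iff] at hy
  simp only [slope, vsub_eq_sub, sub_zero, smul_eq_mul, zero_mul]
  field_simp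

lemma hasDerivAt_S {G : ℝ → ℝ} (hG : Adm G) (L : List ℝ) (y : ℝ) :
    HasDerivAt (S L G) ((L.map (fun σ => G y - T σ G y)).sum) y := by
  induction L with
  | nil => rw [S_nil]; simpa using hasDerivAt_const y (0:ℝ)
  | cons σ L ih =>
    rw [S_cons]
    simp only [List.map_cons, List.sum_cons]
    refine HasDerivAt.add ?_ ih
    by_cases h : σ = 0
    · subst h
      simp only [zero_mul, T_zero, sub_self]
      exact hasDerivAt_const y (0:ℝ)
    · exact ((T_hasDerivAt hG h y).const_mul σ).congr_deriv (by field_simp)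

/-- Zeroth moment identity at `0`. -/
lemma S2_zero {a b : ℝ} (ha : 0 < a) (hb : 0 < b) (L : List ℝ) :
    gL a b L 0 = ((a :: -b :: L).map (fun σ => gL a b L 0 - T σ (gL a b L) 0)).sum := by
  have h1 := hasDerivAt_mul_self_zero ((gL_bc ha hb L).cont.continuousAt (x := 0))
  rw [S_gL ha hb L] at h1
  exact h1.unique (hasDerivAt_S (gL_bc ha hb L).adm _ 0)

/-- Third identity: for nonempty list of nonzero numbers, in the critical case, derivative at `0`
vanishes. -/
lemma S3_zero {a b τ : ℝ} (ha : 0 < a) (hb : 0 < b) (L : List ℝ) (hτ : τ ≠ 0)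
    (hL : ∀ x ∈ L, x ≠ 0)
    (hcrit : ∀ σ ∈ (a :: -b :: τ :: L), T σ (gL a b (τ :: L)) 0 = gL a b (τ :: L) 0 / (1 + σ ^ 2)) :
    gL a b L 0 = gL a b (τ :: L) 0 := by
  set G := gL a b (τ :: L) with hGdef
  have hbcL := gL_bc ha hb L
  have hbc : BC G := gL_bc ha hb (τ :: L)
  have hder : ∀ y, HasDerivAt G ((gL a b L y - G y) / τ) y := fun y => T_hasDerivAt hbcL.adm hτ y
  set D : ℝ → ℝ := fun y => (gL a b L y - G y) / τ with hD
  have hDc : Continuous D := by
    have h1 := hbcL.cont
    have h2 := hbc.cont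
    rw [hD]; fun_prop
  -- S2 for all y
  have hS2 : ∀ y, G y + y * D y = ((a :: -b :: τ :: L).map (fun σ => G y - T σ G y)).sum := by
    intro y
    have h1 : HasDerivAt (fun y => y * G y) (1 * G y + y * D y) y := (hasDerivAt_id y).mul (hder y)
    have h0 : (fun y => y * G y) = S (a :: -b :: τ :: L) G := S_gL ha hb (τ :: L)
    rw [h0] at h1
    have := h1.unique (hasDerivAt_S hbc.adm _ y)
    linarith
  -- differentiate at 0
  have h1 : HasDerivAt (fun y => G y + y * D y) (D 0 + D 0) 0 :=
    (hder 0).add (hasDerivAt_mul_self_zero hDc.continuousAt)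
  have h2 : HasDerivAt (fun y => ((a :: -b :: τ :: L).map (fun σ => G y - T σ G y)).sum)
      (((a :: -b :: τ :: L).map (fun σ => D 0 - (G 0 - T σ G 0) / σ)).sum) 0 := by
    have hne : ∀ σ ∈ (a :: -b :: τ :: L), σ ≠ 0 := by
      intro σ hσ
      simp only [List.mem_cons] at hσ
      rcases hσ with h | h | h | h
      · rw [h]; exact ha.ne'
      · rw [h]; exact (neg_neg_of_pos hb).ne
      · rw [h]; exact hτ
      · exact hL σ h
    generalize (a :: -b :: τ :: L) = M at hne
    induction M with
    | nil => simpa using hasDerivAt_const (0:ℝ) (0:ℝ)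
    | cons σ M ih =>
      simp only [List.map_cons, List.sum_cons]
      refine HasDerivAt.add ?_ (ih (fun x hx => hne x (List.mem_cons_of_mem _ hx)))
      exact (hder 0).sub (T_hasDerivAt hbc.adm (hne σ (List.mem_cons_self)) 0)
  have h3 : D 0 + D 0 = ((a :: -b :: τ :: L).map (fun σ => D 0 - (G 0 - T σ G 0) / σ)).sum := by
    have h4 : (fun y => G y + y * D y) = fun y => ((a :: -b :: τ :: L).map (fun σ => G y - T σ G y)).sum := by
      funext y; exact hS2 y
    rw [h4] at h1
    exact h1.unique h2
  -- use criticality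
  have h5 : ((a :: -b :: τ :: L).map (fun σ => D 0 - (G 0 - T σ G 0) / σ)).sum
      = ((a :: -b :: τ :: L).length : ℝ) * D 0 - S (a :: -b :: τ :: L) G 0 := by
    have hne : ∀ σ ∈ (a :: -b :: τ :: L), σ ≠ 0 := by
      intro σ hσ
      simp only [List.mem_cons] at hσ
      rcases hσ with h | h | h | h
      · rw [h]; exact ha.ne'
      · rw [h]; exact (neg_neg_of_pos hb).ne
      · rw [h]; exact hτ
      · exact hL σ h
    generalize (a :: -b :: τ :: L) = M at hne hcrit
    clear h1 h2 h3 hS2
    induction M with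
    | nil => simp [S]
    | cons σ M ih =>
      have hh := ih (fun x hx => hne x (List.mem_cons_of_mem _ hx)) (fun x hx => hcrit x (List.mem_cons_of_mem _ hx))
      simp only [List.map_cons, List.sum_cons, List.length_cons, S_cons]
      rw [hh]
      have h6 := hcrit σ (List.mem_cons_self)
      have h7 := hne σ (List.mem_cons_self)
      have h8 : (G 0 - T σ G 0) / σ = σ * T σ G 0 := by
        rw [h6]
        have : (1 + σ ^ 2) ≠ 0 := by positivity
        field_simp
        ring
      rw [h8]
      push_cast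
      ring
  have h9 : S (a :: -b :: τ :: L) G 0 = 0 := S_gL_zero ha hb (τ :: L)
  rw [h5, h9] at h3
  simp only [List.length_cons] at h3
  push_cast at h3
  have h10 : ((L.length : ℝ) + 1) * D 0 = 0 := by linarith
  have h11 : D 0 = 0 := by
    rcases mul_eq_zero.1 h10 with h | h
    · have : (0:ℝ) ≤ L.length := Nat.cast_nonneg _
      linarith
    · exact h
  rw [hD] at h11
  simp only [div_eq_zero_iff] at h11
  rcases h11 with h | h
  · linarith
  · exact absurd h hτ

end Pool.Agent.Work.MP_1c7b0d_gt
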