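import Pool.Agent.Work.MP_1c7b0d_gt.Moments

open MeasureTheory Set Filter Topology

namespace Pool.Agent.Work.MP_1c7b0d_gt

/-- no sign pattern (-,+,-) -/
def Pat (f : ℝ → ℝ) : Prop := ∀ s t r, s < t → t < r → f s < 0 → 0 < f t → f r < 0 → False

lemma exists_neg_of_T_neg {f : ℝ → ℝ} {τ y : ℝ} (h : T τ f y < 0) : ∃ x, 0 < x ∧ f (y - τ * x) < 0 := by
  by_contra hcon
  push Not at hcon
  have : 0 ≤ T τ f y := by
    unfold T
    refine setIntegral_nonneg measurableSet_Ioi (fun x hx => ?_)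
    exact mul_nonneg (Real.exp_pos _).le (hcon x hx)
  linarith

lemma exists_pos_of_T_pos {f : ℝ → ℝ} {τ y : ℝ} (h : 0 < T τ f y) : ∃ x, 0 < x ∧ 0 < f (y - τ * x) := by
  by_contra hcon
  push Not at hcon
  have : T τ f y ≤ 0 := by
    unfold T
    refine setIntegral_nonpos measurableSet_Ioi (fun x hx => ?_)
    exact mul_nonpos_of_nonneg_of_nonpos (Real.exp_pos _).le (hcon x hx)
  linarith

lemma exists_pos_of_shift {f : ℝ → ℝ} (hf : Adm f) {τ y h : ℝ} (hh : 0 < h)
    (h1 : T τ f y < Real.exp h * T τ f (y + τ * h)) :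
    ∃ x, 0 < x ∧ x < h ∧ 0 < f (y + τ * x) := by
  by_contra hcon
  push Not at hcon
  have h2 := T_shift hf τ y h
  have hc := hf.cont
  have hcc : Continuous (fun x => Real.exp (-x) * f (y - τ * x)) := by fun_prop
  have h3 : ∫ x in (-h)..0, Real.exp (-x) * f (y - τ * x) ≤ 0 := by
    rw [intervalIntegral.integral_of_le (by linarith), integral_Ioc_eq_integral_Ioo]
    refine setIntegral_nonpos measurableSet_Ioo (fun x hx => ?_)
    have := hcon (-x) (by linarith [hx.2]) (by linarith [hx.1])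
    rw [show y + τ * -x = y - τ * x by ring] at this
    exact mul_nonpos_of_nonneg_of_nonpos (Real.exp_pos _).le this
  linarith

lemma exists_neg_of_shift {f : ℝ → ℝ} (hf : Adm f) {τ y h : ℝ} (hh : 0 < h)
    (h1 : Real.exp h * T τ f (y + τ * h) < T τ f y) :
    ∃ x, 0 < x ∧ x < h ∧ f (y + τ * x) < 0 := by
  by_contra hcon
  push Not at hcon
  have h2 := T_shift hf τ y h
  have h3 : 0 ≤ ∫ x in (-h)..0, Real.exp (-x) * f (y - τ * x) := by
    rw [intervalIntegral.integral_of_le (by linarith), integral_Ioc_eq_integral_Ioo]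
    refine setIntegral_nonneg measurableSet_Ioo (fun x hx => ?_)
    have := hcon (-x) (by linarith [hx.2]) (by linarith [hx.1])
    rw [show y + τ * -x = y - τ * x by ring] at this
    exact mul_nonneg (Real.exp_pos _).le this
  linarith

lemma Pat.T {f : ℝ → ℝ} (hf : Adm f) (hp : Pat f) {τ : ℝ} (hτ : τ ≠ 0) : Pat (T τ f) := by
  intro s t r hst htr hs ht hr
  rcases lt_or_gt_of_ne hτ with hneg | hpos
  · -- τ < 0
    obtain ⟨x1, hx1, hf1⟩ := exists_neg_of_T_neg hr
    have e1 : r + τ * ((t - r) / τ) = t := by field_simp; ring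
    obtain ⟨x2, hx2, hx2', hf2⟩ := exists_pos_of_shift hf (τ := τ) (y := r) (h := (t - r) / τ)
      (div_pos_of_neg_of_neg (by linarith) hneg)
      (by rw [e1]; exact hr.trans (mul_pos (Real.exp_pos _) ht))
    have e2 : t + τ * ((s - t) / τ) = s := by field_simp; ring
    obtain ⟨x3, hx3, hx3', hf3⟩ := exists_neg_of_shift hf (τ := τ) (y := t) (h := (s - t) / τ)
      (div_pos_of_neg_of_neg (by linarith) hneg)
      (by rw [e2]; exact (mul_neg_of_pos_of_neg (Real.exp_pos _) hs).trans ht)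
    refine hp _ _ _ ?_ ?_ hf3 hf2 hf1
    · have h1 : τ * x3 < 0 := mul_neg_of_neg_of_pos hneg hx3
      have h2 : t - r < τ * x2 := by
        have := mul_lt_mul_of_neg_left hx2' hneg
        rwa [mul_div_cancel₀ _ hτ] at this
      linarith
    · have h1 : τ * x2 < 0 := mul_neg_of_neg_of_pos hneg hx2
      have h2 : τ * x1 < 0 := mul_neg_of_neg_of_pos hneg hx1
      linarith
  · obtain ⟨x1, hx1, hf1⟩ := exists_neg_of_T_neg hs
    have e1 : s + τ * ((t - s) / τ) = t := by field_simp; ring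
    obtain ⟨x2, hx2, hx2', hf2⟩ := exists_pos_of_shift hf (τ := τ) (y := s) (h := (t - s) / τ)
      (div_pos (by linarith) hpos)
      (by rw [e1]; exact hs.trans (mul_pos (Real.exp_pos _) ht))
    have e2 : t + τ * ((r - t) / τ) = r := by field_simp; ring
    obtain ⟨x3, hx3, hx3', hf3⟩ := exists_neg_of_shift hf (τ := τ) (y := t) (h := (r - t) / τ)
      (div_pos (by linarith) hpos)
      (by rw [e2]; exact (mul_neg_of_pos_of_neg (Real.exp_pos _) hr).trans ht)
    refine hp _ _ _ ?_ ?_ hf1 hf2 hf3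
    · have h1 : 0 < τ * x1 := mul_pos hpos hx1
      have h2 : 0 < τ * x2 := mul_pos hpos hx2
      linarith
    · have h1 : 0 < τ * x3 := mul_pos hpos hx3
      have h2 : τ * x2 < t - s := by
        have := mul_lt_mul_of_pos_left hx2' hpos
        rwa [mul_div_cancel₀ _ hτ] at this
      linarith

/-- not identically zero on either side -/
def NZ (f : ℝ → ℝ) : Prop := (∃ y, y < 0 ∧ f y ≠ 0) ∧ (∃ y, 0 < y ∧ f y ≠ 0)

lemma NZ.T {f : ℝ → ℝ} (hf : Adm f) (hn : NZ f) {τ : ℝ} (hτ : τ ≠ 0) : NZ (T τ f) := by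
  have key : ∀ U : Set ℝ, IsOpen U → (∃ y ∈ U, f y ≠ 0) → ∃ y ∈ U, MP_1c7b0d_gt.T τ f y ≠ 0 := by
    rintro U hU ⟨y, hy, hfy⟩
    by_contra hcon
    push Not at hcon
    have h1 := T_hasDerivAt hf hτ y
    have h2 : HasDerivAt (MP_1c7b0d_gt.T τ f) 0 y := by
      refine (hasDerivAt_const y (0:ℝ)).congr_of_eventuallyEq ?_
      filter_upwards [hU.mem_nhds hy] with z hz
      exact hcon z hz
    have h3 := h1.unique h2
    rw [hcon y hy, sub_zero, div_eq_zero_iff] at h3
    rcases h3 with h | h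
    · exact hfy h
    · exact hτ h
  constructor
  · obtain ⟨y, hy, h⟩ := key (Iio 0) isOpen_Iio hn.1
    exact ⟨y, hy, h⟩
  · obtain ⟨y, hy, h⟩ := key (Ioi 0) isOpen_Ioi hn.2
    exact ⟨y, hy, h⟩

end Pool.Agent.Work.MP_1c7b0d_gt
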