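import Pool.Agent.Work.MP_1c7b0d_gt.TOp

open MeasureTheory Set Filter Topology

namespace Pool.Agent.Work.MP_1c7b0d_gt

/-- bounded continuous functions -/
structure BC (g : ℝ → ℝ) : Prop where
  cont : Continuous g
  bound : ∃ C, ∀ y, |g y| ≤ C

lemma BC.adm {g : ℝ → ℝ} (hg : BC g) : Adm g := by
  obtain ⟨C, hC⟩ := hg.bound
  refine ⟨hg.cont, |C|, abs_nonneg _, fun y => (hC y).trans ?_⟩
  have := le_abs_self C
  have h2 := abs_nonneg y
  nlinarith [abs_nonneg C]

lemma BC.T {g : ℝ → ℝ} (hg : BC g) (τ : ℝ) : BC (T τ g) := by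
  refine ⟨(hg.adm.T τ).cont, ?_⟩
  obtain ⟨C, hC⟩ := hg.bound
  refine ⟨C, fun y => ?_⟩
  have h1 : ‖MP_1c7b0d_gt.T τ g y‖ ≤ ∫ x in Ioi (0:ℝ), C * Real.exp (-x) := by
    refine norm_integral_le_of_norm_le (integrableOn_exp_neg.const_mul _) ?_
    refine ae_of_all _ (fun x => ?_)
    rw [norm_mul, Real.norm_eq_abs, Real.norm_eq_abs, abs_of_pos (Real.exp_pos _), mul_comm]
    exact mul_le_mul_of_nonneg_right (hC _) (Real.exp_pos _).le
  rw [integral_const_mul, integral_exp_neg, mul_one] at h1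
  exact h1

lemma BC.mul_id_adm {g : ℝ → ℝ} (hg : BC g) : Adm (fun s => s * g s) := by
  obtain ⟨C, hC⟩ := hg.bound
  refine ⟨continuous_id.mul hg.cont, |C|, abs_nonneg _, fun y => ?_⟩
  rw [abs_mul]
  have := (hC y).trans (le_abs_self C)
  have h2 := abs_nonneg y
  have h3 := abs_nonneg (g y)
  nlinarith [abs_nonneg C]

lemma T_mul_id {g : ℝ → ℝ} (hg : BC g) (τ y : ℝ) :
    y * T τ g y = T τ (fun s => s * g s) y + τ * T τ (T τ g) y := by
  rw [T_T_eq hg.adm]
  have h1 := hg.mul_id_adm.integrableOn τ y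
  have h2 : IntegrableOn (fun x => τ * (Real.exp (-x) * x * g (y - τ * x))) (Ioi 0) := by
    have h3 := (hg.adm.integrableOn τ y).const_mul y
    refine Integrable.congr (h3.sub h1) (ae_of_all _ (fun x => ?_))
    simp only [Pi.sub_apply]
    ring
  unfold T
  rw [← integral_const_mul, ← integral_const_mul, ← integral_add h1 h2]
  refine integral_congr_ae (ae_of_all _ (fun x => ?_))
  simp only
  ring

lemma T_add {f g : ℝ → ℝ} (hf : Adm f) (hg : Adm g) (τ : ℝ) :
    T τ (fun y => f y + g y) = fun y => T τ f y + T τ g y := by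
  funext y
  unfold T
  rw [← integral_add (hf.integrableOn τ y) (hg.integrableOn τ y)]
  refine integral_congr_ae (ae_of_all _ (fun x => ?_))
  simp only
  ring

lemma T_const_mul (c : ℝ) (g : ℝ → ℝ) (τ : ℝ) :
    T τ (fun y => c * g y) = fun y => c * T τ g y := by
  funext y
  unfold T
  rw [← integral_const_mul]
  refine integral_congr_ae (ae_of_all _ (fun x => ?_))
  simp only
  ring

lemma Adm.add {f g : ℝ → ℝ} (hf : Adm f) (hg : Adm g) : Adm (fun y => f y + g y) := by
  obtain ⟨C, hC, hb⟩ := hf.bound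
  obtain ⟨D, hD, hd⟩ := hg.bound
  refine ⟨hf.cont.add hg.cont, C + D, by positivity, fun y => ?_⟩
  have := abs_add_le (f y) (g y)
  have h1 := hb y
  have h2 := hd y
  linarith

lemma Adm.const_mul {g : ℝ → ℝ} (hg : Adm g) (c : ℝ) : Adm (fun y => c * g y) := by
  obtain ⟨C, hC, hb⟩ := hg.bound
  refine ⟨continuous_const.mul hg.cont, |c| * C, by positivity, fun y => ?_⟩
  rw [abs_mul, mul_assoc]
  exact mul_le_mul_of_nonneg_left (hb y) (abs_nonneg c)

lemma adm_zero : Adm (fun _ => (0:ℝ)) := ⟨continuous_const, 0, le_rfl, fun y => by simp⟩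

/-- `S L G y = ∑ σ ∈ L, σ * T σ G y` -/
noncomputable def S (L : List ℝ) (G : ℝ → ℝ) (y : ℝ) : ℝ :=
  (L.map (fun σ => σ * T σ G y)).sum

lemma S_nil (G : ℝ → ℝ) : S [] G = fun _ => 0 := by
  funext y; simp [S]

lemma S_cons (σ : ℝ) (L : List ℝ) (G : ℝ → ℝ) :
    S (σ :: L) G = fun y => σ * T σ G y + S L G y := by
  funext y; simp [S]

lemma S_adm (L : List ℝ) {G : ℝ → ℝ} (hG : Adm G) : Adm (S L G) := by
  induction L with
  | nil => rw [S_nil]; exact adm_zero
  | cons σ L ih => rw [S_cons]; exact ((hG.T σ).const_mul σ).add ih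

lemma T_fun_zero (τ : ℝ) : T τ (fun _ => 0) = fun _ => 0 := by
  funext y; simp [T]

lemma T_S (L : List ℝ) {G : ℝ → ℝ} (hG : Adm G) (τ : ℝ) : T τ (S L G) = S L (T τ G) := by
  induction L with
  | nil => rw [S_nil, S_nil, T_fun_zero]
  | cons σ L ih =>
    rw [S_cons, S_cons, T_add ((hG.T σ).const_mul σ) (S_adm L hG), ih, T_const_mul,
      T_comm hG τ σ]

/-- density of `a X - b X'` for independent standard exponentials -/
noncomputable def phi (a b y : ℝ) : ℝ := (1 / (a + b)) * min (Real.exp (-y / a)) (Real.exp (y / b))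

lemma phi_of_nonneg {a b y : ℝ} (ha : 0 < a) (hb : 0 < b) (hy : 0 ≤ y) :
    phi a b y = (1 / (a + b)) * Real.exp (-y / a) := by
  unfold phi
  rw [min_eq_left]
  apply Real.exp_le_exp.2
  have h1 : -y / a ≤ 0 := div_nonpos_of_nonpos_of_nonneg (by linarith) ha.le
  have h2 : 0 ≤ y / b := div_nonneg hy hb.le
  linarith

lemma phi_of_nonpos {a b y : ℝ} (ha : 0 < a) (hb : 0 < b) (hy : y ≤ 0) :
    phi a b y = (1 / (a + b)) * Real.exp (y / b) := by
  unfold phi
  rw [min_eq_right]
  apply Real.exp_le_exp.2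
  have h1 : 0 ≤ -y / a := div_nonneg (by linarith) ha.le
  have h2 : y / b ≤ 0 := div_nonpos_of_nonpos_of_nonneg hy hb.le
  linarith

lemma phi_zero (a b : ℝ) : phi a b 0 = 1 / (a + b) := by simp [phi]

lemma phi_neg (a b y : ℝ) : phi a b (-y) = phi b a y := by
  unfold phi
  rw [neg_neg, min_comm, add_comm]

lemma phi_pos {a b : ℝ} (ha : 0 < a) (hb : 0 < b) (y : ℝ) : 0 < phi a b y := by
  unfold phi
  have : 0 < min (Real.exp (-y / a)) (Real.exp (y / b)) := lt_min (Real.exp_pos _) (Real.exp_pos _)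
  positivity

lemma phi_le {a b : ℝ} (ha : 0 < a) (hb : 0 < b) (y : ℝ) : phi a b y ≤ 1 / (a + b) := by
  rcases le_total 0 y with h | h
  · rw [phi_of_nonneg ha hb h]
    have : Real.exp (-y / a) ≤ 1 :=
      Real.exp_le_one_iff.2 (div_nonpos_of_nonpos_of_nonneg (by linarith) ha.le)
    exact mul_le_of_le_one_right (by positivity) this
  · rw [phi_of_nonpos ha hb h]
    have : Real.exp (y / b) ≤ 1 :=
      Real.exp_le_one_iff.2 (div_nonpos_of_nonpos_of_nonneg h hb.le)
    exact mul_le_of_le_one_right (by positivity) this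

lemma phi_lt {a b y : ℝ} (ha : 0 < a) (hb : 0 < b) (hy : y ≠ 0) : phi a b y < 1 / (a + b) := by
  rcases lt_or_gt_of_ne hy with h | h
  · rw [phi_of_nonpos ha hb h.le]
    have : Real.exp (y / b) < 1 :=
      Real.exp_lt_one_iff.2 (div_neg_of_neg_of_pos h hb)
    exact mul_lt_of_lt_one_right (by positivity) this
  · rw [phi_of_nonneg ha hb h.le]
    have : Real.exp (-y / a) < 1 :=
      Real.exp_lt_one_iff.2 (div_neg_of_neg_of_pos (by linarith) ha)
    exact mul_lt_of_lt_one_right (by positivity) this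

lemma phi_bc {a b : ℝ} (ha : 0 < a) (hb : 0 < b) : BC (phi a b) := by
  refine ⟨?_, 1 / (a + b), fun y => ?_⟩
  · unfold phi; fun_prop
  · rw [abs_of_pos (phi_pos ha hb y)]
    exact phi_le ha hb y

/-- `T τ (phi a b)` on the negative side, for `τ > 0` -/
lemma T_phi_of_nonpos {a b τ y : ℝ} (ha : 0 < a) (hb : 0 < b) (hτ : 0 < τ) (hy : y ≤ 0) :
    T τ (phi a b) y = phi a b y * (b / (b + τ)) := by
  unfold T
  have h1 : ∀ x ∈ Ioi (0:ℝ), Real.exp (-x) * phi a b (y - τ * x)
      = (1 / (a + b)) * Real.exp (y / b) * Real.exp (-(1 + τ / b) * x) := by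
    intro x hx
    simp only [mem_Ioi] at hx
    rw [phi_of_nonpos ha hb (by nlinarith [mul_pos hτ hx])]
    rw [mul_left_comm, ← Real.exp_add, mul_assoc, ← Real.exp_add]
    congr 2
    field_simp
    ring
  rw [setIntegral_congr_fun measurableSet_Ioi h1, integral_const_mul,
    integral_exp_mul_Ioi (by have := div_pos hτ hb; linarith) 0, phi_of_nonpos ha hb hy]
  simp only [mul_zero, Real.exp_zero]
  field_simp

lemma T_self_phi_of_nonneg {a b y : ℝ} (ha : 0 < a) (hb : 0 < b) (hy : 0 ≤ y) :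
    T a (phi a b) y = phi a b y * (y / a + b / (a + b)) := by
  have h1 := T_shift (phi_bc ha hb).adm a 0 (y / a)
  have h2 : (0:ℝ) + a * (y / a) = y := by field_simp; ring
  rw [h2, T_phi_of_nonpos ha hb ha le_rfl, phi_zero] at h1
  have h3 : ∫ x in (-(y / a))..0, Real.exp (-x) * phi a b (0 - a * x) = (1 / (a + b)) * (y / a) := by
    have h4 : ∫ x in (-(y / a))..0, Real.exp (-x) * phi a b (0 - a * x)
        = ∫ x in (-(y / a))..0, (1 / (a + b)) := by
      refine intervalIntegral.integral_congr (fun x hx => ?_)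
      rw [uIcc_of_le (by have := div_nonneg hy ha.le; linarith)] at hx
      rw [phi_of_nonneg ha hb (by nlinarith [hx.2]), mul_left_comm, ← Real.exp_add]
      have : -x + -(0 - a * x) / a = 0 := by field_simp; ring
      rw [this, Real.exp_zero, mul_one]
    rw [h4, intervalIntegral.integral_const]
    simp only [smul_eq_mul]
    ring
  rw [h3] at h1
  rw [phi_of_nonneg ha hb hy]
  have h5 : Real.exp (y / a) * Real.exp (-y / a) = 1 := by
    rw [← Real.exp_add]
    have : y / a + -y / a = 0 := by ring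
    rw [this, Real.exp_zero]
  have h6 : T a (phi a b) y = Real.exp (-y / a) * (Real.exp (y / a) * T a (phi a b) y) := by
    rw [← mul_assoc, mul_comm (Real.exp (-y / a)), h5, one_mul]
  rw [h6, h1, add_comm b a]
  ring

lemma T_neg_reflect (g : ℝ → ℝ) (τ y : ℝ) : T (-τ) g y = T τ (fun s => g (-s)) (-y) := by
  unfold T
  refine integral_congr_ae (ae_of_all _ (fun x => ?_))
  simp only
  congr 2
  ring

lemma T_neg_phi (a b τ y : ℝ) : T (-τ) (phi a b) y = T τ (phi b a) (-y) := by
  rw [T_neg_reflect]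
  congr 1
  funext s
  rw [phi_neg]

/-- First moment identity for `phi`. -/
lemma S_phi {a b : ℝ} (ha : 0 < a) (hb : 0 < b) :
    (fun y => y * phi a b y) = S [a, -b] (phi a b) := by
  funext y
  simp only [S, List.map_cons, List.map_nil, List.sum_cons, List.sum_nil]
  rw [T_neg_phi]
  have hφ : phi b a (-y) = phi a b y := by rw [phi_neg]
  rcases le_total 0 y with h | h
  · rw [T_self_phi_of_nonneg ha hb h, T_phi_of_nonpos hb ha hb (by linarith), hφ]
    field_simp
    ring
  · rw [T_phi_of_nonpos ha hb ha h, T_self_phi_of_nonneg hb ha (by linarith), hφ]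
    field_simp
    ring

end Pool.Agent.Work.MP_1c7b0d_gt
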