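import Mathlib

open MeasureTheory Set Filter Topology

namespace Pool.Agent.Work.MP_1c7b0d_gt

/-- `T τ g y = E g (y - τ X)` for a standard exponential variable `X`. -/
noncomputable def T (τ : ℝ) (g : ℝ → ℝ) (y : ℝ) : ℝ :=
  ∫ x in Ioi (0:ℝ), Real.exp (-x) * g (y - τ * x)

/-- continuous functions of at most linear growth -/
structure Adm (g : ℝ → ℝ) : Prop where
  cont : Continuous g
  bound : ∃ C, 0 ≤ C ∧ ∀ y, |g y| ≤ C * (1 + |y|)

lemma integrableOn_exp_neg : IntegrableOn (fun x : ℝ => Real.exp (-x)) (Ioi 0) :=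
  integrableOn_exp_neg_Ioi 0

lemma integral_exp_neg : ∫ x in Ioi (0:ℝ), Real.exp (-x) = 1 := by
  simpa using integral_exp_neg_Ioi 0

lemma integrableOn_mul_exp_neg : IntegrableOn (fun x : ℝ => Real.exp (-x) * x) (Ioi 0) := by
  have h := Real.GammaIntegral_convergent (s := 2) (by norm_num)
  refine h.congr_fun (fun x hx => ?_) measurableSet_Ioi
  have : (2:ℝ) - 1 = 1 := by norm_num
  simp only [this, Real.rpow_one]

lemma integral_mul_exp_neg : ∫ x in Ioi (0:ℝ), Real.exp (-x) * x = 1 := by
  have h := Real.Gamma_eq_integral (s := 2) (by norm_num)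
  have h2 : Real.Gamma 2 = 1 := Real.Gamma_two
  rw [h2] at h
  rw [h]
  refine setIntegral_congr_fun measurableSet_Ioi (fun x hx => ?_)
  have : (2:ℝ) - 1 = 1 := by norm_num
  simp only [this, Real.rpow_one]

lemma Adm.norm_le {g : ℝ → ℝ} {C : ℝ} (hC : 0 ≤ C) (hg : ∀ y, |g y| ≤ C * (1 + |y|))
    (τ y x : ℝ) (hx : 0 < x) :
    ‖Real.exp (-x) * g (y - τ * x)‖ ≤ C * (1 + |y|) * Real.exp (-x) + C * |τ| * (Real.exp (-x) * x) := by
  rw [norm_mul, Real.norm_eq_abs, Real.norm_eq_abs, abs_of_pos (Real.exp_pos _)]
  have h1 : |y - τ * x| ≤ |y| + |τ| * x := by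
    calc |y - τ * x| ≤ |y| + |τ * x| := abs_sub _ _
      _ = |y| + |τ| * x := by rw [abs_mul, abs_of_pos hx]
  have h2 := hg (y - τ * x)
  have h3 : |g (y - τ * x)| ≤ C * (1 + (|y| + |τ| * x)) :=
    h2.trans (mul_le_mul_of_nonneg_left (by linarith) hC)
  calc Real.exp (-x) * |g (y - τ * x)| ≤ Real.exp (-x) * (C * (1 + (|y| + |τ| * x))) :=
        mul_le_mul_of_nonneg_left h3 (Real.exp_pos _).le
    _ = _ := by ring

lemma Adm.integrableOn {g : ℝ → ℝ} (hg : Adm g) (τ y : ℝ) :
    IntegrableOn (fun x => Real.exp (-x) * g (y - τ * x)) (Ioi 0) := by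
  obtain ⟨C, hC, hb⟩ := hg.bound
  refine Integrable.mono' (g := fun x => C * (1 + |y|) * Real.exp (-x) + C * |τ| * (Real.exp (-x) * x)) ?_ ?_ ?_
  · exact (integrableOn_exp_neg.const_mul _).add (integrableOn_mul_exp_neg.const_mul _)
  · have : Continuous (fun x => Real.exp (-x) * g (y - τ * x)) := by
      have := hg.cont
      fun_prop
    exact this.aestronglyMeasurable
  · rw [ae_restrict_iff' measurableSet_Ioi]
    exact ae_of_all _ (fun x hx => Adm.norm_le hC hb τ y x hx)

lemma Adm.T {g : ℝ → ℝ} (hg : Adm g) (τ : ℝ) : Adm (T τ g) := by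
  obtain ⟨C, hC, hb⟩ := hg.bound
  constructor
  · rw [continuous_iff_continuousAt]
    intro y0
    have hcont := hg.cont
    refine continuousAt_of_dominated
      (bound := fun x => C * (1 + (|y0| + 1)) * Real.exp (-x) + C * |τ| * (Real.exp (-x) * x)) ?_ ?_ ?_ ?_
    · refine Eventually.of_forall (fun y => ?_)
      have : Continuous (fun x => Real.exp (-x) * g (y - τ * x)) := by fun_prop
      exact this.aestronglyMeasurable
    · have : ∀ᶠ y in 𝓝 y0, |y| < |y0| + 1 :=
        (continuous_abs.tendsto y0).eventually (gt_mem_nhds (by linarith))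
      filter_upwards [this] with y hy
      rw [ae_restrict_iff' measurableSet_Ioi]
      refine ae_of_all _ (fun x hx => (Adm.norm_le hC hb τ y x hx).trans ?_)
      have : C * (1 + |y|) * Real.exp (-x) ≤ C * (1 + (|y0| + 1)) * Real.exp (-x) := by
        apply mul_le_mul_of_nonneg_right _ (Real.exp_pos _).le
        apply mul_le_mul_of_nonneg_left _ hC
        linarith
      linarith
    · exact (integrableOn_exp_neg.const_mul _).add (integrableOn_mul_exp_neg.const_mul _)
    · refine ae_of_all _ (fun x => ?_)
      have : Continuous (fun y => Real.exp (-x) * g (y - τ * x)) := by fun_prop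
      exact this.continuousAt
  · refine ⟨C * (1 + |τ|), by positivity, fun y => ?_⟩
    have h1 : ‖MP_1c7b0d_gt.T τ g y‖ ≤ ∫ x in Ioi (0:ℝ), (C * (1 + |y|) * Real.exp (-x) + C * |τ| * (Real.exp (-x) * x)) := by
      refine norm_integral_le_of_norm_le ?_ ?_
      · exact (integrableOn_exp_neg.const_mul _).add (integrableOn_mul_exp_neg.const_mul _)
      · rw [ae_restrict_iff' measurableSet_Ioi]
        exact ae_of_all _ (fun x hx => Adm.norm_le hC hb τ y x hx)
    rw [integral_add (integrableOn_exp_neg.const_mul _) (integrableOn_mul_exp_neg.const_mul _),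
      integral_const_mul, integral_const_mul, integral_exp_neg, integral_mul_exp_neg] at h1
    rw [Real.norm_eq_abs] at h1
    refine h1.trans ?_
    have : 0 ≤ |y| := abs_nonneg y
    have h2 : 0 ≤ |τ| := abs_nonneg τ
    nlinarith [mul_nonneg hC h2, mul_nonneg (mul_nonneg hC h2) this]

lemma T_zero (g : ℝ → ℝ) : T 0 g = g := by
  funext y
  simp only [T, zero_mul, sub_zero]
  rw [integral_mul_const, integral_exp_neg, one_mul]

lemma T_comm {g : ℝ → ℝ} (hg : Adm g) (a b : ℝ) : T a (T b g) = T b (T a g) := by
  funext y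
  obtain ⟨C, hC, hb⟩ := hg.bound
  have hcont := hg.cont
  have e1 : T a (T b g) y = ∫ x in Ioi (0:ℝ), ∫ x' in Ioi (0:ℝ),
      Real.exp (-x) * (Real.exp (-x') * g (y - a * x - b * x')) := by
    unfold T
    refine integral_congr_ae (ae_of_all _ (fun x => ?_))
    simp only
    rw [integral_const_mul]
  have e2 : T b (T a g) y = ∫ x' in Ioi (0:ℝ), ∫ x in Ioi (0:ℝ),
      Real.exp (-x) * (Real.exp (-x') * g (y - a * x - b * x')) := by
    unfold T
    refine integral_congr_ae (ae_of_all _ (fun x' => ?_))
    simp only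
    rw [← integral_const_mul]
    refine integral_congr_ae (ae_of_all _ (fun x => ?_))
    simp only
    rw [show y - b * x' - a * x = y - a * x - b * x' by ring]
    ring
  rw [e1, e2]
  refine integral_integral_swap ?_
  refine Integrable.mono' (g := fun p : ℝ × ℝ => C * (1 + |y|) * (Real.exp (-p.1) * Real.exp (-p.2))
    + C * |a| * ((Real.exp (-p.1) * p.1) * Real.exp (-p.2))
    + C * |b| * (Real.exp (-p.1) * (Real.exp (-p.2) * p.2))) ?_ ?_ ?_
  · refine Integrable.add (Integrable.add ?_ ?_) ?_
    · exact (integrableOn_exp_neg.mul_prod integrableOn_exp_neg).const_mul _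
    · exact (integrableOn_mul_exp_neg.mul_prod integrableOn_exp_neg).const_mul _
    · exact (integrableOn_exp_neg.mul_prod integrableOn_mul_exp_neg).const_mul _
  · have : Continuous (Function.uncurry fun x x' : ℝ =>
        Real.exp (-x) * (Real.exp (-x') * g (y - a * x - b * x'))) := by
      unfold Function.uncurry
      fun_prop
    exact this.aestronglyMeasurable
  · rw [Measure.prod_restrict, ae_restrict_iff' (measurableSet_Ioi.prod measurableSet_Ioi)]
    refine ae_of_all _ (fun p hp => ?_)
    obtain ⟨hp1, hp2⟩ := hp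
    simp only [mem_Ioi] at hp1 hp2
    simp only [Function.uncurry]
    rw [norm_mul, norm_mul, Real.norm_eq_abs, Real.norm_eq_abs, Real.norm_eq_abs,
      abs_of_pos (Real.exp_pos _), abs_of_pos (Real.exp_pos _)]
    have h1 : |y - a * p.1 - b * p.2| ≤ |y| + |a| * p.1 + |b| * p.2 := by
      calc |y - a * p.1 - b * p.2| ≤ |y - a * p.1| + |b * p.2| := abs_sub _ _
        _ ≤ |y| + |a * p.1| + |b * p.2| := by
          have := abs_sub y (a * p.1)
          linarith
        _ = _ := by rw [abs_mul, abs_mul, abs_of_pos hp1, abs_of_pos hp2]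
    have h3 : |g (y - a * p.1 - b * p.2)| ≤ C * (1 + (|y| + |a| * p.1 + |b| * p.2)) :=
      (hb _).trans (mul_le_mul_of_nonneg_left (by linarith) hC)
    calc Real.exp (-p.1) * (Real.exp (-p.2) * |g (y - a * p.1 - b * p.2)|)
        ≤ Real.exp (-p.1) * (Real.exp (-p.2) * (C * (1 + (|y| + |a| * p.1 + |b| * p.2)))) := by
          gcongr
      _ = _ := by ring

lemma T_shift_aux (F : ℝ → ℝ) (x : ℝ) :
    ∫ x' in Ioi (0:ℝ), F (x + x') = ∫ s in Ioi x, F s := by
  rw [← integral_indicator measurableSet_Ioi, ← integral_indicator measurableSet_Ioi,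
    ← integral_add_left_eq_self ((Ioi x).indicator F) x]
  refine integral_congr_ae (ae_of_all _ (fun s => ?_))
  simp only [indicator, mem_Ioi]
  by_cases h : 0 < s
  · rw [if_pos h, if_pos (by linarith)]
  · rw [if_neg h, if_neg (by linarith)]

/-- Basic shift identity. -/
lemma T_shift {g : ℝ → ℝ} (hg : Adm g) (τ y h : ℝ) :
    Real.exp h * T τ g (y + τ * h) = T τ g y + ∫ x in (-h)..0, Real.exp (-x) * g (y - τ * x) := by
  have hint : ∀ a : ℝ, IntegrableOn (fun x => Real.exp (-x) * g (y - τ * x)) (Ioi a) := by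
    intro a
    by_cases ha : 0 ≤ a
    · exact (hg.integrableOn τ y).mono_set (Ioi_subset_Ioi ha)
    · push Not at ha
      rw [← Ioc_union_Ioi_eq_Ioi ha.le]
      refine IntegrableOn.union ?_ (hg.integrableOn τ y)
      have hc := hg.cont
      have : Continuous (fun x => Real.exp (-x) * g (y - τ * x)) := by fun_prop
      exact this.integrableOn_Ioc
  have e1 : Real.exp h * T τ g (y + τ * h) = ∫ s in Ioi (-h), Real.exp (-s) * g (y - τ * s) := by
    rw [← T_shift_aux (fun s => Real.exp (-s) * g (y - τ * s)) (-h)]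
    unfold T
    rw [← integral_const_mul]
    refine integral_congr_ae (ae_of_all _ (fun x => ?_))
    simp only
    rw [show y + τ * h - τ * x = y - τ * (-h + x) by ring, ← mul_assoc, ← Real.exp_add]
    congr 2
    ring
  rw [e1]
  have := intervalIntegral.integral_Ioi_sub_Ioi' (hint (-h)) (hint 0)
  unfold T
  linarith

lemma T_hasDerivAt {g : ℝ → ℝ} (hg : Adm g) {τ : ℝ} (hτ : τ ≠ 0) (y : ℝ) :
    HasDerivAt (T τ g) ((g y - T τ g y) / τ) y := by
  have hc := hg.cont
  have hcont : Continuous (fun x => Real.exp (-x) * g (y - τ * x)) := by fun_prop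
  -- derivative in h of the right side
  have h1 : HasDerivAt (fun h : ℝ => ∫ x in (-h)..0, Real.exp (-x) * g (y - τ * x)) (g y) 0 := by
    have h2 : HasDerivAt (fun u : ℝ => ∫ x in u..0, Real.exp (-x) * g (y - τ * x))
        (-(Real.exp (-0) * g (y - τ * 0))) (-0) := by
      simpa using intervalIntegral.integral_hasDerivAt_left (hcont.intervalIntegrable _ _)
        (hcont.stronglyMeasurableAtFilter _ _) hcont.continuousAt (a := (0:ℝ)) (b := 0)
    have h3 := h2.comp (0:ℝ) (hasDerivAt_neg (0:ℝ))
    simpa [Function.comp_def] using h3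
  have h4 : HasDerivAt (fun h : ℝ => Real.exp (-h) * (T τ g y + ∫ x in (-h)..0, Real.exp (-x) * g (y - τ * x)))
      (g y - T τ g y) 0 := by
    have h5 : HasDerivAt (fun h : ℝ => Real.exp (-h)) (-1) 0 := by
      have := (hasDerivAt_neg (0:ℝ)).exp
      simpa using this
    have h6 := h5.mul (h1.const_add (T τ g y))
    refine h6.congr_deriv ?_
    rw [neg_zero, intervalIntegral.integral_same, Real.exp_zero]
    ring
  have h7 : (fun h : ℝ => Real.exp (-h) * (T τ g y + ∫ x in (-h)..0, Real.exp (-x) * g (y - τ * x)))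
      = fun h => T τ g (y + τ * h) := by
    funext h
    rw [← T_shift hg τ y h, ← mul_assoc, ← Real.exp_add]
    simp
  rw [h7] at h4
  have h8 : HasDerivAt (fun z : ℝ => (z - y) / τ) (1 / τ) y := by
    simpa using ((hasDerivAt_id y).sub_const y).div_const τ
  have h9 : HasDerivAt (fun h => T τ g (y + τ * h)) (g y - T τ g y) ((y - y) / τ) := by
    simpa using h4
  have h10 := h9.comp y h8
  have h11 : (fun h => T τ g (y + τ * h)) ∘ (fun z : ℝ => (z - y) / τ) = T τ g := by
    funext z
    simp only [Function.comp]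
    congr 1
    field_simp
    ring
  rw [h11] at h10
  exact h10.congr_deriv (by rw [mul_one_div])

lemma T_T_eq {g : ℝ → ℝ} (hg : Adm g) (τ y : ℝ) :
    T τ (T τ g) y = ∫ x in Ioi (0:ℝ), Real.exp (-x) * x * g (y - τ * x) := by
  obtain ⟨C, hC, hb⟩ := hg.bound
  have hcont := hg.cont
  set F : ℝ → ℝ := fun s => Real.exp (-s) * g (y - τ * s) with hF
  have hFc : Continuous F := by
    rw [hF]; fun_prop
  have e1 : T τ (T τ g) y = ∫ x in Ioi (0:ℝ), ∫ s in Ioi x, F s := by
    unfold T
    refine setIntegral_congr_fun measurableSet_Ioi (fun x hx => ?_)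
    rw [← T_shift_aux F x, ← integral_const_mul]
    refine integral_congr_ae (ae_of_all _ (fun x' => ?_))
    simp only [hF]
    rw [show y - τ * x - τ * x' = y - τ * (x + x') by ring, ← mul_assoc, ← Real.exp_add]
    congr 2
    ring
  rw [e1]
  have e2 : ∫ x in Ioi (0:ℝ), ∫ s in Ioi x, F s
      = ∫ x in Ioi (0:ℝ), ∫ s in Ioi (0:ℝ), (if x < s then F s else 0) := by
    refine setIntegral_congr_fun measurableSet_Ioi (fun x hx => ?_)
    rw [← integral_indicator measurableSet_Ioi, ← integral_indicator measurableSet_Ioi]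
    refine integral_congr_ae (ae_of_all _ (fun s => ?_))
    simp only [indicator, mem_Ioi] at *
    by_cases h : x < s
    · rw [if_pos h, if_pos (hx.trans h)]
    · rw [if_neg h, ite_self]
  rw [e2, integral_integral_swap]
  · refine setIntegral_congr_fun measurableSet_Ioi (fun s hs => ?_)
    simp only [mem_Ioi] at *
    have : ∀ x : ℝ, (if x < s then F s else 0) = (Iio s).indicator (fun _ => F s) x := by
      intro x
      simp only [indicator, mem_Iio]
    simp_rw [this]
    rw [setIntegral_indicator measurableSet_Iio, Ioi_inter_Iio, setIntegral_const]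
    simp only [measureReal_def, Real.volume_Ioo, sub_zero, smul_eq_mul]
    rw [ENNReal.toReal_ofReal hs.le, hF]
    ring
  · have hmeas : Measurable (Function.uncurry fun x s : ℝ => if x < s then F s else 0) := by
      unfold Function.uncurry
      exact Measurable.ite (measurableSet_lt measurable_fst measurable_snd)
        (hFc.measurable.comp measurable_snd) measurable_const
    rw [integrable_prod_iff' hmeas.aestronglyMeasurable]
    constructor
    · rw [ae_restrict_iff' measurableSet_Ioi]
      refine ae_of_all _ (fun s hs => ?_)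
      simp only [Function.uncurry]
      have : ∀ x : ℝ, (if x < s then F s else 0) = (Iio s).indicator (fun _ => F s) x := by
        intro x
        simp only [indicator, mem_Iio]
      simp_rw [this]
      rw [integrable_indicator_iff measurableSet_Iio, IntegrableOn,
        Measure.restrict_restrict measurableSet_Iio, Iio_inter_Ioi]
      exact integrableOn_const (by simp)
    · have : IntegrableOn (fun s => s * |F s|) (Ioi 0) := by
        refine Integrable.mono' (g := fun x => C * (1 + |y|) * (Real.exp (-x) * x)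
          + C * |τ| * (Real.exp (-x) * x ^ 2)) ?_ ?_ ?_
        · refine (integrableOn_mul_exp_neg.const_mul _).add (Integrable.const_mul ?_ _)
          have h := Real.GammaIntegral_convergent (s := 3) (by norm_num)
          refine h.congr_fun (fun x hx => ?_) measurableSet_Ioi
          have : (3:ℝ) - 1 = 2 := by norm_num
          simp only [this]
          norm_num
        · exact (continuous_id.mul hFc.abs).aestronglyMeasurable
        · rw [ae_restrict_iff' measurableSet_Ioi]
          refine ae_of_all _ (fun x hx => ?_)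
          simp only [mem_Ioi] at hx
          have := Adm.norm_le hC hb τ y x hx
          rw [Real.norm_eq_abs] at this
          rw [Real.norm_eq_abs, abs_mul, abs_abs, abs_of_pos hx]
          calc x * |F x| ≤ x * (C * (1 + |y|) * Real.exp (-x) + C * |τ| * (Real.exp (-x) * x)) :=
                mul_le_mul_of_nonneg_left this hx.le
            _ = _ := by ring
      refine this.congr_fun (fun s hs => ?_) measurableSet_Ioi
      simp only [Function.uncurry, mem_Ioi] at *
      have : ∀ x : ℝ, ‖(if x < s then F s else 0)‖ = (Iio s).indicator (fun _ => |F s|) x := by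
        intro x
        simp only [indicator, mem_Iio]
        split_ifs <;> simp
      simp_rw [this]
      rw [setIntegral_indicator measurableSet_Iio, Ioi_inter_Iio, setIntegral_const]
      simp only [measureReal_def, Real.volume_Ioo, sub_zero, smul_eq_mul]
      rw [ENNReal.toReal_ofReal hs.le]

end Pool.Agent.Work.MP_1c7b0d_gt
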